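import Pool.Agent.Helper26.KC.F9
import Pool.Agent.Helper60.KC.Main

/-!
# KS, Huxley's density theorem with multiplicities
-/

set_option autoImplicit false
set_option maxHeartbeats 4000000
open Filter Topology
open scoped Classical

namespace Pool.Agent.Helper26.KC

open Pool.Agent.Helper60.KS
open Pool.Agent.Helper60.KC (small low_zeros)

theorem dens (hD : DensS) (hA : A9i) (hS : SplitSpaced) : Dens := by
  intro ε hε
  obtain ⟨C, hC, hA⟩ := hA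
  obtain ⟨T0, hT0⟩ := hD (ε / 4) (by linarith)
  have ev := (small (Real.log (100 * (C + 1) ^ 2)) 6 (ε / 4) (by linarith)).and
    ((eventually_ge_atTop T0).and (eventually_ge_atTop (Real.exp 10)))
  obtain ⟨T1, hT1⟩ := Filter.eventually_atTop.mp ev
  set M1 : ℕ := ⌈max T1 2⌉₊ with hM1
  set K : ℝ := (2 * M1 + 1) * (C * Real.log (M1 + 2)) with hK
  have hK0 : 0 ≤ K := by
    have : 0 ≤ Real.log ((M1 : ℝ) + 2) := Real.log_nonneg (by have := Nat.cast_nonneg (α := ℝ) M1; linarith)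
    rw [hK]; positivity
  refine ⟨K + 1, by linarith, ?_⟩
  intro T x hT hx hx' F hF
  have hTpos : 0 < T := by linarith
  have hTp1 : 1 ≤ T ^ (2.4 * x + ε) := Real.one_le_rpow (by linarith) (by positivity)
  rcases le_or_gt T (max T1 2) with hc | hc
  · -- small T
    have h1 := low_zeros hC hA M1 F (by
      intro ρ hρ
      obtain ⟨h1, h2, h3⟩ := hF ρ hρ
      refine ⟨h1, by linarith, ?_⟩
      have := Nat.le_ceil (max T1 2)
      rw [← hM1] at this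
      linarith)
    rw [← hK] at h1
    nlinarith
  obtain ⟨hsm, hTT0, hT10⟩ := hT1 T ((le_max_left _ _).trans hc.le)
  have hl10 : 10 ≤ Real.log T := by rw [Real.le_log_iff_exp_le hTpos]; exact hT10
  set l := Real.log T with hl
  have hl0 : 0 < l := by linarith
  have hT8 : 8 ≤ T := by
    have := Real.add_one_le_exp (10 : ℝ)
    linarith
  -- low zeros
  set M : ℕ := ⌈l ^ 2⌉₊ with hM
  have hM1' : (M : ℝ) ≤ l ^ 2 + 1 := (Nat.ceil_lt_add_one (by positivity)).le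
  have hM2 : l ^ 2 ≤ M := Nat.le_ceil _
  set F' := F.filter (fun ρ => mz ρ ≠ 0) with hF'
  have hsum : ∑ ρ ∈ F, (mz ρ : ℝ) = ∑ ρ ∈ F', (mz ρ : ℝ) := by
    rw [hF', Finset.sum_filter]
    apply Finset.sum_congr rfl
    intro ρ _
    split_ifs with h
    · rfl
    · push Not at h
      rw [h]; simp
  set F2 := F'.filter (fun ρ => |ρ.im| < l ^ 2) with hF2
  set F3 := F'.filter (fun ρ => ¬ |ρ.im| < l ^ 2) with hF3
  have hsum2 : ∑ ρ ∈ F', (mz ρ : ℝ) = ∑ ρ ∈ F2, (mz ρ : ℝ) + ∑ ρ ∈ F3, (mz ρ : ℝ) :=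
    (Finset.sum_filter_add_sum_filter_not F' _ _).symm
  have hlowb : ∑ ρ ∈ F2, (mz ρ : ℝ) ≤ (2 * M + 1) * (C * Real.log (M + 2)) := by
    apply low_zeros hC hA M F2
    intro ρ hρ
    rw [hF2, Finset.mem_filter, hF', Finset.mem_filter] at hρ
    obtain ⟨h1, h2, h3⟩ := hF ρ hρ.1.1
    exact ⟨h1, by linarith, hρ.2.le.trans hM2⟩
  have hlogM : Real.log ((M : ℝ) + 2) ≤ l ^ 2 + 2 := by
    have := Real.log_le_sub_one_of_pos (show (0:ℝ) < (M : ℝ) + 2 by positivity)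
    linarith
  -- high zeros
  have hF3p : ∀ ρ ∈ F3, riemannZeta ρ = 0 ∧ 1 - x ≤ ρ.re ∧ l ^ 2 ≤ |ρ.im| ∧ |ρ.im| ≤ T ∧ 1 ≤ mz ρ := by
    intro ρ hρ
    rw [hF3, Finset.mem_filter, hF', Finset.mem_filter] at hρ
    obtain ⟨h1, h2, h3⟩ := hF ρ hρ.1.1
    exact ⟨h1, h2, not_lt.mp hρ.2, h3, Nat.one_le_iff_ne_zero.mpr hρ.1.2⟩
  have hlogT : ∀ t : ℝ, |t| ≤ T + 1 → Real.log (|t| + 2) ≤ 2 * l := by
    intro t ht
    rw [hl, ← Real.log_rpow hTpos]
    apply Real.log_le_log (by positivity)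
    have e2 : T ^ (2:ℝ) = T * T := by rw [show (2:ℝ) = ((2:ℕ):ℝ) by norm_num, Real.rpow_natCast]; ring
    rw [e2]; nlinarith
  have hunit : ∀ t : ℝ, ∑ ρ ∈ F3.filter (fun ρ => |ρ.im - t| ≤ 1), (mz ρ : ℝ) ≤ C * (2 * l) := by
    intro t
    rcases (F3.filter (fun ρ => |ρ.im - t| ≤ 1)).eq_empty_or_nonempty with he | he
    · rw [he]; simp; positivity
    · obtain ⟨ρ, hρ⟩ := he
      rw [Finset.mem_filter] at hρ
      obtain ⟨_, _, _, h4, _⟩ := hF3p ρ hρ.1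
      have h5 : |t| ≤ T + 1 := by
        have := abs_sub_abs_le_abs_sub t ρ.im
        rw [abs_sub_comm] at this
        linarith [hρ.2]
      refine (hA t _ ?_).trans (mul_le_mul_of_nonneg_left (hlogT t h5) hC.le)
      intro ρ' hρ'
      rw [Finset.mem_filter] at hρ'
      obtain ⟨g1, g2, _, _, _⟩ := hF3p ρ' hρ'.1
      exact ⟨g1, by linarith, hρ'.2⟩
  set N : ℕ := ⌈C * (2 * l)⌉₊ with hN
  have hN1 : (N : ℝ) ≤ C * (2 * l) + 1 := (Nat.ceil_lt_add_one (by positivity)).le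
  obtain ⟨col, hcol1, hcol2⟩ := hS F3 N (by
    intro t
    have h1 : ((F3.filter (fun ρ => |ρ.im - t| ≤ 1)).card : ℝ) ≤
        ∑ ρ ∈ F3.filter (fun ρ => |ρ.im - t| ≤ 1), (mz ρ : ℝ) := by
      rw [Finset.card_eq_sum_ones]
      push_cast
      apply Finset.sum_le_sum
      intro ρ hρ
      rw [Finset.mem_filter] at hρ
      exact_mod_cast (hF3p ρ hρ.1).2.2.2.2
    have h2 := (h1.trans (hunit t)).trans (Nat.le_ceil _)
    exact_mod_cast h2)
  have hclass : ∀ i : ℕ, ((F3.filter (fun ρ => col ρ = i)).card : ℝ) ≤ T ^ (2.4 * x + ε / 4) := by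
    intro i
    apply hT0 T x hTT0 hx hx' _ (hcol2 i)
    intro ρ hρ
    rw [Finset.mem_filter] at hρ
    obtain ⟨g1, g2, g3, g4, _⟩ := hF3p ρ hρ.1
    exact ⟨g1, g2, g3, g4⟩
  have hcard3 : (F3.card : ℝ) ≤ N * T ^ (2.4 * x + ε / 4) := by
    have h1 : F3.card = ∑ i ∈ Finset.range N, (F3.filter (fun ρ => col ρ = i)).card := by
      rw [← Finset.card_eq_sum_card_fiberwise (f := col)]
      intro ρ hρ
      rw [Finset.mem_coe, Finset.mem_range]
      exact hcol1 ρ hρ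
    rw [h1]
    push_cast
    have := Finset.sum_le_card_nsmul (Finset.range N) (fun i => ((F3.filter (fun ρ => col ρ = i)).card : ℝ)) _
      (fun i _ => hclass i)
    rwa [Finset.card_range, nsmul_eq_mul] at this
  have hmz : ∀ ρ ∈ F3, (mz ρ : ℝ) ≤ C * (2 * l) := by
    intro ρ hρ
    have h1 := hunit ρ.im
    refine le_trans ?_ h1
    refine Finset.single_le_sum (f := fun ρ => (mz ρ : ℝ)) (fun _ _ => Nat.cast_nonneg _) ?_
    rw [Finset.mem_filter]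
    exact ⟨hρ, by simp⟩
  have hhigh : ∑ ρ ∈ F3, (mz ρ : ℝ) ≤ (C * (2 * l)) * ((C * (2 * l) + 1) * T ^ (2.4 * x + ε / 4)) := by
    have h1 := Finset.sum_le_card_nsmul F3 (fun ρ => (mz ρ : ℝ)) _ hmz
    rw [nsmul_eq_mul] at h1
    refine h1.trans ?_
    have h2 : (F3.card : ℝ) ≤ (C * (2 * l) + 1) * T ^ (2.4 * x + ε / 4) := by
      refine hcard3.trans ?_
      gcongr
    calc (F3.card : ℝ) * (C * (2 * l)) ≤ ((C * (2 * l) + 1) * T ^ (2.4 * x + ε / 4)) * (C * (2 * l)) := by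
          gcongr
      _ = _ := by ring
  have hTq : 1 ≤ T ^ (2.4 * x + ε / 4) := Real.one_le_rpow (by linarith) (by positivity)
  set P := T ^ (2.4 * x + ε / 4) with hP
  have hpoly : ∑ ρ ∈ F, (mz ρ : ℝ) ≤ (100 * (C + 1) ^ 2 * l ^ 6) * P := by
    rw [hsum, hsum2]
    have a1 : (2 * (M : ℝ) + 1) * (C * Real.log (M + 2)) ≤ (2 * (l ^ 2 + 1) + 1) * (C * (l ^ 2 + 2)) := by
      have : 0 ≤ Real.log ((M : ℝ) + 2) := Real.log_nonneg (by have := Nat.cast_nonneg (α := ℝ) M; linarith)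
      gcongr
    have a2 : (2 * (l ^ 2 + 1) + 1) * (C * (l ^ 2 + 2)) ≤ 15 * (C + 1) * l ^ 4 := by
      have b1 : 2 * (l ^ 2 + 1) + 1 ≤ 5 * l ^ 2 := by nlinarith
      have b2 : l ^ 2 + 2 ≤ 3 * l ^ 2 := by nlinarith
      calc (2 * (l ^ 2 + 1) + 1) * (C * (l ^ 2 + 2)) ≤ (5 * l ^ 2) * ((C + 1) * (3 * l ^ 2)) := by
            gcongr
            linarith
        _ = _ := by ring
    have a3 : (C * (2 * l)) * ((C * (2 * l) + 1) * P) ≤ 6 * (C + 1) ^ 2 * l ^ 2 * P := by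
      have b1 : C * (2 * l) + 1 ≤ 3 * (C + 1) * l := by nlinarith
      have b2 : C * (2 * l) ≤ 2 * (C + 1) * l := by nlinarith
      calc (C * (2 * l)) * ((C * (2 * l) + 1) * P) ≤ (2 * (C + 1) * l) * ((3 * (C + 1) * l) * P) := by
            gcongr
        _ = _ := by ring
    have hl4 : l ^ 4 ≤ l ^ 6 := pow_le_pow_right₀ (by linarith) (by norm_num)
    have hl2 : l ^ 2 ≤ l ^ 6 := pow_le_pow_right₀ (by linarith) (by norm_num)
    have hC1 : (C + 1) ≤ (C + 1) ^ 2 := by nlinarith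
    have a4 : 15 * (C + 1) * l ^ 4 ≤ 15 * (C + 1) ^ 2 * l ^ 6 * P := by
      calc 15 * (C + 1) * l ^ 4 ≤ 15 * (C + 1) ^ 2 * l ^ 6 := by gcongr
        _ = 15 * (C + 1) ^ 2 * l ^ 6 * 1 := by ring
        _ ≤ 15 * (C + 1) ^ 2 * l ^ 6 * P := by gcongr
    have a5 : 6 * (C + 1) ^ 2 * l ^ 2 * P ≤ 6 * (C + 1) ^ 2 * l ^ 6 * P := by gcongr
    have a6 : 0 ≤ (C + 1) ^ 2 * l ^ 6 * P := by positivity
    calc ∑ ρ ∈ F2, (mz ρ : ℝ) + ∑ ρ ∈ F3, (mz ρ : ℝ)
        ≤ 15 * (C + 1) ^ 2 * l ^ 6 * P + 6 * (C + 1) ^ 2 * l ^ 6 * P := by linarith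
      _ ≤ (100 * (C + 1) ^ 2 * l ^ 6) * P := by nlinarith
  have hlog : 100 * (C + 1) ^ 2 * l ^ 6 ≤ T ^ (ε / 4) := by
    rw [Real.rpow_def_of_pos hTpos, ← Real.log_le_iff_le_exp (by positivity),
      Real.log_mul (by positivity) (by positivity), Real.log_pow]
    push_cast
    linarith
  calc ∑ ρ ∈ F, (mz ρ : ℝ) ≤ (100 * (C + 1) ^ 2 * l ^ 6) * P := hpoly
    _ ≤ T ^ (ε / 4) * P := by gcongr
    _ = T ^ (ε / 4 + (2.4 * x + ε / 4)) := by rw [hP, ← Real.rpow_add hTpos]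
    _ ≤ T ^ (2.4 * x + ε) := Real.rpow_le_rpow_of_exponent_le (by linarith) (by linarith)
    _ ≤ (K + 1) * T ^ (2.4 * x + ε) := by nlinarith

end Pool.Agent.Helper26.KC
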