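import Pool.Agent.Helper26.KC.F2

/-!
# KS, fourth moment, part 3: approximate functional equation (inequality)
-/

set_option autoImplicit false
open MeasureTheory Filter Topology Finset

namespace Pool.Agent.Helper26.KC

open Pool.Agent.Helper1.KSZ (FF)
open Pool.Agent.Helper69.QRH

theorem FF_diff {s : ℂ} (hs : 0 < s.re) : DifferentiableAt ℂ FF s := by
  unfold FF
  refine DifferentiableAt.mul (Complex.differentiableAt_Gamma s (fun m hm => ?_)) ?_
  · have := congrArg Complex.re hm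
    simp at this
    have h2 : (0 : ℝ) ≤ m := Nat.cast_nonneg m
    linarith
  · fun_prop

/-- the factor in the reflected integral -/
noncomputable def Af (s : ℂ) (V : ℝ) (w : ℂ) : ℂ :=
  2 * (2 * Real.pi : ℂ) ^ (-(1 - s - w)) * FF (1 - s - w) * Complex.exp (w * V + w ^ 2) / w

theorem Af_diff {s : ℂ} {V : ℝ} {w : ℂ} (hs : s.re = 1 / 2) (hw : w.re < 0) :
    DifferentiableAt ℂ (Af s V) w := by
  have hw0 : w ≠ 0 := by
    rintro rfl; simp at hw
  have h2 : (2 * Real.pi : ℂ) ≠ 0 := by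
    have := Real.pi_ne_zero
    exact mul_ne_zero two_ne_zero (by exact_mod_cast this)
  unfold Af
  refine DifferentiableAt.div (DifferentiableAt.mul (DifferentiableAt.mul ?_ ?_) (by fun_prop))
    (by fun_prop) hw0
  · refine DifferentiableAt.mul (by fun_prop) ?_
    exact DifferentiableAt.const_cpow (by fun_prop) (Or.inl h2)
  · refine DifferentiableAt.comp (g := FF) (f := fun w : ℂ => 1 - s - w) w (FF_diff ?_) (by fun_prop)
    simp [hs]
    linarith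

theorem Af_norm {C : ℝ} (_hC : 0 < C)
    (hC1 : ∀ σ t : ℝ, 1 / 2 ≤ σ → σ ≤ 3 / 2 →
      ‖FF ((σ : ℂ) + t * Complex.I)‖ ≤ C * (1 + |t|) ^ (σ - 1 / 2))
    {ε t V : ℝ} (hε : 0 < ε) {w : ℂ} (h1 : w.re ≤ -ε) (h2 : -(3 / 4) ≤ w.re) :
    ‖Af (1 / 2 + (t : ℂ) * Complex.I) V w‖ ≤ 4 * C / ε * (1 + |t + w.im|) ^ (-w.re) *
      Real.exp (w.re * V) * Real.exp (-w.im ^ 2) := by
  set z : ℂ := 1 - (1 / 2 + (t : ℂ) * Complex.I) - w with hz
  have hzre : z.re = 1 / 2 - w.re := by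
    simp [hz]; ring
  have hzim : z.im = -(t + w.im) := by
    simp [hz]; ring
  have e1 : ‖FF z‖ ≤ C * (1 + |t + w.im|) ^ (-w.re) := by
    have h3 := hC1 z.re z.im (by rw [hzre]; linarith) (by rw [hzre]; linarith)
    rw [Complex.re_add_im, hzre, hzim, abs_neg] at h3
    rwa [show 1 / 2 - w.re - 1 / 2 = -w.re by ring] at h3
  have e2 := norm_two_pi_cpow (z := z) (by rw [hzre]; linarith)
  have e3 : ε ≤ ‖w‖ := by
    have := Complex.abs_re_le_norm w
    have h4 := neg_abs_le w.re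
    linarith
  have e4 : Real.exp (w.re ^ 2) ≤ 2 := by
    have h5 : w.re ^ 2 ≤ 9 / 16 := by nlinarith
    have h6 : Real.exp (w.re ^ 2) ≤ Real.exp (9 / 16) := Real.exp_le_exp.mpr h5
    have h7 : Real.exp (9 / 16) ≤ 2 := by
      have h8 : (9 / 16 : ℝ) ≤ Real.log 2 := by
        have := Real.log_two_gt_d9
        linarith
      calc Real.exp (9 / 16) ≤ Real.exp (Real.log 2) := Real.exp_le_exp.mpr h8
        _ = 2 := Real.exp_log (by norm_num)
    linarith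
  have e5 : ‖Complex.exp (w * V + w ^ 2)‖ ≤ 2 * (Real.exp (w.re * V) * Real.exp (-w.im ^ 2)) := by
    rw [norm_expVw, Real.exp_add]
    have h5 := Real.exp_pos (w.re * V)
    have h6 := Real.exp_pos (-w.im ^ 2)
    calc Real.exp (w.re * V) * Real.exp (w.re ^ 2) * Real.exp (-w.im ^ 2)
        ≤ Real.exp (w.re * V) * 2 * Real.exp (-w.im ^ 2) := by gcongr
      _ = _ := by ring
  unfold Af
  rw [← hz, norm_div, norm_mul, norm_mul, norm_mul, Complex.norm_ofNat]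
  have h6 : (0 : ℝ) ≤ (1 + |t + w.im|) ^ (-w.re) := by positivity
  calc 2 * ‖(2 * Real.pi : ℂ) ^ (-z)‖ * ‖FF z‖ * ‖Complex.exp (w * V + w ^ 2)‖ / ‖w‖
      ≤ 2 * 1 * (C * (1 + |t + w.im|) ^ (-w.re)) *
        (2 * (Real.exp (w.re * V) * Real.exp (-w.im ^ 2))) / ε := by gcongr
    _ = _ := by ring

/-- splitting of the zeta series -/
theorem zeta_split {z : ℂ} (hz : 1 < z.re) (M : ℕ) :
    riemannZeta z = ∑ m ∈ Icc 1 M, (m : ℂ) ^ (-z) + ∑' m : ℕ, ((m : ℂ) + M + 1) ^ (-z) := by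
  have hs : Summable (fun n : ℕ => ((n : ℂ) + 1) ^ (-z)) := by
    refine Summable.of_norm ?_
    have h1 := summable_rpow_aux (r := -z.re) (by linarith)
    refine h1.congr fun n => ?_
    have h2 : ((n : ℂ) + 1) = (((n : ℝ) + 1 : ℝ) : ℂ) := by push_cast; ring
    rw [h2, Complex.norm_cpow_eq_rpow_re_of_pos (by positivity), Complex.neg_re]
  rw [zeta_eq_tsum_one_div_nat_add_one_cpow hz]
  have h1 : ∀ n : ℕ, 1 / ((n : ℂ) + 1) ^ z = ((n : ℂ) + 1) ^ (-z) := by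
    intro n
    rw [one_div, Complex.cpow_neg]
  simp_rw [h1]
  rw [← hs.sum_add_tsum_nat_add M]
  congr 1
  · have h2 : Icc 1 M = Ico (0 + 1) (M + 1) := by
      ext x; simp only [Finset.mem_Icc, Finset.mem_Ico]; omega
    rw [h2, ← Finset.sum_Ico_add' (fun m : ℕ => (m : ℂ) ^ (-z)) 0 M 1, Finset.range_eq_Ico]
    apply Finset.sum_congr rfl
    intro m _
    push_cast
    rfl
  · apply tsum_congr
    intro m
    push_cast
    rfl

theorem lin_exp_bound (R y : ℝ) (hR : 1 ≤ R) :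
    (R + |y|) * Real.exp (-y ^ 2 / 2) ≤ 64 * (R ^ 2 + 1) * (1 + y ^ 2)⁻¹ := by
  refine le_trans ?_ (exp_bound_aux' R y)
  have h1 : 1 ≤ R + |y| := by linarith [abs_nonneg y]
  have h2 : R + |y| ≤ (R + |y|) ^ 2 := by nlinarith
  have h3 : Real.exp (-y ^ 2 / 2) ≤ Real.exp (-(y ^ 2 / 4)) := by
    apply Real.exp_le_exp.mpr
    nlinarith [sq_nonneg y]
  gcongr

theorem rpow_lin {ε t v : ℝ} (hε : 0 ≤ ε) (hε1 : ε ≤ 1) : (1 + |t + v|) ^ ε ≤ 1 + |t| + |v| := by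
  calc (1 + |t + v|) ^ ε ≤ (1 + |t + v|) ^ (1 : ℝ) :=
        Real.rpow_le_rpow_of_exponent_le (by linarith [abs_nonneg (t + v)]) hε1
    _ = 1 + |t + v| := Real.rpow_one _
    _ ≤ _ := by linarith [abs_add_le t v]

/-- integrability of the majorants -/
theorem major_int {ε t B : ℝ} (hε : 0 ≤ ε) (hε1 : ε ≤ 1) {P : ℝ → ℂ} (hP : Continuous P)
    (hB : ∀ v, ‖P v‖ ≤ B) :
    Integrable (fun v : ℝ => (1 + |t + v|) ^ ε * ‖P v‖ * Real.exp (-v ^ 2 / 2)) := by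
  have hB0 : 0 ≤ B := (norm_nonneg _).trans (hB 0)
  refine (integrable_inv_one_add_sq.const_mul (B * (64 * ((1 + |t|) ^ 2 + 1)))).mono' ?_
    (Eventually.of_forall fun v => ?_)
  · refine Continuous.aestronglyMeasurable ?_
    refine Continuous.mul (Continuous.mul ?_ hP.norm) (by fun_prop)
    exact Continuous.rpow_const (by fun_prop) (fun v => Or.inr hε)
  · rw [Real.norm_of_nonneg (by positivity)]
    have h1 := rpow_lin (t := t) (v := v) hε hε1
    have h2 := lin_exp_bound (1 + |t|) v (by linarith [abs_nonneg t])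
    calc (1 + |t + v|) ^ ε * ‖P v‖ * Real.exp (-v ^ 2 / 2)
        ≤ (1 + |t| + |v|) * B * Real.exp (-v ^ 2 / 2) := by
          gcongr
          exact hB v
      _ = B * ((1 + |t| + |v|) * Real.exp (-v ^ 2 / 2)) := by ring
      _ ≤ B * (64 * ((1 + |t|) ^ 2 + 1) * (1 + v ^ 2)⁻¹) := by gcongr
      _ = _ := by ring

/-- a bounded continuous factor against `Af` on a line -/
theorem Af_line {C : ℝ} (hC : 0 < C)
    (hC1 : ∀ σ t : ℝ, 1 / 2 ≤ σ → σ ≤ 3 / 2 →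
      ‖FF ((σ : ℂ) + t * Complex.I)‖ ≤ C * (1 + |t|) ^ (σ - 1 / 2))
    {ε t V η : ℝ} (hε : 0 < ε) (h1 : ε ≤ η) (h2 : η ≤ 3 / 4) (v : ℝ) :
    ‖Af (1 / 2 + (t : ℂ) * Complex.I) V (((-η : ℝ) : ℂ) + v * Complex.I)‖ ≤
      4 * C / ε * Real.exp (-η * V) * ((1 + |t + v|) ^ η * Real.exp (-v ^ 2 / 2)) := by
  have h := Af_norm hC hC1 (t := t) (V := V) hε (w := ((-η : ℝ) : ℂ) + v * Complex.I)
    (by rw [line_re]; linarith) (by rw [line_re]; linarith)
  rw [line_re, line_im, neg_neg] at h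
  refine h.trans ?_
  have h3 : Real.exp (-v ^ 2) ≤ Real.exp (-v ^ 2 / 2) := by
    apply Real.exp_le_exp.mpr
    nlinarith [sq_nonneg v]
  calc 4 * C / ε * (1 + |t + v|) ^ η * Real.exp (-η * V) * Real.exp (-v ^ 2)
      ≤ 4 * C / ε * (1 + |t + v|) ^ η * Real.exp (-η * V) * Real.exp (-v ^ 2 / 2) := by gcongr
    _ = _ := by ring

theorem Af_cont {t V η : ℝ} (hη : 0 < η) :
    Continuous (fun v : ℝ => Af (1 / 2 + (t : ℂ) * Complex.I) V (((-η : ℝ) : ℂ) + v * Complex.I)) := by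
  rw [continuous_iff_continuousAt]
  intro v
  refine ContinuousAt.comp (f := fun v : ℝ => ((-η : ℝ) : ℂ) + v * Complex.I)
    (Af_diff (by simp) (by rw [line_re]; linarith)).continuousAt (by fun_prop)

theorem mul_bound {C : ℝ} (hC : 0 < C)
    (hC1 : ∀ σ t : ℝ, 1 / 2 ≤ σ → σ ≤ 3 / 2 →
      ‖FF ((σ : ℂ) + t * Complex.I)‖ ≤ C * (1 + |t|) ^ (σ - 1 / 2))
    {ε t V η B : ℝ} (hε : 0 < ε) (h1 : ε ≤ η) (h2 : η ≤ 3 / 4) {P : ℝ → ℂ} (hP : Continuous P)
    (hB : ∀ v, ‖P v‖ ≤ B) :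
    Integrable (fun v : ℝ => Af (1 / 2 + (t : ℂ) * Complex.I) V (((-η : ℝ) : ℂ) + v * Complex.I) * P v) ∧
    ‖∫ v : ℝ, Af (1 / 2 + (t : ℂ) * Complex.I) V (((-η : ℝ) : ℂ) + v * Complex.I) * P v‖ ≤
      4 * C / ε * Real.exp (-η * V) *
        ∫ v : ℝ, (1 + |t + v|) ^ η * ‖P v‖ * Real.exp (-v ^ 2 / 2) := by
  have hm := major_int (t := t) (ε := η) (by linarith) (by linarith) hP hB
  have hb : ∀ v : ℝ, ‖Af (1 / 2 + (t : ℂ) * Complex.I) V (((-η : ℝ) : ℂ) + v * Complex.I) * P v‖ ≤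
      4 * C / ε * Real.exp (-η * V) * ((1 + |t + v|) ^ η * ‖P v‖ * Real.exp (-v ^ 2 / 2)) := by
    intro v
    rw [norm_mul]
    have h3 := mul_le_mul_of_nonneg_right (Af_line hC hC1 (t := t) (V := V) hε h1 h2 v) (norm_nonneg (P v))
    refine h3.trans (le_of_eq ?_)
    ring
  constructor
  · refine (hm.const_mul (4 * C / ε * Real.exp (-η * V))).mono' ?_ (Eventually.of_forall hb)
    exact ((Af_cont (by linarith)).mul hP).aestronglyMeasurable
  · rw [← integral_const_mul]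
    exact norm_integral_le_of_norm_le (hm.const_mul _) (Eventually.of_forall hb)

theorem afe (hff : FMff) : FMafe := by
  intro ε hε hε4
  obtain ⟨C, hC, hC1⟩ := id hff
  refine ⟨4 * C / ε + 400, by positivity, ?_⟩
  intro N M t hN hM
  have hN0 : 0 < N := by linarith
  set V : ℝ := Real.log N with hV
  have hV0 : 0 ≤ V := Real.log_nonneg hN
  set s : ℂ := 1 / 2 + (t : ℂ) * Complex.I with hs
  have hsre : s.re = 1 / 2 := by simp [hs]
  have key := two_lines hff t V hV0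
  rw [← hs] at key
  -- right line
  have hright : ∫ v : ℝ, Ig s V (((2 : ℝ) : ℂ) + v * Complex.I) = 2 * Real.pi * S1 N t := by
    have h1 := (inner_mellin (ρ := s) (by rw [hsre]; norm_num) V).2
    unfold S1 Ig
    rw [← hs, ← hV, ← h1]
    apply integral_congr_ae
    refine Eventually.of_forall fun v => ?_
    simp only
    ring
  -- the polynomial and the tail
  set Pz : ℂ → ℂ := fun w => ∑ m ∈ Icc 1 M, (m : ℂ) ^ (-(1 - s - w)) with hPz
  have hPzd : Differentiable ℂ Pz := by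
    rw [hPz]
    apply Differentiable.fun_sum
    intro m hm
    have h1 : (m : ℂ) ≠ 0 := by
      have := (Finset.mem_Icc.mp hm).1
      exact_mod_cast (by omega : m ≠ 0)
    exact Differentiable.const_cpow (by fun_prop) (Or.inl h1)
  have hPzn : ∀ w : ℂ, w.re ≤ 1 / 2 → ‖Pz w‖ ≤ M := by
    intro w hw
    simp only [hPz]
    refine (norm_sum_le _ _).trans ?_
    have h1 : ∀ m ∈ Icc 1 M, ‖(m : ℂ) ^ (-(1 - s - w))‖ ≤ 1 := by
      intro m hm
      apply norm_natCast_cpow_neg_le (Finset.mem_Icc.mp hm).1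
      simp [hsre]
      linarith
    refine (Finset.sum_le_card_nsmul _ _ _ h1).trans ?_
    simp
  set Tz : ℝ → ℂ := fun v => ∑' m : ℕ, ((m : ℂ) + M + 1) ^ ((-(5 / 4) : ℂ) + ((t + v : ℝ) : ℂ) * Complex.I)
    with hTz
  have hexp : ∀ v : ℝ, -(1 - s - (((-(3 / 4) : ℝ) : ℂ) + v * Complex.I)) =
      (-(5 / 4) : ℂ) + ((t + v : ℝ) : ℂ) * Complex.I := by
    intro v
    rw [hs]; push_cast; ring
  have hzre : ∀ v : ℝ, (1 - s - (((-(3 / 4) : ℝ) : ℂ) + v * Complex.I)).re = 5 / 4 := by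
    intro v
    rw [Complex.sub_re, Complex.sub_re, line_re, hsre, Complex.one_re]; norm_num
  have hsplit : ∀ v : ℝ, riemannZeta (1 - s - (((-(3 / 4) : ℝ) : ℂ) + v * Complex.I)) =
      Pz (((-(3 / 4) : ℝ) : ℂ) + v * Complex.I) + Tz v := by
    intro v
    rw [zeta_split (by rw [hzre]; norm_num) M]
    simp only [hPz, hTz]
    rw [← hexp v]
  have hne1 : ∀ v : ℝ, 1 - s - (((-(3 / 4) : ℝ) : ℂ) + v * Complex.I) ≠ 1 := by
    intro v h
    have := congrArg Complex.re h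
    rw [hzre, Complex.one_re] at this
    norm_num at this
  have hTzc : Continuous Tz := by
    have h1 : Tz = fun v : ℝ => riemannZeta (1 - s - (((-(3 / 4) : ℝ) : ℂ) + v * Complex.I)) -
        Pz (((-(3 / 4) : ℝ) : ℂ) + v * Complex.I) := by
      funext v; rw [hsplit v]; ring
    rw [h1]
    refine Continuous.sub ?_ (hPzd.continuous.comp (by fun_prop))
    rw [continuous_iff_continuousAt]
    intro v
    exact ContinuousAt.comp (f := fun v : ℝ => 1 - s - (((-(3 / 4) : ℝ) : ℂ) + v * Complex.I))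
      (differentiableAt_riemannZeta (hne1 v)).continuousAt (by fun_prop)
  have hTzb : ∃ B : ℝ, ∀ v, ‖Tz v‖ ≤ B := by
    refine ⟨∑' m : ℕ, ((m : ℝ) + 1) ^ (-(5 / 4) : ℝ), fun v => ?_⟩
    simp only [hTz]
    refine tsum_of_norm_bounded (summable_rpow_aux (r := -(5 / 4)) (by norm_num)).hasSum fun m => ?_
    have h2 : ((m : ℂ) + M + 1) = (((m : ℝ) + M + 1 : ℝ) : ℂ) := by push_cast; ring
    have hp : (0 : ℝ) < (m : ℝ) + M + 1 := by positivity
    rw [h2, Complex.norm_cpow_eq_rpow_re_of_pos hp]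
    have h3 : ((-(5 / 4) : ℂ) + ((t + v : ℝ) : ℂ) * Complex.I).re = -(5 / 4) := by
      have : (-(5 / 4) : ℂ) = ((-(5 / 4) : ℝ) : ℂ) := by push_cast; ring
      rw [this, line_re]
    rw [h3]
    apply Real.rpow_le_rpow_of_nonpos (by positivity) _ (by norm_num)
    have : (0 : ℝ) ≤ M := Nat.cast_nonneg M
    linarith
  obtain ⟨B, hB⟩ := hTzb
  have hleft1 : ∀ v : ℝ, Ig s V (((-(3 / 4) : ℝ) : ℂ) + v * Complex.I) =
      Af s V (((-(3 / 4) : ℝ) : ℂ) + v * Complex.I) * Pz (((-(3 / 4) : ℝ) : ℂ) + v * Complex.I) +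
      Af s V (((-(3 / 4) : ℝ) : ℂ) + v * Complex.I) * Tz v := by
    intro v
    rw [← mul_add, ← hsplit v]
    set w : ℂ := ((-(3 / 4) : ℝ) : ℂ) + v * Complex.I with hw
    have h1 : s + w = 1 - (1 - s - w) := by ring
    unfold Ig Af
    rw [h1, feq (by rw [hw, hzre]; norm_num) (by rw [hw]; exact hne1 v)]
    ring
  have hPline : ∀ η : ℝ, 0 < η → Continuous (fun v : ℝ => Pz (((-η : ℝ) : ℂ) + v * Complex.I)) :=
    fun η _ => hPzd.continuous.comp (by fun_prop)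
  have hPlb : ∀ η : ℝ, 0 < η → ∀ v : ℝ, ‖Pz (((-η : ℝ) : ℂ) + v * Complex.I)‖ ≤ M := by
    intro η hη v
    apply hPzn
    rw [line_re]; linarith
  have m1 := mul_bound hC hC1 (t := t) (V := V) hε (η := 3 / 4) (by linarith) le_rfl
    (hPline (3 / 4) (by norm_num)) (hPlb (3 / 4) (by norm_num))
  have m2 := mul_bound hC hC1 (t := t) (V := V) hε (η := 3 / 4) (by linarith) le_rfl hTzc hB
  have m3 := mul_bound hC hC1 (t := t) (V := V) hε (η := ε) le_rfl (by linarith)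
    (hPline ε hε) (hPlb ε hε)
  rw [← hs] at m1 m2 m3
  have hshift : ∫ v : ℝ, Af s V (((-ε : ℝ) : ℂ) + v * Complex.I) * Pz (((-ε : ℝ) : ℂ) + v * Complex.I) =
      ∫ v : ℝ, Af s V (((-(3 / 4) : ℝ) : ℂ) + v * Complex.I) *
        Pz (((-(3 / 4) : ℝ) : ℂ) + v * Complex.I) := by
    refine shift_on (L := fun w => Af s V w * Pz w) (a := -(3 / 4)) (b := -ε)
      (A := 4 * C / ε * M * (64 * ((1 + |t|) ^ 2 + 1))) (H := 0) (by linarith) ?_ ?_
    · intro w h1 h2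
      exact (Af_diff hsre (by linarith)).mul hPzd.differentiableAt
    · intro w h1 h2 _
      rw [norm_mul]
      have h3 := Af_norm hC hC1 (t := t) (V := V) hε (w := w) h2 h1
      rw [← hs] at h3
      have h4 := hPzn w (by linarith)
      have h5 : Real.exp (w.re * V) ≤ 1 := by
        rw [Real.exp_le_one_iff]
        exact mul_nonpos_of_nonpos_of_nonneg (by linarith) hV0
      have h6 := rpow_lin (t := t) (v := w.im) (ε := -w.re) (by linarith) (by linarith)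
      have h7 := lin_exp_bound (1 + |t|) w.im (by linarith [abs_nonneg t])
      have h8 : Real.exp (-w.im ^ 2) ≤ Real.exp (-w.im ^ 2 / 2) := by
        apply Real.exp_le_exp.mpr
        nlinarith [sq_nonneg w.im]
      have h9 : (0 : ℝ) ≤ M := Nat.cast_nonneg M
      calc ‖Af s V w‖ * ‖Pz w‖
          ≤ (4 * C / ε * (1 + |t + w.im|) ^ (-w.re) * Real.exp (w.re * V) * Real.exp (-w.im ^ 2)) * M := by
            gcongr
        _ ≤ (4 * C / ε * (1 + |t| + |w.im|) * 1 * Real.exp (-w.im ^ 2 / 2)) * M := by gcongr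
        _ = 4 * C / ε * M * ((1 + |t| + |w.im|) * Real.exp (-w.im ^ 2 / 2)) := by ring
        _ ≤ 4 * C / ε * M * (64 * ((1 + |t|) ^ 2 + 1) * (1 + w.im ^ 2)⁻¹) := by gcongr
        _ = _ := by ring
  have hleft : ∫ v : ℝ, Ig s V (((-(3 / 4) : ℝ) : ℂ) + v * Complex.I) =
      (∫ v : ℝ, Af s V (((-ε : ℝ) : ℂ) + v * Complex.I) * Pz (((-ε : ℝ) : ℂ) + v * Complex.I)) +
      ∫ v : ℝ, Af s V (((-(3 / 4) : ℝ) : ℂ) + v * Complex.I) * Tz v := by
    rw [hshift]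
    simp_rw [hleft1]
    exact integral_add m1.1 m2.1
  rw [hright, hleft] at key
  have hpi := Real.pi_pos
  have hpi3 := Real.pi_gt_three
  have hS1 : ‖2 * (Real.pi : ℂ) * S1 N t‖ = 2 * Real.pi * ‖S1 N t‖ := by
    rw [norm_mul, norm_mul, Complex.norm_real, Complex.norm_ofNat, Real.norm_of_nonneg hpi.le]
  rw [hS1] at key
  have hNε : Real.exp (-ε * V) = N ^ (-ε) := by
    rw [Real.rpow_def_of_pos hN0, ← hV]; ring_nf
  have hN34 : Real.exp (-(3 / 4) * V) = N ^ (-(3 / 4) : ℝ) := by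
    rw [Real.rpow_def_of_pos hN0, ← hV]; ring_nf
  have hsq : Real.exp (V / 2 - t ^ 2) = Real.sqrt N * Real.exp (-t ^ 2) := by
    rw [sub_eq_add_neg, Real.exp_add, Real.sqrt_eq_rpow, Real.rpow_def_of_pos hN0, ← hV]
    congr 2
    ring
  rw [hNε] at m3
  rw [hN34] at m2
  rw [hsq] at key
  have hint1 : ∀ v : ℝ, Pz (((-ε : ℝ) : ℂ) + v * Complex.I) =
      ∑ m ∈ Icc 1 M, (m : ℂ) ^ ((-(1 / 2 + ε : ℝ) : ℂ) + ((t + v : ℝ) : ℂ) * Complex.I) := by
    intro v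
    simp only [hPz]
    apply Finset.sum_congr rfl
    intro m _
    congr 1
    rw [hs]; push_cast; ring
  simp_rw [hint1] at m3
  set A1 : ℝ := ∫ v : ℝ, (1 + |t + v|) ^ ε * ‖∑ m ∈ Icc 1 M, (m : ℂ) ^ ((-(1 / 2 + ε : ℝ) : ℂ) +
      ((t + v : ℝ) : ℂ) * Complex.I)‖ * Real.exp (-v ^ 2 / 2) with hA1
  set A2 : ℝ := ∫ v : ℝ, (1 + |t + v|) ^ (3 / 4 : ℝ) * ‖Tz v‖ * Real.exp (-v ^ 2 / 2) with hA2
  have hA10 : 0 ≤ A1 := integral_nonneg fun v => by positivity
  have hA20 : 0 ≤ A2 := integral_nonneg fun v => by positivity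
  have hE0 : 0 ≤ Real.sqrt N * Real.exp (-t ^ 2) := by positivity
  have hNe0 : 0 ≤ N ^ (-ε) := by positivity
  have hN340 : (0 : ℝ) ≤ N ^ (-(3 / 4) : ℝ) := by positivity
  have h3 := m3.2
  have h2 := m2.2
  simp_rw [← hint1] at h3
  have h4 := norm_add_le (∫ v : ℝ, Af s V (((-ε : ℝ) : ℂ) + v * Complex.I) *
    Pz (((-ε : ℝ) : ℂ) + v * Complex.I)) (∫ v : ℝ, Af s V (((-(3 / 4) : ℝ) : ℂ) + v * Complex.I) * Tz v)
  have hK : 0 ≤ 4 * C / ε := by positivity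
  have h3' : ‖∫ v : ℝ, Af s V (((-ε : ℝ) : ℂ) + v * Complex.I) *
    Pz (((-ε : ℝ) : ℂ) + v * Complex.I)‖ ≤ 4 * C / ε * N ^ (-ε) * A1 := by
    refine h3.trans (le_of_eq ?_)
    rw [hA1]
  set X0 : ℝ := ‖riemannZeta s‖ with hX0
  have hfin : 2 * Real.pi * X0 ≤ 2 * Real.pi * (‖S1 N t‖ +
      (4 * C / ε + 400) * Real.sqrt N * Real.exp (-t ^ 2) +
      (4 * C / ε + 400) * N ^ (-ε) * A1 + (4 * C / ε + 400) * N ^ (-(3 / 4) : ℝ) * A2) := by
    have b1 : 0 ≤ N ^ (-ε) * A1 := mul_nonneg hNe0 hA10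
    have b2 : 0 ≤ N ^ (-(3 / 4) : ℝ) * A2 := mul_nonneg hN340 hA20
    have b3 : 4 * C / ε * (N ^ (-ε) * A1) ≤ 2 * Real.pi * ((4 * C / ε + 400) * (N ^ (-ε) * A1)) := by
      have : 0 ≤ 4 * C / ε * (N ^ (-ε) * A1) := mul_nonneg hK b1
      nlinarith
    have b4 : 4 * C / ε * (N ^ (-(3 / 4) : ℝ) * A2) ≤
        2 * Real.pi * ((4 * C / ε + 400) * (N ^ (-(3 / 4) : ℝ) * A2)) := by
      have : 0 ≤ 4 * C / ε * (N ^ (-(3 / 4) : ℝ) * A2) := mul_nonneg hK b2
      nlinarith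
    have b5 : 2400 * (Real.sqrt N * Real.exp (-t ^ 2)) ≤
        2 * Real.pi * ((4 * C / ε + 400) * (Real.sqrt N * Real.exp (-t ^ 2))) := by
      have : 0 ≤ 4 * C / ε * (Real.sqrt N * Real.exp (-t ^ 2)) := mul_nonneg hK hE0
      nlinarith
    nlinarith
  exact le_of_mul_le_mul_left hfin (by positivity)

end Pool.Agent.Helper26.KC
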