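import Pool.Agent.Helper26.KC.D5
import Pool.Agent.Helper1.KSZ.LineA7
import Pool.Agent.Helper60.KS.StG

/-!
# Project KS: fourth moment of zeta on the critical line (statements of the modules FM-1 ... FM-6)

Proof on paper. `s = 1/2 + it`, `N = M = T^(1/2)`, `K(w) = e^(w^2)/w` (Mellin transform of `Phi`), all `t` at once
with the weight `e^(-(t/T)^2)`.

* `(1/2πi) ∫_{Re w = 2} ζ(s+w) N^w K(w) dw = S1 N t = ∑ n^(-s) Phi(log N - log n)`.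
* shift to `Re w = -3/4`: residue `ζ(s)` at `w = 0`, residue `N^(1-s) e^((1-s)^2)/(1-s)` at `w = 1-s`
  (at most `4 N^(1/2) e^(-t^2)`).
* functional equation `ζ(s+w) = 2 (2π)^(s+w-1) FF(1-s-w) ζ(1-s-w)`, `FF(s) = Γ(s) cos(πs/2)`, and
  `ζ(5/4-iu) = ∑_{m ≤ M} + ∑_{m > M}`; the first part is shifted to `Re w = -ε` (no pole in between).
* `|FF(σ+it)| ≤ C (1+|t|)^(σ-1/2)` (FM-1), mean value theorem for the squares of the polynomials (FM-2, FM-3).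
-/

set_option autoImplicit false
open MeasureTheory Filter Topology Finset

namespace Pool.Agent.Helper26.KC

open Pool.Agent.Helper1.KSZ (FF)

/-- FM-1. `Pool.Agent.Helper1.KSZ.norm_FF_line` is the case `σ = 5/7` (Phragmén–Lindelöf on `[1/2,1]`); here use the
strip `[1/2, 3/2]`, `|FF(3/2+iy)| = |1/2+iy| |FF(1/2+iy)|` (`Γ(s+1) = sΓ(s)`, `|sin(π/4+iy')| = |cos(π/4+iy')|`),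
and `G(s) = FF(s) (1+|t|)^(-(s-1/2)) / (s - it + 1)`. -/
def FMff : Prop := ∃ C : ℝ, 0 < C ∧ ∀ σ t : ℝ, 1 / 2 ≤ σ → σ ≤ 3 / 2 →
  ‖FF ((σ : ℂ) + t * Complex.I)‖ ≤ C * (1 + |t|) ^ (σ - 1 / 2)

/-- FM-2 (from `Pool.Agent.Helper60.KS.MeanValue` with `y_n = log n`: `|log n - log k| ≤ 1/T` holds for at most
`1 + 8 n/T` numbers `k` with `k ≤ 3n`, and `|c_n c_k| ≤ (|c_n|^2+|c_k|^2)/2`) -/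
def FMmv2 : Prop := ∃ C : ℝ, 0 < C ∧ ∀ (L : ℕ) (c : ℕ → ℂ) (T : ℝ), 1 ≤ T →
  ∫ t : ℝ, Real.exp (-(t / T) ^ 2) * ‖∑ n ∈ Icc 1 L, c n * (n : ℂ) ^ ((t : ℂ) * Complex.I)‖ ^ 2 ≤
    C * ∑ n ∈ Icc 1 L, (T + n) * ‖c n‖ ^ 2

/-- FM-3a (square of the polynomial, divisor bound) -/
def FMmv4a : Prop := ∀ ε : ℝ, 0 < ε → ∃ C : ℝ, 0 < C ∧ ∀ (L : ℕ) (a : ℕ → ℂ) (T : ℝ), 1 ≤ T → 1 ≤ L →
  (∀ n : ℕ, 1 ≤ n → ‖a n‖ ≤ (n : ℝ) ^ (-(1 / 2) : ℝ)) →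
  ∫ t : ℝ, Real.exp (-(t / T) ^ 2) * ‖∑ n ∈ Icc 1 L, a n * (n : ℂ) ^ ((t : ℂ) * Complex.I)‖ ^ 4 ≤
    C * (T * L) ^ ε * (T + (L : ℝ) ^ 2)

/-- FM-3b -/
def FMmv4b : Prop := ∀ ε : ℝ, 0 < ε → ∃ C : ℝ, 0 < C ∧ ∀ (M L : ℕ) (a : ℕ → ℂ) (T : ℝ), 1 ≤ T → 1 ≤ M → M ≤ L →
  (∀ n : ℕ, 1 ≤ n → ‖a n‖ ≤ (n : ℝ) ^ (-(5 / 4) : ℝ)) →
  ∫ t : ℝ, Real.exp (-(t / T) ^ 2) * ‖∑ n ∈ Ioc M L, a n * (n : ℂ) ^ ((t : ℂ) * Complex.I)‖ ^ 4 ≤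
    C * (T * L) ^ ε * (T / (M : ℝ) ^ 3 + 1 / (M : ℝ))

/-- the smoothed Dirichlet polynomial (`In (1/2 + it) (log N) 1` of D3) -/
noncomputable def S1 (N t : ℝ) : ℂ := ∑' m : ℕ, ((m : ℂ) + 1) ^ (-(1 / 2 + (t : ℂ) * Complex.I)) *
  (Phi (Real.log N - Real.log ((m : ℝ) + 1)) : ℂ)

/-- FM-4 (helper26) -/
def FMafe : Prop := ∀ ε : ℝ, 0 < ε → ε ≤ 1 / 4 → ∃ C : ℝ, 0 < C ∧ ∀ (N : ℝ) (M : ℕ) (t : ℝ), 1 ≤ N → 1 ≤ M →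
  ‖riemannZeta (1 / 2 + (t : ℂ) * Complex.I)‖ ≤ ‖S1 N t‖ + C * Real.sqrt N * Real.exp (-t ^ 2) +
    C * N ^ (-ε) * (∫ v : ℝ, (1 + |t + v|) ^ ε * ‖∑ m ∈ Icc 1 M, (m : ℂ) ^ ((-(1 / 2 + ε : ℝ) : ℂ) +
      ((t + v : ℝ) : ℂ) * Complex.I)‖ * Real.exp (-v ^ 2 / 2)) +
    C * N ^ (-(3 / 4) : ℝ) * (∫ v : ℝ, (1 + |t + v|) ^ (3 / 4 : ℝ) *
      ‖∑' m : ℕ, ((m : ℂ) + M + 1) ^ ((-(5 / 4) : ℂ) + ((t + v : ℝ) : ℂ) * Complex.I)‖ * Real.exp (-v ^ 2 / 2))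

/-- FM-5: the fourth moment, from the previous ones (`N = √T`, `M = ⌈√T⌉`) -/
def FourthMoment : Prop := ∀ ε : ℝ, 0 < ε → ∃ C : ℝ, 0 < C ∧ ∀ T : ℝ, 1 ≤ T →
  ∫ t : ℝ, Real.exp (-(t / T) ^ 2) * ‖riemannZeta (1 / 2 + (t : ℂ) * Complex.I)‖ ^ 4 ≤ C * T ^ (1 + ε)

open Pool.Agent.Helper60.KS (DP Spaced1) in
/-- FM-6 (helper26): detection at the length `T^(1/2)`, with few exceptions (class II zeros) -/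
def DetectFM : Prop := ∀ τ δ d : ℝ, 1 / 10 ≤ τ → τ ≤ 1 → 0 < δ → δ ≤ 1 / 1000 → 0 < d → d ≤ δ →
  ∃ X0 : ℝ, ∀ X x : ℝ, X0 ≤ X → 0 < x → x ≤ 0.4 + δ → ∃ g : ℕ → ℂ, (∀ n, ‖g n‖ ≤ (n.divisors.card : ℝ)) ∧
  ∀ Z : Finset ℂ, Spaced1 Z → (∀ ρ ∈ Z, riemannZeta ρ = 0 ∧ 1 - x ≤ ρ.re ∧ Real.log X ^ 2 ≤ |ρ.im| ∧
    |ρ.im| ≤ X ^ (τ + 2 * d) + 1 ∧ ¬ ∃ i : ℕ, X ^ δ / 2 ≤ (2 : ℝ) ^ i ∧ (2 : ℝ) ^ i ≤ X ^ (τ / 2 + 45 * δ) ∧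
      1 / (16 * Real.log X) ≤ ‖DP g (2 ^ i) 2 ρ‖) →
  (Z.card : ℝ) ≤ X ^ (2 * x * τ + 60 * δ)

end Pool.Agent.Helper26.KC
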