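import Pool.Agent.Helper26.KC.F8
import Pool.Agent.Helper26.KC.F10
import Pool.Agent.Helper52.KC.FMall
import Pool.Agent.Helper60.KC.Final
import Pool.Agent.Helper60.KC.DetectG

/-! Huxley's density theorem, unconditional. -/

set_option autoImplicit false

namespace Pool.Agent.Helper26.KC

theorem detect_fm45 : DetectFM45 := detectFM45 Pool.Agent.Helper52.KC.fourth_moment

/-- Huxley's density theorem for spaced zeros -/
theorem huxleyS : DensS := densS Pool.Agent.Helper60.KC.mvCount Pool.Agent.Helper60.KC.huxleyCount
  Pool.Agent.Helper91.KC.powDP detect_fm45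

/-- Huxley's density theorem -/
theorem huxley : Dens := dens huxleyS Pool.Agent.Helper60.KC.inA9i Pool.Agent.Helper46.KC.splitSpaced

end Pool.Agent.Helper26.KC
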