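import Mathlib

/-!
# KC-10, part 1: Gaussian cut-off function and its Mellin transform
-/

set_option autoImplicit false
open MeasureTheory Filter Topology

namespace Pool.Agent.Helper26.KC

/-- Gaussian density (variance 2) -/
noncomputable def gd (z : ℝ) : ℝ := Real.exp (-(1 / 4) * z ^ 2) / (2 * Real.sqrt Real.pi)

/-- Gaussian distribution function -/
noncomputable def Phi (v : ℝ) : ℝ := ∫ y in Set.Ioi (0 : ℝ), gd (v - y)

theorem sqrt_pi_pos : 0 < Real.sqrt Real.pi := Real.sqrt_pos.mpr Real.pi_pos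

theorem one_le_two_sqrt_pi : 1 ≤ 2 * Real.sqrt Real.pi := by
  have h : 1 ≤ Real.sqrt Real.pi := by
    rw [Real.one_le_sqrt]
    linarith [Real.pi_gt_three]
  linarith

theorem gd_nonneg (z : ℝ) : 0 ≤ gd z := by
  unfold gd; positivity

theorem gd_continuous : Continuous gd := by
  unfold gd; fun_prop

theorem gd_integrable : Integrable gd := by
  unfold gd
  exact (integrable_exp_neg_mul_sq (b := 1 / 4) (by norm_num)).div_const _

theorem gd_sub_integrable (v : ℝ) : Integrable (fun y => gd (v - y)) :=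
  gd_integrable.comp_sub_left v

theorem gd_integral : ∫ z, gd z = 1 := by
  unfold gd
  rw [integral_div, integral_gaussian]
  have h : Real.sqrt (Real.pi / (1 / 4)) = 2 * Real.sqrt Real.pi := by
    rw [show Real.pi / (1 / 4) = 2 ^ 2 * Real.pi by ring, Real.sqrt_mul (by norm_num),
      Real.sqrt_sq (by norm_num)]
  rw [h]
  exact div_self (by have := sqrt_pi_pos; positivity)

theorem gd_sub_integral (v : ℝ) : ∫ y, gd (v - y) = 1 := by
  rw [integral_sub_left_eq_self (fun z => gd z) volume v, gd_integral]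

theorem Phi_nonneg (v : ℝ) : 0 ≤ Phi v :=
  setIntegral_nonneg measurableSet_Ioi fun _ _ => gd_nonneg _

theorem one_sub_Phi (v : ℝ) : 1 - Phi v = ∫ y in Set.Iic (0 : ℝ), gd (v - y) := by
  unfold Phi
  have h := integral_add_compl (s := Set.Ioi (0 : ℝ)) (μ := volume) measurableSet_Ioi
    (gd_sub_integrable v)
  rw [gd_sub_integral, Set.compl_Ioi] at h
  linarith

theorem Phi_le_one (v : ℝ) : Phi v ≤ 1 := by
  have h1 : 0 ≤ 1 - Phi v := by
    rw [one_sub_Phi]
    exact setIntegral_nonneg measurableSet_Iic fun _ _ => gd_nonneg _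
  linarith

theorem gd_le (K z : ℝ) : gd z ≤ Real.exp (K ^ 2 + K * z) := by
  unfold gd
  have h1 : Real.exp (-(1 / 4) * z ^ 2) / (2 * Real.sqrt Real.pi) ≤ Real.exp (-(1 / 4) * z ^ 2) := by
    exact div_le_self (Real.exp_pos _).le one_le_two_sqrt_pi
  refine h1.trans (Real.exp_le_exp.mpr ?_)
  nlinarith [sq_nonneg (K + z / 2)]

theorem Phi_le (K : ℝ) (hK : 1 ≤ K) (v : ℝ) : Phi v ≤ Real.exp (K ^ 2 + K * v) := by
  unfold Phi
  have h1 : IntegrableOn (fun y : ℝ => Real.exp (K ^ 2 + K * v) * Real.exp (-K * y)) (Set.Ioi 0) :=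
    (integrableOn_exp_mul_Ioi (by linarith) 0).const_mul _
  have h2 : ∫ y in Set.Ioi (0 : ℝ), gd (v - y) ≤
      ∫ y in Set.Ioi (0 : ℝ), Real.exp (K ^ 2 + K * v) * Real.exp (-K * y) := by
    apply setIntegral_mono_on (gd_sub_integrable v).integrableOn h1 measurableSet_Ioi
    intro y _
    refine (gd_le K (v - y)).trans (le_of_eq ?_)
    rw [← Real.exp_add]
    congr 1
    ring
  refine h2.trans ?_
  rw [integral_const_mul, integral_exp_mul_Ioi (by linarith)]
  have h3 : -Real.exp (-K * 0) / -K ≤ 1 := by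
    rw [mul_zero, Real.exp_zero, neg_div_neg_eq, div_le_one (by linarith)]
    exact hK
  have h4 := Real.exp_pos (K ^ 2 + K * v)
  nlinarith

theorem one_sub_Phi_le (K : ℝ) (hK : 1 ≤ K) (v : ℝ) : 1 - Phi v ≤ Real.exp (K ^ 2 - K * v) := by
  rw [one_sub_Phi]
  have h1 : IntegrableOn (fun y : ℝ => Real.exp (K ^ 2 - K * v) * Real.exp (K * y)) (Set.Iic 0) :=
    (integrableOn_exp_mul_Iic (by linarith) 0).const_mul _
  have h2 : ∫ y in Set.Iic (0 : ℝ), gd (v - y) ≤
      ∫ y in Set.Iic (0 : ℝ), Real.exp (K ^ 2 - K * v) * Real.exp (K * y) := by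
    apply setIntegral_mono_on (gd_sub_integrable v).integrableOn h1 measurableSet_Iic
    intro y _
    refine (gd_le (-K) (v - y)).trans (le_of_eq ?_)
    rw [← Real.exp_add]
    congr 1
    ring
  refine h2.trans ?_
  rw [integral_const_mul, integral_exp_mul_Iic (by linarith)]
  have h3 : Real.exp (K * 0) / K ≤ 1 := by
    rw [mul_zero, Real.exp_zero, div_le_one (by linarith)]
    exact hK
  have h4 := Real.exp_pos (K ^ 2 - K * v)
  nlinarith

/-- the Gaussian integral on a vertical line -/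
theorem gauss_line (c w : ℝ) :
    ∫ t : ℝ, Complex.exp (((c : ℂ) + t * Complex.I) * w + ((c : ℂ) + t * Complex.I) ^ 2) =
      2 * Real.pi * (gd w : ℂ) := by
  have h1 : ∀ t : ℝ, Complex.exp (((c : ℂ) + t * Complex.I) * w + ((c : ℂ) + t * Complex.I) ^ 2) =
      Complex.exp ((-1 : ℂ) * (t : ℂ) ^ 2 + (Complex.I * (2 * c + w)) * t + (c ^ 2 + c * w)) := by
    intro t
    congr 1
    ring_nf
    rw [Complex.I_sq]
    ring
  simp_rw [h1]
  rw [integral_cexp_quadratic (by simp)]
  have h2 : ((Real.pi : ℂ) / -(-1 : ℂ)) ^ (1 / 2 : ℂ) = (Real.sqrt Real.pi : ℂ) := by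
    rw [neg_neg, div_one, Real.sqrt_eq_rpow, Complex.ofReal_cpow Real.pi_pos.le]
    norm_num
  rw [h2]
  have h3 : (c : ℂ) ^ 2 + c * w - (Complex.I * (2 * c + w)) ^ 2 / (4 * (-1 : ℂ)) =
      ((-(1 / 4) * w ^ 2 : ℝ) : ℂ) := by
    rw [mul_pow, Complex.I_sq]
    push_cast
    ring
  rw [h3]
  unfold gd
  rw [← Complex.ofReal_exp]
  have h4 : (Real.pi : ℂ) = (Real.sqrt Real.pi : ℂ) * (Real.sqrt Real.pi : ℂ) := by
    rw [← Complex.ofReal_mul, Real.mul_self_sqrt Real.pi_pos.le]
  have h5 : (Real.sqrt Real.pi : ℂ) ≠ 0 := by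
    exact_mod_cast sqrt_pi_pos.ne'
  push_cast
  rw [show (2 : ℂ) * Real.pi = 2 * ((Real.sqrt Real.pi : ℂ) * (Real.sqrt Real.pi : ℂ)) by rw [← h4]]
  field_simp

theorem line_ne {c t : ℝ} (hc : 0 < c) : (c : ℂ) + t * Complex.I ≠ 0 := by
  intro h
  have := congrArg Complex.re h
  simp at this
  linarith

theorem norm_exp_line (c t w : ℝ) :
    ‖Complex.exp (((c : ℂ) + t * Complex.I) * w + ((c : ℂ) + t * Complex.I) ^ 2)‖ =
      Real.exp (c * w + c ^ 2) * Real.exp (-1 * t ^ 2) := by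
  rw [Complex.norm_exp, ← Real.exp_add]
  congr 1
  simp [pow_two]
  ring

/-- Mellin transform of the cut-off function -/
theorem mellin_Phi {c : ℝ} (hc : 0 < c) (v : ℝ) :
    ∫ t : ℝ, Complex.exp (((c : ℂ) + t * Complex.I) * v + ((c : ℂ) + t * Complex.I) ^ 2) /
      ((c : ℂ) + t * Complex.I) = 2 * Real.pi * (Phi v : ℂ) := by
  have h1 : ∀ t : ℝ, Complex.exp (((c : ℂ) + t * Complex.I) * v + ((c : ℂ) + t * Complex.I) ^ 2) /
      ((c : ℂ) + t * Complex.I) = ∫ y in Set.Ioi (0 : ℝ),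
        Complex.exp (((c : ℂ) + t * Complex.I) * ((v - y : ℝ) : ℂ) + ((c : ℂ) + t * Complex.I) ^ 2) := by
    intro t
    have h2 : ∀ y : ℝ, Complex.exp (((c : ℂ) + t * Complex.I) * ((v - y : ℝ) : ℂ) +
        ((c : ℂ) + t * Complex.I) ^ 2) =
        Complex.exp (((c : ℂ) + t * Complex.I) * v + ((c : ℂ) + t * Complex.I) ^ 2) *
        Complex.exp (-((c : ℂ) + t * Complex.I) * y) := by
      intro y
      rw [← Complex.exp_add]
      congr 1
      push_cast
      ring
    simp_rw [h2]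
    rw [integral_const_mul, integral_exp_mul_complex_Ioi (by simp [hc])]
    have h3 := line_ne (t := t) hc
    simp only [Complex.ofReal_zero, mul_zero, Complex.exp_zero]
    rw [neg_div_neg_eq, mul_one_div]
  simp_rw [h1]
  rw [integral_integral_swap]
  · have h2 : ∀ y : ℝ, ∫ t : ℝ, Complex.exp (((c : ℂ) + t * Complex.I) * ((v - y : ℝ) : ℂ) +
        ((c : ℂ) + t * Complex.I) ^ 2) = ((2 * Real.pi * gd (v - y) : ℝ) : ℂ) := by
      intro y
      rw [gauss_line]
      push_cast
      ring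
    simp_rw [h2]
    rw [integral_complex_ofReal, integral_const_mul]
    unfold Phi
    push_cast
    ring
  · have hcont : Continuous (Function.uncurry fun (t y : ℝ) =>
        Complex.exp (((c : ℂ) + t * Complex.I) * ((v - y : ℝ) : ℂ) + ((c : ℂ) + t * Complex.I) ^ 2)) := by
      unfold Function.uncurry
      fun_prop
    have h2 : Integrable (fun p : ℝ × ℝ => (Real.exp (c * v + c ^ 2) * Real.exp (-1 * p.1 ^ 2)) *
        Real.exp (-c * p.2)) (volume.prod (volume.restrict (Set.Ioi 0))) := by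
      apply Integrable.mul_prod (f := fun t : ℝ => Real.exp (c * v + c ^ 2) * Real.exp (-1 * t ^ 2))
        (g := fun y : ℝ => Real.exp (-c * y))
      · exact (integrable_exp_neg_mul_sq one_pos).const_mul _
      · exact integrableOn_exp_mul_Ioi (by linarith) 0
    refine h2.mono' hcont.aestronglyMeasurable (Eventually.of_forall ?_)
    rintro ⟨t, y⟩
    simp only [Function.uncurry]
    rw [norm_exp_line]
    apply le_of_eq
    rw [← Real.exp_add, ← Real.exp_add, ← Real.exp_add]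
    congr 1
    ring

end Pool.Agent.Helper26.KC
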