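import Pool.Agent.Helper26.KC.D1

/-!
# KC-10, part 2: shifting a vertical line of integration
-/

set_option autoImplicit false
open MeasureTheory Filter Topology

namespace Pool.Agent.Helper26.KC

theorem line_re (c t : ℝ) : ((c : ℂ) + t * Complex.I).re = c := by simp

theorem line_im (c t : ℝ) : ((c : ℂ) + t * Complex.I).im = t := by simp

theorem inv_one_add_sq_tendsto : Tendsto (fun T : ℝ => (1 + T ^ 2)⁻¹) atTop (𝓝 0) := by
  apply Tendsto.inv_tendsto_atTop
  exact tendsto_atTop_add_const_left _ _ (tendsto_pow_atTop (by norm_num))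

/-- a continuous function with decay for large imaginary part has decay in the whole strip -/
theorem uniform_decay {L : ℂ → ℂ} (hL : Continuous L) {a b A H : ℝ}
    (hA : ∀ s : ℂ, a ≤ s.re → s.re ≤ b → H ≤ |s.im| → ‖L s‖ ≤ A * (1 + s.im ^ 2)⁻¹) :
    ∃ A' : ℝ, 0 ≤ A' ∧ ∀ s : ℂ, a ≤ s.re → s.re ≤ b → ‖L s‖ ≤ A' * (1 + s.im ^ 2)⁻¹ := by
  have hcomp : IsCompact ((Set.Icc a b) ×ℂ (Set.Icc (-H) H)) :=
    (isCompact_Icc).reProdIm isCompact_Icc
  obtain ⟨B, hB⟩ := hcomp.exists_bound_of_continuousOn hL.continuousOn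
  refine ⟨max |A| (|B| * (1 + H ^ 2)), le_max_of_le_left (abs_nonneg _), ?_⟩
  intro s h1 h2
  have hp : (0 : ℝ) < 1 + s.im ^ 2 := by positivity
  have hp' : 0 ≤ (1 + s.im ^ 2)⁻¹ := by positivity
  rcases le_or_gt H |s.im| with h | h
  · refine (hA s h1 h2 h).trans ?_
    exact mul_le_mul_of_nonneg_right ((le_abs_self A).trans (le_max_left _ _)) hp'
  · have h3 : s ∈ (Set.Icc a b) ×ℂ (Set.Icc (-H) H) := by
      rw [Complex.mem_reProdIm]
      exact ⟨⟨h1, h2⟩, ⟨by linarith [neg_abs_le s.im], by linarith [le_abs_self s.im]⟩⟩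
    have h4 := (hB s h3).trans (le_abs_self B)
    have h5 : 1 + s.im ^ 2 ≤ 1 + H ^ 2 := by
      have : |s.im| ^ 2 ≤ H ^ 2 := pow_le_pow_left₀ (abs_nonneg _) h.le 2
      rw [sq_abs] at this
      linarith
    have h6 : 1 ≤ (1 + H ^ 2) * (1 + s.im ^ 2)⁻¹ := by
      rw [← div_eq_mul_inv, le_div_iff₀ hp]
      linarith
    calc ‖L s‖ ≤ |B| * 1 := by linarith
      _ ≤ |B| * ((1 + H ^ 2) * (1 + s.im ^ 2)⁻¹) := mul_le_mul_of_nonneg_left h6 (abs_nonneg _)
      _ = |B| * (1 + H ^ 2) * (1 + s.im ^ 2)⁻¹ := by ring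
      _ ≤ _ := mul_le_mul_of_nonneg_right (le_max_right _ _) hp'

theorem line_integrable {L : ℂ → ℂ} {a b A : ℝ} {c : ℝ}
    (hL : Continuous (fun t : ℝ => L ((c : ℂ) + t * Complex.I)))
    (hA : ∀ s : ℂ, a ≤ s.re → s.re ≤ b → ‖L s‖ ≤ A * (1 + s.im ^ 2)⁻¹) (h1 : a ≤ c)
    (h2 : c ≤ b) : Integrable (fun t : ℝ => L ((c : ℂ) + t * Complex.I)) := by
  refine (integrable_inv_one_add_sq.const_mul A).mono' hL.aestronglyMeasurable
    (Eventually.of_forall fun t => ?_)
  have := hA ((c : ℂ) + t * Complex.I) (by rw [line_re]; exact h1) (by rw [line_re]; exact h2)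
  rwa [line_im] at this

/-- contour shift -/
theorem shift {L : ℂ → ℂ} (hL : Differentiable ℂ L) {a b A H : ℝ} (hab : a ≤ b)
    (hA0 : ∀ s : ℂ, a ≤ s.re → s.re ≤ b → H ≤ |s.im| → ‖L s‖ ≤ A * (1 + s.im ^ 2)⁻¹) :
    ∫ t : ℝ, L ((b : ℂ) + t * Complex.I) = ∫ t : ℝ, L ((a : ℂ) + t * Complex.I) := by
  obtain ⟨A', hA', hA⟩ := uniform_decay hL.continuous hA0
  have hcont : ∀ c : ℝ, Continuous (fun t : ℝ => L ((c : ℂ) + t * Complex.I)) := fun c =>
    hL.continuous.comp (by fun_prop)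
  have hdec : Tendsto (fun T : ℝ => A' * (1 + T ^ 2)⁻¹ * |b - a|) atTop (𝓝 0) := by
    have := (inv_one_add_sq_tendsto.const_mul A').mul_const |b - a|
    simpa using this
  have hup : Tendsto (fun T : ℝ => ∫ x : ℝ in a..b, L (x + (T : ℝ) * Complex.I)) atTop (𝓝 0) := by
    refine squeeze_zero_norm (fun T => ?_) hdec
    refine intervalIntegral.norm_integral_le_of_norm_le_const fun x hx => ?_
    rw [Set.uIoc_of_le hab] at hx
    have := hA (x + T * Complex.I) (by rw [line_re]; exact hx.1.le) (by rw [line_re]; exact hx.2)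
    rwa [line_im] at this
  have hdown : Tendsto (fun T : ℝ => ∫ x : ℝ in a..b, L (x + ((-T : ℝ) : ℂ) * Complex.I)) atTop
      (𝓝 0) := by
    refine squeeze_zero_norm (fun T => ?_) hdec
    refine intervalIntegral.norm_integral_le_of_norm_le_const fun x hx => ?_
    rw [Set.uIoc_of_le hab] at hx
    have := hA (x + ((-T : ℝ) : ℂ) * Complex.I) (by rw [line_re]; exact hx.1.le)
      (by rw [line_re]; exact hx.2)
    rwa [line_im, neg_sq] at this
  have hv2 := intervalIntegral_tendsto_integral (line_integrable (hcont b) hA hab le_rfl)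
    tendsto_neg_atTop_atBot tendsto_id
  have hv1 := intervalIntegral_tendsto_integral (line_integrable (hcont a) hA le_rfl hab)
    tendsto_neg_atTop_atBot tendsto_id
  have hrect : ∀ T : ℝ, (∫ x : ℝ in a..b, L (x + ((-T : ℝ) : ℂ) * Complex.I)) -
      (∫ x : ℝ in a..b, L (x + (T : ℂ) * Complex.I)) +
      Complex.I * (∫ y : ℝ in (-T)..T, L (b + y * Complex.I)) -
      Complex.I * (∫ y : ℝ in (-T)..T, L (a + y * Complex.I)) = 0 := by
    intro T
    have := Complex.integral_boundary_rect_eq_zero_of_differentiableOn L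
      (a + ((-T : ℝ) : ℂ) * Complex.I) (b + (T : ℂ) * Complex.I) hL.differentiableOn
    simpa only [line_re, line_im, smul_eq_mul] using this
  have hlim := ((hdown.sub hup).add (hv2.const_mul Complex.I)).sub (hv1.const_mul Complex.I)
  simp only [id_eq] at hlim
  have hz : Tendsto (fun T : ℝ => (0 : ℂ)) atTop (𝓝 (0 - 0 + Complex.I *
      (∫ t : ℝ, L (b + t * Complex.I)) - Complex.I * ∫ t : ℝ, L (a + t * Complex.I))) := by
    refine hlim.congr fun T => ?_
    exact hrect T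
  have heq := tendsto_nhds_unique tendsto_const_nhds hz
  have hI := Complex.I_ne_zero
  have : Complex.I * (∫ t : ℝ, L (b + t * Complex.I)) =
      Complex.I * ∫ t : ℝ, L (a + t * Complex.I) := by
    linear_combination -heq
  exact mul_left_cancel₀ hI this

theorem exp_bound_aux (y : ℝ) : (1 + y ^ 2) ^ 2 * Real.exp (-(y ^ 2 / 4)) ≤ 32 := by
  have h1 : 0 ≤ y ^ 2 / 4 := by positivity
  have h2 := Real.quadratic_le_exp_of_nonneg h1
  rw [Real.exp_neg, ← div_eq_mul_inv, div_le_iff₀ (Real.exp_pos _)]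
  nlinarith

theorem exp_bound_aux' (R y : ℝ) :
    (R + |y|) ^ 2 * Real.exp (-(y ^ 2 / 4)) ≤ 64 * (R ^ 2 + 1) * (1 + y ^ 2)⁻¹ := by
  have h1 : (R + |y|) ^ 2 ≤ 2 * (R ^ 2 + 1) * (1 + y ^ 2) := by
    have := sq_abs y
    nlinarith [sq_nonneg (R - |y|), sq_nonneg (R * y)]
  have h2 := exp_bound_aux y
  have hp : (0 : ℝ) < 1 + y ^ 2 := by positivity
  have h3 := Real.exp_pos (-(y ^ 2 / 4))
  have h4 : 2 * (R ^ 2 + 1) * (1 + y ^ 2) * Real.exp (-(y ^ 2 / 4)) =
      2 * (R ^ 2 + 1) * ((1 + y ^ 2) ^ 2 * Real.exp (-(y ^ 2 / 4))) * (1 + y ^ 2)⁻¹ := by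
    field_simp
  calc (R + |y|) ^ 2 * Real.exp (-(y ^ 2 / 4))
      ≤ 2 * (R ^ 2 + 1) * (1 + y ^ 2) * Real.exp (-(y ^ 2 / 4)) :=
        mul_le_mul_of_nonneg_right h1 h3.le
    _ = 2 * (R ^ 2 + 1) * ((1 + y ^ 2) ^ 2 * Real.exp (-(y ^ 2 / 4))) * (1 + y ^ 2)⁻¹ := h4
    _ ≤ 2 * (R ^ 2 + 1) * 32 * (1 + y ^ 2)⁻¹ := by gcongr
    _ = _ := by ring

/-- residue subtraction and shift: `J` entire with decay in the strip `a ≤ Re s ≤ b` -/
theorem shift_pole {J : ℂ → ℂ} (hJ : Differentiable ℂ J) {a b A H : ℝ} {s1 : ℂ} (hab : a ≤ b)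
    (ha1 : 1 / 2 ≤ |a - s1.re|) (hb1 : 1 / 2 ≤ |b - s1.re|) (ha2 : |a - s1.re| ≤ 2)
    (hb2 : |b - s1.re| ≤ 2)
    (hA0 : ∀ s : ℂ, a ≤ s.re → s.re ≤ b → H ≤ |s.im| → ‖J s‖ ≤ A * (1 + s.im ^ 2)⁻¹) :
    ‖(∫ t : ℝ, J ((b : ℂ) + t * Complex.I) / ((b : ℂ) + t * Complex.I - s1)) -
      ∫ t : ℝ, J ((a : ℂ) + t * Complex.I) / ((a : ℂ) + t * Complex.I - s1)‖ ≤ 600 * ‖J s1‖ := by
  obtain ⟨A', hA', hA⟩ := uniform_decay hJ.continuous hA0
  set E : ℂ → ℂ := fun s => Complex.exp ((s - s1) ^ 2) with hE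
  have hEd : Differentiable ℂ E := by rw [hE]; fun_prop
  have hEn : ∀ s : ℂ, ‖E s‖ = Real.exp ((s.re - s1.re) ^ 2) * Real.exp (-(s.im - s1.im) ^ 2) := by
    intro s
    simp only [hE]
    rw [Complex.norm_exp, ← Real.exp_add]
    congr 1
    simp [pow_two]
    ring
  have hreb : ∀ x : ℝ, a ≤ x → x ≤ b → (x - s1.re) ^ 2 ≤ 4 := by
    intro x hx1 hx2
    have h1 : |x - s1.re| ≤ 2 := by
      rw [abs_le] at ha2 hb2 ⊢
      constructor <;> linarith [ha2.1, hb2.2]
    have := pow_le_pow_left₀ (abs_nonneg _) h1 2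
    rw [sq_abs] at this
    linarith
  -- decay of E
  have hEb : ∀ s : ℂ, a ≤ s.re → s.re ≤ b → 2 * |s1.im| + 1 ≤ |s.im| →
      ‖E s‖ ≤ (Real.exp 4 * 64) * (1 + s.im ^ 2)⁻¹ := by
    intro s h1 h2 h3
    rw [hEn, mul_assoc]
    have h4 : Real.exp (-(s.im - s1.im) ^ 2) ≤ 64 * (1 + s.im ^ 2)⁻¹ := by
      have h5 : s.im ^ 2 / 4 ≤ (s.im - s1.im) ^ 2 := by
        have h6 : |s.im| / 2 ≤ |s.im - s1.im| := by
          have := abs_sub_abs_le_abs_sub s.im s1.im
          linarith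
        have h7 := pow_le_pow_left₀ (by positivity) h6 2
        rw [div_pow, sq_abs, sq_abs] at h7
        linarith
      have h8 : Real.exp (-(s.im - s1.im) ^ 2) ≤ Real.exp (-(s.im ^ 2 / 4)) :=
        Real.exp_le_exp.mpr (by linarith)
      refine h8.trans ?_
      have h9 := exp_bound_aux' 0 s.im
      have h10 : 1 ≤ (0 + |s.im|) ^ 2 := by
        have : 1 ≤ |s.im| := by linarith [abs_nonneg s1.im]
        nlinarith
      have h11 := Real.exp_pos (-(s.im ^ 2 / 4))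
      nlinarith
    have h5 : Real.exp ((s.re - s1.re) ^ 2) ≤ Real.exp 4 := Real.exp_le_exp.mpr (hreb _ h1 h2)
    exact mul_le_mul h5 h4 (Real.exp_pos _).le (Real.exp_pos _).le
  obtain ⟨AE, hAE, hEA⟩ := uniform_decay hEd.continuous hEb
  set K : ℂ → ℂ := fun s => J s - J s1 * E s with hK
  have hKd : Differentiable ℂ K := by
    rw [hK]
    exact hJ.sub (hEd.const_mul _)
  have hK1 : K s1 = 0 := by simp [hK, hE]
  set L : ℂ → ℂ := dslope K s1 with hL
  have hLd : Differentiable ℂ L := by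
    rw [hL, ← differentiableOn_univ, Complex.differentiableOn_dslope univ_mem, differentiableOn_univ]
    exact hKd
  have hLne : ∀ s : ℂ, s ≠ s1 → L s = J s / (s - s1) - J s1 * (E s / (s - s1)) := by
    intro s hs
    rw [hL, dslope_of_ne _ hs, slope_def_field, hK1]
    simp only [hK]
    ring
  have hLb : ∀ s : ℂ, a ≤ s.re → s.re ≤ b → 2 * |s1.im| + 1 ≤ |s.im| →
      ‖L s‖ ≤ (A' + ‖J s1‖ * AE) * (1 + s.im ^ 2)⁻¹ := by
    intro s h1 h2 h3
    have h4 : 1 ≤ ‖s - s1‖ := by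
      have h5 := Complex.abs_im_le_norm (s - s1)
      rw [Complex.sub_im] at h5
      have := abs_sub_abs_le_abs_sub s.im s1.im
      linarith [abs_nonneg s1.im]
    have h5 : s ≠ s1 := by
      intro h
      rw [h, sub_self, norm_zero] at h4
      linarith
    have h6 : L s = K s / (s - s1) := by
      rw [hL, dslope_of_ne _ h5, slope_def_field, hK1, sub_zero]
    rw [h6, norm_div]
    have h7 : ‖K s‖ ≤ (A' + ‖J s1‖ * AE) * (1 + s.im ^ 2)⁻¹ := by
      simp only [hK]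
      refine (norm_sub_le _ _).trans ?_
      rw [norm_mul]
      have h8 := hA s h1 h2
      have h9 := mul_le_mul_of_nonneg_left (hEA s h1 h2) (norm_nonneg (J s1))
      linarith
    exact (div_le_self (norm_nonneg _) h4).trans h7
  have hsh := shift hLd hab hLb
  -- split on a line
  have hline : ∀ c : ℝ, a ≤ c → c ≤ b → 1 / 2 ≤ |c - s1.re| →
      Integrable (fun t : ℝ => J ((c : ℂ) + t * Complex.I) / ((c : ℂ) + t * Complex.I - s1)) ∧
      Integrable (fun t : ℝ => E ((c : ℂ) + t * Complex.I) / ((c : ℂ) + t * Complex.I - s1)) ∧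
      ‖∫ t : ℝ, E ((c : ℂ) + t * Complex.I) / ((c : ℂ) + t * Complex.I - s1)‖ ≤ 300 ∧
      ∫ t : ℝ, L ((c : ℂ) + t * Complex.I) =
        (∫ t : ℝ, J ((c : ℂ) + t * Complex.I) / ((c : ℂ) + t * Complex.I - s1)) -
        J s1 * ∫ t : ℝ, E ((c : ℂ) + t * Complex.I) / ((c : ℂ) + t * Complex.I - s1) := by
    intro c hc1 hc2 hc3
    have hdist : ∀ t : ℝ, 1 / 2 ≤ ‖(c : ℂ) + t * Complex.I - s1‖ := by
      intro t
      have h5 := Complex.abs_re_le_norm ((c : ℂ) + t * Complex.I - s1)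
      rw [Complex.sub_re, line_re] at h5
      linarith
    have hne : ∀ t : ℝ, (c : ℂ) + t * Complex.I - s1 ≠ 0 := by
      intro t h
      have := hdist t
      rw [h, norm_zero] at this
      linarith
    have hgen : ∀ (F : ℂ → ℂ) (B : ℝ), Continuous F →
        (∀ s : ℂ, a ≤ s.re → s.re ≤ b → ‖F s‖ ≤ B * (1 + s.im ^ 2)⁻¹) →
        Integrable (fun t : ℝ => F ((c : ℂ) + t * Complex.I) / ((c : ℂ) + t * Complex.I - s1)) := by
      intro F B hF hB
      refine (integrable_inv_one_add_sq.const_mul (2 * B)).mono' ?_ (Eventually.of_forall fun t => ?_)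
      · refine Continuous.aestronglyMeasurable ?_
        exact (hF.comp (by fun_prop)).div (by fun_prop) hne
      · have h1 := hB ((c : ℂ) + t * Complex.I) (by rw [line_re]; exact hc1)
          (by rw [line_re]; exact hc2)
        rw [line_im] at h1
        rw [norm_div, div_le_iff₀ (by linarith [hdist t])]
        have h2 := hdist t
        have h3 : 0 ≤ B * (1 + t ^ 2)⁻¹ := (norm_nonneg _).trans h1
        nlinarith
    have i1 := hgen J A' hJ.continuous hA
    have i2 := hgen E AE hEd.continuous hEA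
    refine ⟨i1, i2, ?_, ?_⟩
    · have hi : Integrable (fun t : ℝ => (2 * Real.exp 4) * Real.exp (-1 * (t - s1.im) ^ 2)) :=
        ((integrable_exp_neg_mul_sq one_pos).comp_sub_right s1.im).const_mul _
      have h1 : ‖∫ t : ℝ, E ((c : ℂ) + t * Complex.I) / ((c : ℂ) + t * Complex.I - s1)‖ ≤
          ∫ t : ℝ, (2 * Real.exp 4) * Real.exp (-1 * (t - s1.im) ^ 2) := by
        refine norm_integral_le_of_norm_le hi (Eventually.of_forall fun t => ?_)
        rw [norm_div, hEn, line_re, line_im, div_le_iff₀ (by linarith [hdist t])]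
        have h2 := hdist t
        have h3 : Real.exp ((c - s1.re) ^ 2) ≤ Real.exp 4 := Real.exp_le_exp.mpr (hreb _ hc1 hc2)
        have h4 := Real.exp_pos (-(t - s1.im) ^ 2)
        have h5 : -1 * (t - s1.im) ^ 2 = -(t - s1.im) ^ 2 := by ring
        rw [h5]
        have h6 : Real.exp ((c - s1.re) ^ 2) * Real.exp (-(t - s1.im) ^ 2) ≤
            Real.exp 4 * Real.exp (-(t - s1.im) ^ 2) := mul_le_mul_of_nonneg_right h3 h4.le
        have h7 : 0 < Real.exp 4 * Real.exp (-(t - s1.im) ^ 2) := by positivity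
        nlinarith
      refine h1.trans ?_
      rw [integral_const_mul, integral_sub_right_eq_self (fun t : ℝ => Real.exp (-1 * t ^ 2)) s1.im,
        integral_gaussian, div_one]
      have h2 : Real.exp 4 ≤ 60 := by
        have h3 := Real.exp_one_lt_d9
        have h4 : Real.exp 4 = Real.exp 1 ^ 4 := by
          rw [← Real.exp_nat_mul]; norm_num
        rw [h4]
        have h5 : Real.exp 1 ^ 4 ≤ 2.7182818286 ^ 4 :=
          pow_le_pow_left₀ (Real.exp_pos _).le h3.le 4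
        refine h5.trans (by norm_num)
      have h3 : Real.sqrt Real.pi ≤ 2 := by
        rw [Real.sqrt_le_left (by norm_num)]
        linarith [Real.pi_lt_four]
      have h4 := sqrt_pi_pos
      have h5 := Real.exp_pos 4
      nlinarith
    · have h1 : ∀ t : ℝ, L ((c : ℂ) + t * Complex.I) =
          J ((c : ℂ) + t * Complex.I) / ((c : ℂ) + t * Complex.I - s1) -
          J s1 * (E ((c : ℂ) + t * Complex.I) / ((c : ℂ) + t * Complex.I - s1)) := by
        intro t
        apply hLne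
        intro h
        exact hne t (by rw [h, sub_self])
      simp_rw [h1]
      rw [integral_sub i1 (i2.const_mul _), integral_const_mul]
  obtain ⟨_, _, hb3, hb4⟩ := hline b hab le_rfl hb1
  obtain ⟨_, _, ha3, ha4⟩ := hline a le_rfl hab ha1
  rw [hb4, ha4] at hsh
  have hfin : (∫ t : ℝ, J ((b : ℂ) + t * Complex.I) / ((b : ℂ) + t * Complex.I - s1)) -
      ∫ t : ℝ, J ((a : ℂ) + t * Complex.I) / ((a : ℂ) + t * Complex.I - s1) =
      J s1 * ((∫ t : ℝ, E ((b : ℂ) + t * Complex.I) / ((b : ℂ) + t * Complex.I - s1)) -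
      ∫ t : ℝ, E ((a : ℂ) + t * Complex.I) / ((a : ℂ) + t * Complex.I - s1)) := by
    linear_combination hsh
  rw [hfin, norm_mul, mul_comm]
  apply mul_le_mul_of_nonneg_right _ (norm_nonneg _)
  refine (norm_sub_le _ _).trans ?_
  linarith

end Pool.Agent.Helper26.KC
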