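import Pool.Agent.Helper26.KC.D2
import Pool.Agent.Helper69.QRH.A0

/-!
# KC-10, part 3: smoothed sums at a zero of zeta
-/

set_option autoImplicit false
open MeasureTheory Filter Topology Finset

namespace Pool.Agent.Helper26.KC

open Pool.Agent.Helper69.QRH

theorem EZ_growth : ∃ C : ℝ, 0 < C ∧ ∀ s : ℂ, 2 / 7 ≤ s.re → ‖EZ s‖ ≤ C * (1 + ‖s‖) ^ 2 := by
  set K : ℝ := ∑' n : ℕ, ((n : ℝ) + 1) ^ (-(9 / 7 : ℝ)) with hK
  have hK0 : 0 ≤ K := tsum_nonneg fun n => Real.rpow_nonneg (by positivity) _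
  refine ⟨K + 1, by linarith, fun s hs => ?_⟩
  rw [EZ_eq_tsum (by linarith)]
  have h1 : ‖∑' n : ℕ, TT n s‖ ≤ ‖s - 1‖ * ‖s‖ * K := by
    rw [hK, ← tsum_mul_left]
    refine tsum_of_norm_bounded ((summable_rpow_aux (by norm_num)).mul_left _).hasSum fun n => ?_
    refine (TT_bound n (by linarith)).trans ?_
    refine mul_le_mul_of_nonneg_left ?_ (by positivity)
    exact Real.rpow_le_rpow_of_exponent_le (by linarith [(n.cast_nonneg : (0 : ℝ) ≤ n)]) (by linarith)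
  have h2 : ‖s - 1‖ ≤ 1 + ‖s‖ := (norm_sub_le _ _).trans (by rw [norm_one]; linarith)
  have h3 := norm_nonneg s
  calc ‖∑' n : ℕ, TT n s + 1‖ ≤ ‖∑' n : ℕ, TT n s‖ + ‖(1 : ℂ)‖ := norm_add_le _ _
    _ ≤ ‖s - 1‖ * ‖s‖ * K + 1 := by
      rw [norm_one]
      linarith
    _ ≤ (1 + ‖s‖) * (1 + ‖s‖) * K + (1 + ‖s‖) ^ 2 := by
      have h4 : ‖s - 1‖ * ‖s‖ ≤ (1 + ‖s‖) * (1 + ‖s‖) :=
        mul_le_mul h2 (by linarith) h3 (by linarith)
      have h5 := mul_le_mul_of_nonneg_right h4 hK0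
      nlinarith
    _ = (K + 1) * (1 + ‖s‖) ^ 2 := by ring

/-- the mollifier -/
noncomputable def Mo (D : ℕ) (s : ℂ) : ℂ :=
  ∑ d ∈ Icc 1 D, (ArithmeticFunction.moebius d : ℂ) * (d : ℂ) ^ (-s)

theorem Mo_diff (D : ℕ) : Differentiable ℂ (Mo D) := by
  unfold Mo
  apply Differentiable.fun_sum
  intro d hd
  have h1 : (d : ℂ) ≠ 0 := by
    have := (Finset.mem_Icc.mp hd).1
    exact_mod_cast (by omega : d ≠ 0)
  exact (differentiable_id.neg.const_cpow (Or.inl h1)).const_mul _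

theorem moebius_norm_le (d : ℕ) : ‖(ArithmeticFunction.moebius d : ℂ)‖ ≤ 1 := by
  have := ArithmeticFunction.abs_moebius_le_one (n := d)
  rw [Complex.norm_intCast]
  exact_mod_cast this

theorem norm_natCast_cpow_neg_le {d : ℕ} (hd : 1 ≤ d) {s : ℂ} (hs : 0 ≤ s.re) :
    ‖(d : ℂ) ^ (-s)‖ ≤ 1 := by
  rw [Complex.norm_natCast_cpow_of_pos (by omega)]
  apply Real.rpow_le_one_of_one_le_of_nonpos
  · exact_mod_cast hd
  · simp [hs]

theorem Mo_le (D : ℕ) {s : ℂ} (hs : 0 ≤ s.re) : ‖Mo D s‖ ≤ D := by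
  unfold Mo
  refine (norm_sum_le _ _).trans ?_
  have h1 : ∀ d ∈ Icc 1 D, ‖(ArithmeticFunction.moebius d : ℂ) * (d : ℂ) ^ (-s)‖ ≤ 1 := by
    intro d hd
    rw [norm_mul]
    have h2 := norm_natCast_cpow_neg_le (Finset.mem_Icc.mp hd).1 hs
    have h3 := moebius_norm_le d
    have h4 := norm_nonneg ((d : ℂ) ^ (-s))
    have h5 := norm_nonneg (ArithmeticFunction.moebius d : ℂ)
    nlinarith
  refine (Finset.sum_le_card_nsmul _ _ _ h1).trans ?_
  simp

/-- the inner smoothed sum -/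
noncomputable def In (ρ : ℂ) (V : ℝ) (d : ℕ) : ℂ :=
  ∑' m : ℕ, ((m : ℂ) + 1) ^ (-ρ) * (Phi (V - Real.log d - Real.log ((m : ℝ) + 1)) : ℂ)

theorem cpow_eq_exp_log {x : ℝ} (hx : 0 < x) (s : ℂ) :
    (x : ℂ) ^ s = Complex.exp (s * (Real.log x : ℝ)) := by
  rw [Complex.cpow_def_of_ne_zero (by exact_mod_cast hx.ne'), ← Complex.ofReal_log hx.le, mul_comm]

theorem exp_line_le (c t w : ℝ) :
    ‖Complex.exp (((c : ℂ) + t * Complex.I) * w + ((c : ℂ) + t * Complex.I) ^ 2)‖ =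
      Real.exp (c * w + c ^ 2) * Real.exp (-1 * t ^ 2) := norm_exp_line c t w

/-- one divisor -/
theorem inner_mellin {ρ : ℂ} (hρ : 0 ≤ ρ.re) (W : ℝ) :
    Integrable (fun t : ℝ => riemannZeta (ρ + ((2 : ℝ) + t * Complex.I)) *
      (Complex.exp ((((2 : ℝ) : ℂ) + t * Complex.I) * W + (((2 : ℝ) : ℂ) + t * Complex.I) ^ 2) /
        (((2 : ℝ) : ℂ) + t * Complex.I))) ∧
    ∫ t : ℝ, riemannZeta (ρ + ((2 : ℝ) + t * Complex.I)) *
      (Complex.exp ((((2 : ℝ) : ℂ) + t * Complex.I) * W + (((2 : ℝ) : ℂ) + t * Complex.I) ^ 2) /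
        (((2 : ℝ) : ℂ) + t * Complex.I)) =
      2 * Real.pi * ∑' m : ℕ, ((m : ℂ) + 1) ^ (-ρ) * (Phi (W - Real.log ((m : ℝ) + 1)) : ℂ) := by
  set F : ℕ → ℝ → ℂ := fun m t => ((m : ℂ) + 1) ^ (-ρ) *
    (Complex.exp ((((2 : ℝ) : ℂ) + t * Complex.I) * ((W - Real.log ((m : ℝ) + 1) : ℝ) : ℂ) +
      (((2 : ℝ) : ℂ) + t * Complex.I) ^ 2) / (((2 : ℝ) : ℂ) + t * Complex.I)) with hF
  have hm0 : ∀ m : ℕ, (0 : ℝ) < (m : ℝ) + 1 := fun m => by positivity
  have hFn : ∀ m t, ‖F m t‖ ≤ (Real.exp (2 * W + 4) * ((m : ℝ) + 1) ^ (-(2 : ℝ))) *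
      Real.exp (-1 * t ^ 2) := by
    intro m t
    simp only [hF]
    rw [norm_mul, norm_div, norm_exp_line]
    have h1 : ‖((m : ℂ) + 1) ^ (-ρ)‖ ≤ 1 := by
      have := norm_natCast_cpow_neg_le (d := m + 1) (by omega) hρ
      push_cast at this
      exact this
    have h2 : 1 ≤ ‖((2 : ℝ) : ℂ) + t * Complex.I‖ := by
      have := Complex.abs_re_le_norm (((2 : ℝ) : ℂ) + t * Complex.I)
      rw [line_re] at this
      have h3 : |(2 : ℝ)| = 2 := abs_of_pos (by norm_num)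
      linarith
    have h3 : Real.exp (2 * (W - Real.log ((m : ℝ) + 1)) + 2 ^ 2) =
        Real.exp (2 * W + 4) * ((m : ℝ) + 1) ^ (-(2 : ℝ)) := by
      rw [Real.rpow_def_of_pos (hm0 m), ← Real.exp_add]
      congr 1
      ring
    rw [h3]
    have h4 : 0 ≤ Real.exp (2 * W + 4) * ((m : ℝ) + 1) ^ (-(2 : ℝ)) * Real.exp (-1 * t ^ 2) := by
      positivity
    calc ‖((m : ℂ) + 1) ^ (-ρ)‖ * (Real.exp (2 * W + 4) * ((m : ℝ) + 1) ^ (-(2 : ℝ)) *
          Real.exp (-1 * t ^ 2) / ‖((2 : ℝ) : ℂ) + t * Complex.I‖)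
        ≤ 1 * (Real.exp (2 * W + 4) * ((m : ℝ) + 1) ^ (-(2 : ℝ)) * Real.exp (-1 * t ^ 2)) := by
          apply mul_le_mul h1 (div_le_self h4 h2) (by positivity) zero_le_one
      _ = _ := one_mul _
  have hFc : ∀ m, Continuous (F m) := by
    intro m
    simp only [hF]
    refine continuous_const.mul (Continuous.div (by fun_prop) (by fun_prop) ?_)
    intro t
    exact line_ne (by norm_num)
  have hFi : ∀ m, Integrable (F m) := by
    intro m
    refine ((integrable_exp_neg_mul_sq one_pos).const_mul _).mono' (hFc m).aestronglyMeasurable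
      (Eventually.of_forall (hFn m))
  have hsum : Summable (fun m : ℕ => Real.exp (2 * W + 4) * ((m : ℝ) + 1) ^ (-(2 : ℝ)) *
      ∫ t : ℝ, Real.exp (-1 * t ^ 2)) :=
    ((summable_rpow_aux (r := -(2 : ℝ)) (by norm_num)).mul_left _).mul_right _
  have hFs : Summable (fun m => ∫ t, ‖F m t‖) := by
    refine Summable.of_nonneg_of_le (fun m => integral_nonneg fun t => norm_nonneg _)
      (fun m => ?_) hsum
    rw [← integral_const_mul]
    exact integral_mono (hFi m).norm ((integrable_exp_neg_mul_sq one_pos).const_mul _) (hFn m)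
  have hkey : ∀ t : ℝ, riemannZeta (ρ + ((2 : ℝ) + t * Complex.I)) *
      (Complex.exp ((((2 : ℝ) : ℂ) + t * Complex.I) * W + (((2 : ℝ) : ℂ) + t * Complex.I) ^ 2) /
        (((2 : ℝ) : ℂ) + t * Complex.I)) = ∑' m, F m t := by
    intro t
    rw [zeta_eq_tsum_one_div_nat_add_one_cpow (by
      rw [Complex.add_re, line_re]; linarith), ← tsum_mul_right]
    apply tsum_congr
    intro m
    simp only [hF]
    have h1 : ((m : ℂ) + 1) = (((m : ℝ) + 1 : ℝ) : ℂ) := by push_cast; ring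
    rw [h1, one_div, ← Complex.cpow_neg, cpow_eq_exp_log (hm0 m), cpow_eq_exp_log (hm0 m),
      mul_div_assoc', mul_div_assoc', ← Complex.exp_add, ← Complex.exp_add]
    congr 2
    push_cast
    ring
  constructor
  · simp_rw [hkey]
    have h1 : ∀ t : ℝ, ‖∑' m, F m t‖ ≤ (∑' m : ℕ, Real.exp (2 * W + 4) * ((m : ℝ) + 1) ^ (-(2 : ℝ))) *
        Real.exp (-1 * t ^ 2) := by
      intro t
      rw [← tsum_mul_right]
      exact tsum_of_norm_bounded (((summable_rpow_aux (r := -(2 : ℝ)) (by norm_num)).mul_left _).mul_right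
        _).hasSum (fun m => hFn m t)
    refine ((integrable_exp_neg_mul_sq one_pos).const_mul _).mono' ?_ (Eventually.of_forall h1)
    have h2 : (fun t : ℝ => ∑' m, F m t) = fun t : ℝ => riemannZeta (ρ + ((2 : ℝ) + t * Complex.I)) *
      (Complex.exp ((((2 : ℝ) : ℂ) + t * Complex.I) * W + (((2 : ℝ) : ℂ) + t * Complex.I) ^ 2) /
        (((2 : ℝ) : ℂ) + t * Complex.I)) := by
      funext t; rw [hkey]
    rw [h2]
    refine Continuous.aestronglyMeasurable ?_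
    refine Continuous.mul ?_ (Continuous.div (by fun_prop) (by fun_prop) fun t =>
      line_ne (by norm_num))
    rw [continuous_iff_continuousAt]
    intro t
    have h3 : ρ + ((2 : ℝ) + t * Complex.I) ≠ 1 := by
      intro h
      have := congrArg Complex.re h
      rw [Complex.add_re, line_re, Complex.one_re] at this
      linarith
    exact ContinuousAt.comp (f := fun t : ℝ => ρ + ((2 : ℝ) + t * Complex.I))
      (differentiableAt_riemannZeta h3).continuousAt (by fun_prop)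
  · simp_rw [hkey]
    rw [← integral_tsum_of_summable_integral_norm hFi hFs, ← tsum_mul_left]
    apply tsum_congr
    intro m
    simp only [hF]
    rw [integral_const_mul, mellin_Phi (by norm_num)]
    ring

theorem zeta_line_bound {Cz μ0 s0 : ℝ} (hμ0 : 0 ≤ μ0) (hμ1 : μ0 ≤ 1) (hCz : 0 ≤ Cz)
    (hz : ∀ τ : ℝ, ‖riemannZeta (s0 + τ * Complex.I)‖ ≤ Cz * (2 + |τ|) ^ μ0 * Real.log (2 + |τ|))
    (γ t : ℝ) : ‖riemannZeta (s0 + (γ + t : ℝ) * Complex.I)‖ ≤
      Cz * (2 + |γ|) ^ μ0 * Real.log (2 + |γ|) * (1 + 2 * |t|) ^ 2 := by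
  refine (hz (γ + t)).trans ?_
  have hγ := abs_nonneg γ
  have ht := abs_nonneg t
  have h1 : 2 + |γ + t| ≤ (2 + |γ|) * (1 + |t|) := by
    have := abs_add_le γ t
    nlinarith
  have h2 : (2 + |γ + t|) ^ μ0 ≤ (2 + |γ|) ^ μ0 * (1 + |t|) := by
    calc (2 + |γ + t|) ^ μ0 ≤ ((2 + |γ|) * (1 + |t|)) ^ μ0 :=
          Real.rpow_le_rpow (by positivity) h1 hμ0
      _ = (2 + |γ|) ^ μ0 * (1 + |t|) ^ μ0 := Real.mul_rpow (by positivity) (by positivity)
      _ ≤ (2 + |γ|) ^ μ0 * (1 + |t|) := by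
          gcongr
          calc (1 + |t|) ^ μ0 ≤ (1 + |t|) ^ (1 : ℝ) :=
                Real.rpow_le_rpow_of_exponent_le (by linarith) hμ1
            _ = 1 + |t| := Real.rpow_one _
  have hlog2 : 1 / 2 ≤ Real.log (2 + |γ|) := by
    have h3 : Real.log 2 ≤ Real.log (2 + |γ|) := Real.log_le_log (by norm_num) (by linarith)
    linarith [Real.log_two_gt_d9]
  have h3 : Real.log (2 + |γ + t|) ≤ Real.log (2 + |γ|) * (1 + 2 * |t|) := by
    calc Real.log (2 + |γ + t|) ≤ Real.log ((2 + |γ|) * (1 + |t|)) :=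
          Real.log_le_log (by positivity) h1
      _ = Real.log (2 + |γ|) + Real.log (1 + |t|) :=
          Real.log_mul (by positivity) (by positivity)
      _ ≤ Real.log (2 + |γ|) + |t| := by
          have := Real.log_le_sub_one_of_pos (show (0 : ℝ) < 1 + |t| by positivity)
          linarith
      _ ≤ Real.log (2 + |γ|) * (1 + 2 * |t|) := by nlinarith
  have h4 : 0 ≤ Real.log (2 + |γ + t|) := Real.log_nonneg (by linarith [abs_nonneg (γ + t)])
  have h5 : (0 : ℝ) ≤ (2 + |γ|) ^ μ0 := by positivity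
  calc Cz * (2 + |γ + t|) ^ μ0 * Real.log (2 + |γ + t|)
      ≤ Cz * ((2 + |γ|) ^ μ0 * (1 + |t|)) * (Real.log (2 + |γ|) * (1 + 2 * |t|)) := by gcongr
    _ ≤ Cz * ((2 + |γ|) ^ μ0 * (1 + 2 * |t|)) * (Real.log (2 + |γ|) * (1 + 2 * |t|)) := by
        have : 1 + |t| ≤ 1 + 2 * |t| := by linarith
        gcongr
    _ = _ := by ring

/-- the smoothed mollified sum at a zero is small -/
theorem mellin_bound {Cz μ0 s0 : ℝ} (hμ0 : 0 ≤ μ0) (hμ1 : μ0 ≤ 1) (hCz : 0 ≤ Cz) (hs0 : 2 / 7 ≤ s0)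
    (hs1 : s0 ≤ 1 / 2)
    (hz : ∀ τ : ℝ, ‖riemannZeta (s0 + τ * Complex.I)‖ ≤ Cz * (2 + |τ|) ^ μ0 * Real.log (2 + |τ|))
    {ρ : ℂ} (hρ : riemannZeta ρ = 0) (hρ1 : s0 < ρ.re) (hρ2 : ρ.re ≤ 1) (hγ : 1 ≤ |ρ.im|)
    {V : ℝ} (hV : 0 ≤ V) (D : ℕ) :
    ‖∑ d ∈ Icc 1 D, (ArithmeticFunction.moebius d : ℂ) * (d : ℂ) ^ (-ρ) * In ρ V d‖ ≤
      32 * Cz * (2 + |ρ.im|) ^ μ0 * Real.log (2 + |ρ.im|) * D *
        Real.exp (1 - (ρ.re - s0) * V) / (ρ.re - s0) + 300 * (D * Real.exp (V - ρ.im ^ 2)) := by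
  obtain ⟨CE, hCE0, hCE⟩ := EZ_growth
  have hρne : ρ ≠ 1 := by
    rintro rfl
    simp at hγ
    linarith
  have hEρ : EZ ρ = 0 := by rw [EZ_eq hρne, hρ, mul_zero]
  set s1 : ℂ := 1 - ρ with hs1def
  have hs1re : s1.re = 1 - ρ.re := by simp [hs1def]
  have hs1im : s1.im = -ρ.im := by simp [hs1def]
  set J0 : ℂ → ℂ := dslope EZ ρ with hJ0
  have hJ0d : Differentiable ℂ J0 := by
    rw [hJ0, ← differentiableOn_univ, Complex.differentiableOn_dslope univ_mem, differentiableOn_univ]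
    exact EZ_differentiable
  have hJ0ne : ∀ s : ℂ, s ≠ 0 → J0 (ρ + s) = EZ (ρ + s) / s := by
    intro s hs
    rw [hJ0, dslope_of_ne _ (by simpa using hs), slope_def_field, hEρ, sub_zero,
      add_sub_cancel_left]
  set J : ℂ → ℂ := fun s => J0 (ρ + s) * Mo D (ρ + s) * Complex.exp (s * V + s ^ 2) with hJ
  have hJd : Differentiable ℂ J := by
    rw [hJ]
    refine Differentiable.mul (Differentiable.mul ?_ ?_) (by fun_prop)
    · exact hJ0d.comp (by fun_prop)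
    · exact (Mo_diff D).comp (by fun_prop)
  -- real part of the left line
  set a : ℝ := s0 - ρ.re with ha
  have hexpn : ∀ s : ℂ, ‖Complex.exp (s * V + s ^ 2)‖ =
      Real.exp (s.re * V + s.re ^ 2) * Real.exp (-s.im ^ 2) := by
    intro s
    rw [Complex.norm_exp, ← Real.exp_add]
    congr 1
    simp [pow_two]
    ring
  -- decay of J
  have hdecay : ∀ s : ℂ, a ≤ s.re → s.re ≤ 2 → 1 ≤ |s.im| →
      ‖J s‖ ≤ (CE * D * Real.exp (2 * V + 4) * (64 * ((4 + ‖ρ‖) ^ 2 + 1))) * (1 + s.im ^ 2)⁻¹ := by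
    intro s h1 h2 h3
    have hs : 1 ≤ ‖s‖ := h3.trans (Complex.abs_im_le_norm s)
    have hsne : s ≠ 0 := by
      intro h; rw [h, norm_zero] at hs; linarith
    have hre : (ρ + s).re = ρ.re + s.re := Complex.add_re _ _
    have hre0 : 2 / 7 ≤ (ρ + s).re := by rw [hre]; linarith
    have e1 : ‖J0 (ρ + s)‖ ≤ CE * (4 + ‖ρ‖ + |s.im|) ^ 2 := by
      rw [hJ0ne s hsne, norm_div]
      refine (div_le_self (norm_nonneg _) hs).trans ((hCE _ hre0).trans ?_)
      have h4 : ‖s‖ ≤ 2 + |s.im| := by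
        refine (Complex.norm_le_abs_re_add_abs_im s).trans ?_
        have : |s.re| ≤ 2 := by rw [abs_le]; constructor <;> linarith
        linarith
      have h5 := norm_add_le ρ s
      have h6 := norm_nonneg (ρ + s)
      have h7 : 1 + ‖ρ + s‖ ≤ 4 + ‖ρ‖ + |s.im| := by linarith
      gcongr
    have e2 : ‖Mo D (ρ + s)‖ ≤ D := Mo_le D (by linarith)
    have e3 : ‖Complex.exp (s * V + s ^ 2)‖ ≤ Real.exp (2 * V + 4) * Real.exp (-(s.im ^ 2 / 4)) := by
      rw [hexpn]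
      apply mul_le_mul _ _ (Real.exp_pos _).le (Real.exp_pos _).le
      · apply Real.exp_le_exp.mpr
        have h4 : -1 ≤ s.re := by linarith
        nlinarith
      · apply Real.exp_le_exp.mpr
        nlinarith [sq_nonneg s.im]
    have e4 := exp_bound_aux' (4 + ‖ρ‖) s.im
    calc ‖J s‖ = ‖J0 (ρ + s)‖ * ‖Mo D (ρ + s)‖ * ‖Complex.exp (s * V + s ^ 2)‖ := by
          simp only [hJ, norm_mul]
      _ ≤ (CE * (4 + ‖ρ‖ + |s.im|) ^ 2) * D *
          (Real.exp (2 * V + 4) * Real.exp (-(s.im ^ 2 / 4))) := by gcongr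
      _ = CE * D * Real.exp (2 * V + 4) *
          ((4 + ‖ρ‖ + |s.im|) ^ 2 * Real.exp (-(s.im ^ 2 / 4))) := by ring
      _ ≤ CE * D * Real.exp (2 * V + 4) *
          (64 * ((4 + ‖ρ‖) ^ 2 + 1) * (1 + s.im ^ 2)⁻¹) := by gcongr
      _ = _ := by ring
  have hshift := shift_pole hJd (a := a) (b := 2) (s1 := s1) (by linarith)
    (by rw [hs1re]; rw [ha]; rw [show s0 - ρ.re - (1 - ρ.re) = -(1 - s0) by ring, abs_neg,
          abs_of_nonneg (by linarith)]; linarith)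
    (by rw [hs1re, show (2 : ℝ) - (1 - ρ.re) = 1 + ρ.re by ring, abs_of_nonneg (by linarith)]; linarith)
    (by rw [hs1re]; rw [ha]; rw [show s0 - ρ.re - (1 - ρ.re) = -(1 - s0) by ring, abs_neg,
          abs_of_nonneg (by linarith)]; linarith)
    (by rw [hs1re, show (2 : ℝ) - (1 - ρ.re) = 1 + ρ.re by ring, abs_of_nonneg (by linarith)]; linarith)
    hdecay
  -- the quotient away from the two special points
  have hquot : ∀ s : ℂ, s ≠ 0 → s ≠ s1 → J s / (s - s1) =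
      riemannZeta (ρ + s) * Mo D (ρ + s) * Complex.exp (s * V + s ^ 2) / s := by
    intro s h1 h2
    have h3 : ρ + s ≠ 1 := by
      intro h
      apply h2
      rw [hs1def, ← h]
      ring
    have h4 : s - s1 ≠ 0 := sub_ne_zero.mpr h2
    simp only [hJ]
    rw [hJ0ne s h1, EZ_eq h3]
    have h5 : ρ + s - 1 = s - s1 := by rw [hs1def]; ring
    rw [h5]
    field_simp
  -- right line
  have hright : ∫ t : ℝ, J (((2 : ℝ) : ℂ) + t * Complex.I) / (((2 : ℝ) : ℂ) + t * Complex.I - s1) =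
      2 * Real.pi * ∑ d ∈ Icc 1 D, (ArithmeticFunction.moebius d : ℂ) * (d : ℂ) ^ (-ρ) * In ρ V d := by
    have h1 : ∀ t : ℝ, J (((2 : ℝ) : ℂ) + t * Complex.I) / (((2 : ℝ) : ℂ) + t * Complex.I - s1) =
        ∑ d ∈ Icc 1 D, ((ArithmeticFunction.moebius d : ℂ) * (d : ℂ) ^ (-ρ)) *
        (riemannZeta (ρ + ((2 : ℝ) + t * Complex.I)) *
          (Complex.exp ((((2 : ℝ) : ℂ) + t * Complex.I) * ((V - Real.log d : ℝ) : ℂ) +
            (((2 : ℝ) : ℂ) + t * Complex.I) ^ 2) / (((2 : ℝ) : ℂ) + t * Complex.I))) := by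
      intro t
      rw [hquot _ (line_ne (by norm_num)) (by
        intro h
        have := congrArg Complex.re h
        rw [line_re, hs1re] at this
        linarith)]
      unfold Mo
      rw [Finset.mul_sum, Finset.sum_mul, Finset.sum_div]
      apply Finset.sum_congr rfl
      intro d hd
      have hd0 : (0 : ℝ) < d := by exact_mod_cast (Finset.mem_Icc.mp hd).1
      have e1 : (d : ℂ) ^ (-(ρ + (((2 : ℝ) : ℂ) + t * Complex.I))) =
          (d : ℂ) ^ (-ρ) * Complex.exp (-(((2 : ℝ) : ℂ) + t * Complex.I) * (Real.log d : ℝ)) := by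
        have h2 : (d : ℂ) = ((d : ℝ) : ℂ) := by push_cast; ring
        rw [h2, cpow_eq_exp_log hd0, cpow_eq_exp_log hd0, ← Complex.exp_add]
        congr 1
        push_cast
        ring
      have e2 : Complex.exp ((((2 : ℝ) : ℂ) + t * Complex.I) * ((V - Real.log d : ℝ) : ℂ) +
            (((2 : ℝ) : ℂ) + t * Complex.I) ^ 2) =
          Complex.exp (-(((2 : ℝ) : ℂ) + t * Complex.I) * (Real.log d : ℝ)) *
          Complex.exp ((((2 : ℝ) : ℂ) + t * Complex.I) * V + (((2 : ℝ) : ℂ) + t * Complex.I) ^ 2) := by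
        rw [← Complex.exp_add]
        congr 1
        push_cast
        ring
      rw [e1, e2]
      ring
    simp_rw [h1]
    rw [integral_finsetSum]
    · rw [Finset.mul_sum]
      apply Finset.sum_congr rfl
      intro d _
      rw [integral_const_mul, (inner_mellin (by linarith) (V - Real.log d)).2]
      unfold In
      ring
    · intro d _
      exact (inner_mellin (by linarith) (V - Real.log d)).1.const_mul _
  -- left line
  have hβ : 0 < ρ.re - s0 := by linarith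
  have hleft : ‖∫ t : ℝ, J ((a : ℂ) + t * Complex.I) / ((a : ℂ) + t * Complex.I - s1)‖ ≤
      (Cz * (2 + |ρ.im|) ^ μ0 * Real.log (2 + |ρ.im|) * D *
        Real.exp (1 - (ρ.re - s0) * V) / (ρ.re - s0)) * (64 * 5 * Real.pi / 5) := by
    set B : ℝ := Cz * (2 + |ρ.im|) ^ μ0 * Real.log (2 + |ρ.im|) * D *
        Real.exp (1 - (ρ.re - s0) * V) / (ρ.re - s0) with hB
    have hlog : 0 ≤ Real.log (2 + |ρ.im|) := Real.log_nonneg (by linarith [abs_nonneg ρ.im])
    have hB0 : 0 ≤ B := by rw [hB]; positivity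
    have h1 : ∀ t : ℝ, ‖J ((a : ℂ) + t * Complex.I) / ((a : ℂ) + t * Complex.I - s1)‖ ≤
        B * 64 * (1 + t ^ 2)⁻¹ := by
      intro t
      have hne : (a : ℂ) + t * Complex.I ≠ 0 := by
        intro h
        have := congrArg Complex.re h
        rw [line_re, Complex.zero_re] at this
        linarith
      rw [hquot _ hne (by
        intro h
        have := congrArg Complex.re h
        rw [line_re, hs1re] at this
        linarith)]
      have e0 : ρ + ((a : ℂ) + t * Complex.I) = (s0 : ℂ) + ((ρ.im + t : ℝ) : ℂ) * Complex.I := by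
        apply Complex.ext
        · simp [ha]
        · simp
      rw [e0, norm_div, norm_mul, norm_mul, norm_exp_line]
      have e1 := zeta_line_bound hμ0 hμ1 hCz hz ρ.im t
      have e2 : ‖Mo D ((s0 : ℂ) + ((ρ.im + t : ℝ) : ℂ) * Complex.I)‖ ≤ D := by
        apply Mo_le
        rw [line_re]
        linarith
      have e3 : Real.exp (a * V + a ^ 2) ≤ Real.exp (1 - (ρ.re - s0) * V) := by
        apply Real.exp_le_exp.mpr
        have : a ^ 2 ≤ 1 := by nlinarith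
        rw [ha] at *
        linarith
      have e4 : ρ.re - s0 ≤ ‖(a : ℂ) + t * Complex.I‖ := by
        have h5 := Complex.abs_re_le_norm ((a : ℂ) + t * Complex.I)
        rw [line_re] at h5
        have h6 : |a| = ρ.re - s0 := by
          rw [ha, show s0 - ρ.re = -(ρ.re - s0) by ring, abs_neg, abs_of_pos hβ]
        linarith
      have e5 : (1 + 2 * |t|) ^ 2 * Real.exp (-1 * t ^ 2) ≤ 64 * (1 + t ^ 2)⁻¹ := by
        have f1 : (1 + 2 * |t|) ^ 2 ≤ 8 * (1 + t ^ 2) := by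
          have := sq_abs t
          nlinarith [sq_nonneg (1 - |t|), sq_nonneg (1 - 2 * |t|)]
        have f2 : (1 + t ^ 2) ^ 2 * Real.exp (-1 * t ^ 2) ≤ 2 := by
          have f3 := Real.quadratic_le_exp_of_nonneg (sq_nonneg t)
          rw [neg_one_mul, Real.exp_neg, ← div_eq_mul_inv, div_le_iff₀ (Real.exp_pos _)]
          nlinarith [sq_nonneg t]
        have f3 : (0 : ℝ) < 1 + t ^ 2 := by positivity
        have f4 := Real.exp_pos (-1 * t ^ 2)
        rw [← div_eq_mul_inv, le_div_iff₀ f3]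
        calc (1 + 2 * |t|) ^ 2 * Real.exp (-1 * t ^ 2) * (1 + t ^ 2)
            ≤ 8 * (1 + t ^ 2) * Real.exp (-1 * t ^ 2) * (1 + t ^ 2) := by gcongr
          _ = 8 * ((1 + t ^ 2) ^ 2 * Real.exp (-1 * t ^ 2)) := by ring
          _ ≤ 8 * 2 := by gcongr
          _ ≤ 64 := by norm_num
      calc ‖riemannZeta ((s0 : ℂ) + ((ρ.im + t : ℝ) : ℂ) * Complex.I)‖ *
            ‖Mo D ((s0 : ℂ) + ((ρ.im + t : ℝ) : ℂ) * Complex.I)‖ *
            (Real.exp (a * V + a ^ 2) * Real.exp (-1 * t ^ 2)) / ‖(a : ℂ) + t * Complex.I‖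
          ≤ (Cz * (2 + |ρ.im|) ^ μ0 * Real.log (2 + |ρ.im|) * (1 + 2 * |t|) ^ 2) * D *
            (Real.exp (1 - (ρ.re - s0) * V) * Real.exp (-1 * t ^ 2)) / (ρ.re - s0) := by
            gcongr
        _ = B * ((1 + 2 * |t|) ^ 2 * Real.exp (-1 * t ^ 2)) := by rw [hB]; ring
        _ ≤ B * (64 * (1 + t ^ 2)⁻¹) := by gcongr
        _ = _ := by ring
    refine (norm_integral_le_of_norm_le (integrable_inv_one_add_sq.const_mul (B * 64))
      (Eventually.of_forall h1)).trans ?_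
    rw [integral_const_mul, integral_univ_inv_one_add_sq]
    apply le_of_eq
    ring
  -- value at the pole
  have hJs1 : ‖J s1‖ ≤ D * Real.exp (V + 1 - ρ.im ^ 2) := by
    have hs1ne : s1 ≠ 0 := by
      rw [hs1def]; exact sub_ne_zero.mpr hρne.symm
    have h1 : ρ + s1 = 1 := by rw [hs1def]; ring
    have h2 : 1 ≤ ‖s1‖ := by
      have := Complex.abs_im_le_norm s1
      rw [hs1im, abs_neg] at this
      linarith
    simp only [hJ]
    rw [norm_mul, norm_mul, hJ0ne s1 hs1ne, h1, EZ_one, norm_div, norm_one, hexpn, hs1re, hs1im]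
    have h3 : ‖Mo D 1‖ ≤ D := Mo_le D (by simp)
    have h4 : (1 : ℝ) / ‖s1‖ ≤ 1 := by
      rw [div_le_one (by linarith)]; exact h2
    have h5 : Real.exp ((1 - ρ.re) * V + (1 - ρ.re) ^ 2) * Real.exp (-(-ρ.im) ^ 2) ≤
        Real.exp (V + 1 - ρ.im ^ 2) := by
      rw [← Real.exp_add]
      apply Real.exp_le_exp.mpr
      have h6 : (1 - ρ.re) ^ 2 ≤ 1 := by nlinarith
      have h7 : (1 - ρ.re) * V ≤ V := by nlinarith
      nlinarith
    have h6 := norm_nonneg (Mo D 1)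
    calc 1 / ‖s1‖ * ‖Mo D 1‖ * (Real.exp ((1 - ρ.re) * V + (1 - ρ.re) ^ 2) * Real.exp (-(-ρ.im) ^ 2))
        ≤ 1 * D * Real.exp (V + 1 - ρ.im ^ 2) := by gcongr
      _ = _ := by ring
  rw [hright] at hshift
  have hpi := Real.pi_pos
  have hpi3 := Real.pi_gt_three
  set Sg : ℂ := ∑ d ∈ Icc 1 D, (ArithmeticFunction.moebius d : ℂ) * (d : ℂ) ^ (-ρ) * In ρ V d with hSg
  have h1 : ‖2 * (Real.pi : ℂ) * Sg‖ ≤ 600 * ‖J s1‖ +
      (Cz * (2 + |ρ.im|) ^ μ0 * Real.log (2 + |ρ.im|) * D *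
        Real.exp (1 - (ρ.re - s0) * V) / (ρ.re - s0)) * (64 * 5 * Real.pi / 5) := by
    have := norm_sub_norm_le (2 * (Real.pi : ℂ) * Sg)
      (∫ t : ℝ, J ((a : ℂ) + t * Complex.I) / ((a : ℂ) + t * Complex.I - s1))
    linarith
  rw [norm_mul, norm_mul, Complex.norm_real, Complex.norm_ofNat, Real.norm_of_nonneg hpi.le] at h1
  have h2 : D * Real.exp (V + 1 - ρ.im ^ 2) ≤ 3 * (D * Real.exp (V - ρ.im ^ 2)) := by
    rw [show V + 1 - ρ.im ^ 2 = 1 + (V - ρ.im ^ 2) by ring, Real.exp_add]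
    have h3 := Real.exp_one_lt_d9
    have h4 : 0 ≤ (D : ℝ) * Real.exp (V - ρ.im ^ 2) := by positivity
    nlinarith
  have h3 : 0 ≤ (D : ℝ) * Real.exp (V - ρ.im ^ 2) := by positivity
  set B : ℝ := Cz * (2 + |ρ.im|) ^ μ0 * Real.log (2 + |ρ.im|) * D *
        Real.exp (1 - (ρ.re - s0) * V) / (ρ.re - s0) with hB
  have h4 : 32 * Cz * (2 + |ρ.im|) ^ μ0 * Real.log (2 + |ρ.im|) * D *
        Real.exp (1 - (ρ.re - s0) * V) / (ρ.re - s0) = 32 * B := by
    rw [hB]; ring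
  rw [h4]
  have h5 : 2 * Real.pi * ‖Sg‖ ≤ 600 * (3 * (D * Real.exp (V - ρ.im ^ 2))) + B * (64 * Real.pi) := by
    linarith
  have h6 : 2 * Real.pi * ‖Sg‖ ≤ 2 * Real.pi * (32 * B + 300 * (D * Real.exp (V - ρ.im ^ 2))) := by
    nlinarith
  exact le_of_mul_le_mul_left h6 (by positivity)

end Pool.Agent.Helper26.KC
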