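import Pool.Agent.Helper26.KC.D3
import Pool.Agent.Helper60.KS.St

/-!
# KC-10, part 4: finite sums, conclusion
-/

set_option autoImplicit false
open MeasureTheory Filter Topology Finset

namespace Pool.Agent.Helper26.KC

open Pool.Agent.Helper69.QRH Pool.Agent.Helper60.KS

theorem zeta_neg (s0 τ : ℝ) :
    ‖riemannZeta (s0 + ((-τ : ℝ) : ℂ) * Complex.I)‖ = ‖riemannZeta (s0 + τ * Complex.I)‖ := by
  have h : (s0 : ℂ) + ((-τ : ℝ) : ℂ) * Complex.I =
      (starRingEnd ℂ) ((s0 : ℂ) + τ * Complex.I) := by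
    simp
  rw [h, riemannZeta_conj, RCLike.norm_conj]

theorem zline {s0 μ0 C : ℝ} (hs1 : s0 < 1) (hμ : 0 ≤ μ0) (hC : 0 < C)
    (h : ∀ t : ℝ, 2 ≤ t → ‖riemannZeta (s0 + t * Complex.I)‖ ≤ C * t ^ μ0 * Real.log t) :
    ∃ Cz : ℝ, 0 ≤ Cz ∧ ∀ τ : ℝ,
      ‖riemannZeta (s0 + τ * Complex.I)‖ ≤ Cz * (2 + |τ|) ^ μ0 * Real.log (2 + |τ|) := by
  have hcont : Continuous (fun t : ℝ => riemannZeta (s0 + t * Complex.I)) := by
    rw [continuous_iff_continuousAt]
    intro t
    have h3 : (s0 : ℂ) + t * Complex.I ≠ 1 := by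
      intro h
      have := congrArg Complex.re h
      rw [line_re, Complex.one_re] at this
      linarith
    exact ContinuousAt.comp (f := fun t : ℝ => (s0 : ℂ) + t * Complex.I)
      (differentiableAt_riemannZeta h3).continuousAt (by fun_prop)
  obtain ⟨B, hB⟩ := (isCompact_Icc (a := (0 : ℝ)) (b := 2)).exists_bound_of_continuousOn
    hcont.continuousOn
  refine ⟨C + 2 * |B|, by positivity, ?_⟩
  have key : ∀ τ : ℝ, 0 ≤ τ →
      ‖riemannZeta (s0 + τ * Complex.I)‖ ≤ (C + 2 * |B|) * (2 + τ) ^ μ0 * Real.log (2 + τ) := by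
    intro τ hτ
    have hlog2 : 1 / 2 ≤ Real.log (2 + τ) := by
      have h3 : Real.log 2 ≤ Real.log (2 + τ) := Real.log_le_log (by norm_num) (by linarith)
      linarith [Real.log_two_gt_d9]
    have hp : 1 ≤ (2 + τ) ^ μ0 := Real.one_le_rpow (by linarith) hμ
    rcases le_or_gt 2 τ with h2 | h2
    · refine (h τ h2).trans ?_
      have h3 : τ ^ μ0 ≤ (2 + τ) ^ μ0 := Real.rpow_le_rpow hτ (by linarith) hμ
      have h4 : Real.log τ ≤ Real.log (2 + τ) := Real.log_le_log (by linarith) (by linarith)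
      have h5 : 0 ≤ Real.log τ := Real.log_nonneg (by linarith)
      have h6 : C ≤ C + 2 * |B| := by linarith [abs_nonneg B]
      have h7 : 0 ≤ τ ^ μ0 := Real.rpow_nonneg hτ _
      gcongr
    · have h3 := (hB τ ⟨hτ, h2.le⟩).trans (le_abs_self B)
      refine h3.trans ?_
      have h4 : 1 / 2 ≤ (2 + τ) ^ μ0 * Real.log (2 + τ) := by nlinarith
      have h5 := abs_nonneg B
      calc |B| = (2 * |B|) * (1 / 2) := by ring
        _ ≤ (C + 2 * |B|) * ((2 + τ) ^ μ0 * Real.log (2 + τ)) := by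
            apply mul_le_mul (by linarith) h4 (by norm_num) (by positivity)
        _ = _ := by ring
  intro τ
  rcases le_total 0 τ with h1 | h1
  · rw [abs_of_nonneg h1]; exact key τ h1
  · rw [abs_of_nonpos h1]
    have := key (-τ) (by linarith)
    rwa [zeta_neg] at this

/-- coefficients -/
noncomputable def an (D n : ℕ) : ℂ :=
  ∑ e ∈ n.divisors.filter (fun e => e ≤ D), (ArithmeticFunction.moebius e : ℂ)

theorem an_norm_le (D n : ℕ) : ‖an D n‖ ≤ n.divisors.card := by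
  unfold an
  refine (norm_sum_le _ _).trans ?_
  refine (Finset.sum_le_card_nsmul _ _ 1 fun e _ => moebius_norm_le e).trans ?_
  rw [nsmul_eq_mul, mul_one]
  exact_mod_cast Finset.card_filter_le _ _

theorem an_one {D : ℕ} (hD : 1 ≤ D) : an D 1 = 1 := by
  unfold an
  have h : (Nat.divisors 1).filter (fun e => e ≤ D) = {1} := by
    rw [Nat.divisors_one]
    ext e
    simp only [Finset.mem_filter, Finset.mem_singleton]
    constructor
    · exact fun h => h.1
    · rintro rfl; exact ⟨rfl, hD⟩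
  rw [h]
  simp

theorem an_zero {D n : ℕ} (h1 : 1 < n) (h2 : n ≤ D) : an D n = 0 := by
  unfold an
  have h : n.divisors.filter (fun e => e ≤ D) = n.divisors := by
    apply Finset.filter_true_of_mem
    intro e he
    exact (Nat.divisor_le he).trans h2
  rw [h]
  have h3 : ∑ e ∈ n.divisors, (ArithmeticFunction.moebius e : ℤ) = 0 := by
    have h4 := ArithmeticFunction.coe_zeta_mul_apply (f := ArithmeticFunction.moebius) (x := n)
    rw [ArithmeticFunction.coe_zeta_mul_moebius, ArithmeticFunction.one_apply_ne (by omega)] at h4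
    exact h4.symm
  exact_mod_cast congrArg (Int.cast : ℤ → ℂ) h3

/-- rearrangement -/
theorem rearrange (D N0 : ℕ) (F : ℕ → ℂ) :
    ∑ e ∈ Icc 1 D, (ArithmeticFunction.moebius e : ℂ) * ∑ m ∈ range (N0 / e), F (e * (m + 1)) =
      ∑ n ∈ Icc 1 N0, an D n * F n := by
  have h1 : ∀ n ∈ Icc 1 N0, an D n * F n =
      ∑ e ∈ Icc 1 D, if e ∣ n then (ArithmeticFunction.moebius e : ℂ) * F n else 0 := by
    intro n hn
    have hn1 := (Finset.mem_Icc.mp hn).1
    unfold an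
    rw [Finset.sum_mul, ← Finset.sum_filter]
    apply Finset.sum_congr
    · ext e
      simp only [Finset.mem_filter, Nat.mem_divisors, Finset.mem_Icc]
      constructor
      · rintro ⟨⟨h1, h2⟩, h3⟩
        exact ⟨⟨Nat.pos_of_dvd_of_pos h1 (by omega), h3⟩, h1⟩
      · rintro ⟨⟨h1, h2⟩, h3⟩
        exact ⟨⟨h3, by omega⟩, h2⟩
    · intro e _; rfl
  rw [Finset.sum_congr rfl h1, Finset.sum_comm]
  apply Finset.sum_congr rfl
  intro e he
  have he1 := (Finset.mem_Icc.mp he).1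
  rw [← Finset.sum_filter, ← Finset.mul_sum]
  congr 1
  symm
  apply Finset.sum_nbij' (fun n => n / e - 1) (fun m => e * (m + 1))
  · intro n hn
    simp only [Finset.mem_filter, Finset.mem_Icc] at hn
    obtain ⟨⟨h1, h2⟩, k, rfl⟩ := hn
    rw [Nat.mul_div_cancel_left _ (by omega), Finset.mem_range]
    have hk : 1 ≤ k := by
      rcases Nat.eq_zero_or_pos k with h | h
      · rw [h] at h1; omega
      · exact h
    have : k ≤ N0 / e := (Nat.le_div_iff_mul_le (by omega)).mpr (by rw [mul_comm]; exact h2)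
    omega
  · intro m hm
    simp only [Finset.mem_filter, Finset.mem_Icc]
    rw [Finset.mem_range] at hm
    refine ⟨⟨?_, ?_⟩, Dvd.intro _ rfl⟩
    · have : 0 < e * (m + 1) := Nat.mul_pos (by omega) (by omega)
      omega
    · have h3 : (m + 1) * e ≤ N0 := (Nat.le_div_iff_mul_le (by omega)).mp hm
      rw [mul_comm]; exact h3
  · intro n hn
    simp only [Finset.mem_filter, Finset.mem_Icc] at hn
    obtain ⟨⟨h1, h2⟩, k, rfl⟩ := hn
    rw [Nat.mul_div_cancel_left _ (by omega)]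
    have hk : 1 ≤ k := by
      rcases Nat.eq_zero_or_pos k with h | h
      · rw [h] at h1; omega
      · exact h
    rw [Nat.sub_add_cancel hk]
  · intro m _
    rw [Nat.mul_div_cancel_left _ (by omega), Nat.add_sub_cancel]
  · intro n hn
    simp only [Finset.mem_filter, Finset.mem_Icc] at hn
    obtain ⟨⟨h1, h2⟩, k, rfl⟩ := hn
    rw [Nat.mul_div_cancel_left _ (by omega)]
    have hk : 1 ≤ k := by
      rcases Nat.eq_zero_or_pos k with h | h
      · rw [h] at h1; omega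
      · exact h
    rw [Nat.sub_add_cancel hk]

theorem S2_le : ∑' m : ℕ, 1 / ((m : ℝ) + 1) ^ 2 ≤ 2 := by
  have h1 := hasSum_zeta_two
  have h2 : HasSum (fun m : ℕ => 1 / ((m : ℝ) + 1) ^ 2) (Real.pi ^ 2 / 6) := by
    have h3 := (hasSum_nat_add_iff' 1).mpr h1
    simp only [Finset.range_one, Finset.sum_singleton, Nat.cast_zero] at h3
    norm_num at h3
    norm_num
    exact h3
  rw [h2.tsum_eq]
  have h3 := Real.pi_lt_d2
  have h4 := Real.pi_gt_three
  nlinarith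

theorem S2_summable : Summable (fun m : ℕ => 1 / ((m : ℝ) + 1) ^ 2) := by
  have h1 := (summable_nat_add_iff 1).mpr hasSum_zeta_two.summable
  simpa using h1

/-- pointwise tail bound -/
theorem Phi_tail {K V L1 : ℝ} (hK : 2 ≤ K) {n : ℕ} (hn : 0 < n)
    (hV : V + L1 ≤ Real.log n) :
    Phi (V - Real.log n) ≤ Real.exp (K ^ 2 + 2 * V - (K - 2) * L1) * (1 / (n : ℝ) ^ 2) := by
  have hn0 : (0 : ℝ) < n := by exact_mod_cast hn
  refine (Phi_le K (by linarith) _).trans ?_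
  have h1 : 1 / (n : ℝ) ^ 2 = Real.exp (-2 * Real.log n) := by
    rw [show -2 * Real.log n = Real.log n * (-2) by ring, ← Real.rpow_def_of_pos hn0,
      Real.rpow_neg hn0.le, one_div]
    norm_num
  rw [h1, ← Real.exp_add]
  apply Real.exp_le_exp.mpr
  have h2 : (K - 2) * (V - Real.log n) ≤ (K - 2) * (-L1) :=
    mul_le_mul_of_nonneg_left (by linarith) (by linarith)
  nlinarith

theorem In_tail {ρ : ℂ} (hρ : 0 ≤ ρ.re) {K V L1 : ℝ} (hK : 2 ≤ K) {N0 e : ℕ} (he : 1 ≤ e)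
    (hN0 : 0 < N0) (hV : V + L1 ≤ Real.log N0) :
    ‖In ρ V e - ∑ m ∈ range (N0 / e), ((m : ℂ) + 1) ^ (-ρ) *
      (Phi (V - Real.log ((e * (m + 1) : ℕ) : ℝ)) : ℂ)‖ ≤
      2 * Real.exp (K ^ 2 + 2 * V - (K - 2) * L1) := by
  set f : ℕ → ℂ := fun m => ((m : ℂ) + 1) ^ (-ρ) * (Phi (V - Real.log ((e * (m + 1) : ℕ) : ℝ)) : ℂ)
    with hf
  have he0 : (0 : ℝ) < e := by exact_mod_cast he
  have hlog : ∀ m : ℕ, Real.log ((e * (m + 1) : ℕ) : ℝ) = Real.log e + Real.log ((m : ℝ) + 1) := by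
    intro m
    push_cast
    rw [Real.log_mul he0.ne' (by positivity)]
  have hIn : In ρ V e = ∑' m, f m := by
    unfold In
    apply tsum_congr
    intro m
    simp only [hf]
    rw [hlog]
    congr 3
    ring
  have hcp : ∀ m : ℕ, ‖((m : ℂ) + 1) ^ (-ρ)‖ ≤ 1 := by
    intro m
    have := norm_natCast_cpow_neg_le (d := m + 1) (by omega) hρ
    push_cast at this
    exact this
  have hfn : ∀ m, ‖f m‖ ≤ Phi (V - Real.log ((e * (m + 1) : ℕ) : ℝ)) := by
    intro m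
    simp only [hf]
    rw [norm_mul, Complex.norm_real, Real.norm_of_nonneg (Phi_nonneg _)]
    have := Phi_nonneg (V - Real.log ((e * (m + 1) : ℕ) : ℝ))
    have := hcp m
    nlinarith [norm_nonneg (((m : ℂ) + 1) ^ (-ρ))]
  set A : ℝ := Real.exp (K ^ 2 + 2 * V - (K - 2) * L1) with hA
  have htail : ∀ m : ℕ, ‖f (m + N0 / e)‖ ≤ A * (1 / ((m : ℝ) + 1) ^ 2) := by
    intro m
    refine (hfn _).trans ?_
    have h1 : N0 < e * (m + N0 / e + 1) := by
      have := Nat.lt_mul_div_succ N0 (show 0 < e by omega)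
      have h2 : e * (N0 / e + 1) ≤ e * (m + N0 / e + 1) := Nat.mul_le_mul_left _ (by omega)
      omega
    have h2 : V + L1 ≤ Real.log ((e * (m + N0 / e + 1) : ℕ) : ℝ) := by
      refine hV.trans (Real.log_le_log (by exact_mod_cast hN0) ?_)
      exact_mod_cast h1.le
    refine (Phi_tail hK (by omega) h2).trans ?_
    rw [← hA]
    have h3 : (m : ℝ) + 1 ≤ ((e * (m + N0 / e + 1) : ℕ) : ℝ) := by
      have h4 : m + 1 ≤ e * (m + N0 / e + 1) := by
        have h5 : 1 * (m + N0 / e + 1) ≤ e * (m + N0 / e + 1) := Nat.mul_le_mul_right _ he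
        have h6 : m + 1 ≤ m + N0 / e + 1 := by
          have := Nat.zero_le (N0 / e)
          linarith
        linarith
      exact_mod_cast h4
    have h5 : 0 < A := Real.exp_pos _
    gcongr
  have hsum' : Summable (fun m => f (m + N0 / e)) :=
    Summable.of_norm_bounded (S2_summable.mul_left A) htail
  have hsum : Summable f := (summable_nat_add_iff (N0 / e)).mp hsum'
  rw [hIn, ← hsum.sum_add_tsum_nat_add (N0 / e), add_sub_cancel_left]
  refine (tsum_of_norm_bounded (S2_summable.mul_left A).hasSum htail).trans ?_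
  rw [tsum_mul_left]
  have := S2_le
  have h5 : 0 < A := Real.exp_pos _
  nlinarith

/-- passing from the infinite smoothed sums to the finite one -/
theorem finite_sum {ρ : ℂ} (hρ : 0 ≤ ρ.re) {K V L1 : ℝ} (hK : 2 ≤ K) {N0 : ℕ} (D : ℕ)
    (hN0 : 0 < N0) (hV : V + L1 ≤ Real.log N0) :
    ‖∑ d ∈ Icc 1 D, (ArithmeticFunction.moebius d : ℂ) * (d : ℂ) ^ (-ρ) * In ρ V d -
      ∑ n ∈ Icc 1 N0, (an D n * (Phi (V - Real.log n) : ℂ)) * (n : ℂ) ^ (-ρ)‖ ≤
      D * (2 * Real.exp (K ^ 2 + 2 * V - (K - 2) * L1)) := by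
  have h1 := rearrange D N0 (fun n => (n : ℂ) ^ (-ρ) * (Phi (V - Real.log n) : ℂ))
  have h2 : ∑ n ∈ Icc 1 N0, (an D n * (Phi (V - Real.log n) : ℂ)) * (n : ℂ) ^ (-ρ) =
      ∑ n ∈ Icc 1 N0, an D n * ((n : ℂ) ^ (-ρ) * (Phi (V - Real.log n) : ℂ)) := by
    apply Finset.sum_congr rfl
    intro n _
    ring
  rw [h2, ← h1, ← Finset.sum_sub_distrib]
  refine (norm_sum_le _ _).trans ?_
  have h3 : ∀ e ∈ Icc 1 D, ‖(ArithmeticFunction.moebius e : ℂ) * (e : ℂ) ^ (-ρ) * In ρ V e -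
      (ArithmeticFunction.moebius e : ℂ) * ∑ m ∈ range (N0 / e),
        ((e * (m + 1) : ℕ) : ℂ) ^ (-ρ) * (Phi (V - Real.log ((e * (m + 1) : ℕ) : ℝ)) : ℂ)‖ ≤
      2 * Real.exp (K ^ 2 + 2 * V - (K - 2) * L1) := by
    intro e he
    have he1 := (Finset.mem_Icc.mp he).1
    have h4 : ∑ m ∈ range (N0 / e),
        ((e * (m + 1) : ℕ) : ℂ) ^ (-ρ) * (Phi (V - Real.log ((e * (m + 1) : ℕ) : ℝ)) : ℂ) =
        (e : ℂ) ^ (-ρ) * ∑ m ∈ range (N0 / e), ((m : ℂ) + 1) ^ (-ρ) *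
          (Phi (V - Real.log ((e * (m + 1) : ℕ) : ℝ)) : ℂ) := by
      rw [Finset.mul_sum]
      apply Finset.sum_congr rfl
      intro m _
      have h5 : ((e * (m + 1) : ℕ) : ℂ) ^ (-ρ) = (e : ℂ) ^ (-ρ) * ((m : ℂ) + 1) ^ (-ρ) := by
        have := Complex.natCast_mul_natCast_cpow e (m + 1) (-ρ)
        push_cast at this ⊢
        exact this
      rw [h5]
      ring
    rw [h4, show (ArithmeticFunction.moebius e : ℂ) * (e : ℂ) ^ (-ρ) * In ρ V e -
      (ArithmeticFunction.moebius e : ℂ) * ((e : ℂ) ^ (-ρ) * ∑ m ∈ range (N0 / e),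
        ((m : ℂ) + 1) ^ (-ρ) * (Phi (V - Real.log ((e * (m + 1) : ℕ) : ℝ)) : ℂ)) =
      ((ArithmeticFunction.moebius e : ℂ) * (e : ℂ) ^ (-ρ)) * (In ρ V e - ∑ m ∈ range (N0 / e),
        ((m : ℂ) + 1) ^ (-ρ) * (Phi (V - Real.log ((e * (m + 1) : ℕ) : ℝ)) : ℂ)) by ring, norm_mul,
      norm_mul]
    have h6 := In_tail hρ hK he1 hN0 hV
    have h7 := moebius_norm_le e
    have h8 := norm_natCast_cpow_neg_le he1 hρ
    have h9 : ‖(ArithmeticFunction.moebius e : ℂ)‖ * ‖(e : ℂ) ^ (-ρ)‖ ≤ 1 := by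
      have := norm_nonneg ((e : ℂ) ^ (-ρ))
      have := norm_nonneg (ArithmeticFunction.moebius e : ℂ)
      nlinarith
    have h10 := norm_nonneg (In ρ V e - ∑ m ∈ range (N0 / e),
        ((m : ℂ) + 1) ^ (-ρ) * (Phi (V - Real.log ((e * (m + 1) : ℕ) : ℝ)) : ℂ))
    calc _ ≤ 1 * _ := mul_le_mul_of_nonneg_right h9 h10
      _ ≤ _ := by rw [one_mul]; exact h6
  refine (Finset.sum_le_card_nsmul _ _ _ h3).trans ?_
  rw [nsmul_eq_mul]
  simp

/-- dyadic decomposition -/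
theorem dyadic (g : ℕ → ℂ) (s : ℂ) (I : ℕ) :
    ∑ n ∈ Icc 1 (2 ^ I), g n * (n : ℂ) ^ (-s) = g 1 + ∑ i ∈ range I, DP g (2 ^ i) 2 s := by
  induction I with
  | zero => simp
  | succ I ih =>
    rw [Finset.sum_range_succ, ← add_assoc, ← ih]
    unfold DP
    have h1 : Icc 1 (2 ^ (I + 1)) = Icc 1 (2 ^ I) ∪ Ioc (2 ^ I) (2 * 2 ^ I) := by
      ext n
      simp only [Finset.mem_union, Finset.mem_Icc, Finset.mem_Ioc]
      have h2 : 2 ^ (I + 1) = 2 * 2 ^ I := by ring
      have h3 : 1 ≤ 2 ^ I := Nat.one_le_two_pow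
      rw [h2]
      omega
    rw [h1, Finset.sum_union]
    rw [Finset.disjoint_left]
    intro n hn hn'
    have h2 := (Finset.mem_Icc.mp hn).2
    have h3 := (Finset.mem_Ioc.mp hn').1
    omega

end Pool.Agent.Helper26.KC
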