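import Pool.Agent.Helper26.KC.StFM

/-!
# KS, fourth moment, part 1: contour shifts in a strip, residue at zero
-/

set_option autoImplicit false
open MeasureTheory Filter Topology Finset

namespace Pool.Agent.Helper26.KC

/-- `uniform_decay` in a strip -/
theorem uniform_decay_on {L : ℂ → ℂ} {a b A H : ℝ}
    (hL : ∀ s : ℂ, a ≤ s.re → s.re ≤ b → ContinuousAt L s)
    (hA : ∀ s : ℂ, a ≤ s.re → s.re ≤ b → H ≤ |s.im| → ‖L s‖ ≤ A * (1 + s.im ^ 2)⁻¹) :
    ∃ A' : ℝ, 0 ≤ A' ∧ ∀ s : ℂ, a ≤ s.re → s.re ≤ b → ‖L s‖ ≤ A' * (1 + s.im ^ 2)⁻¹ := by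
  have hcomp : IsCompact ((Set.Icc a b) ×ℂ (Set.Icc (-H) H)) :=
    (isCompact_Icc).reProdIm isCompact_Icc
  have hcont : ContinuousOn L ((Set.Icc a b) ×ℂ (Set.Icc (-H) H)) := by
    intro s hs
    rw [Complex.mem_reProdIm] at hs
    exact (hL s hs.1.1 hs.1.2).continuousWithinAt
  obtain ⟨B, hB⟩ := hcomp.exists_bound_of_continuousOn hcont
  refine ⟨max |A| (|B| * (1 + H ^ 2)), le_max_of_le_left (abs_nonneg _), ?_⟩
  intro s h1 h2
  have hp : (0 : ℝ) < 1 + s.im ^ 2 := by positivity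
  have hp' : 0 ≤ (1 + s.im ^ 2)⁻¹ := by positivity
  rcases le_or_gt H |s.im| with h | h
  · refine (hA s h1 h2 h).trans ?_
    exact mul_le_mul_of_nonneg_right ((le_abs_self A).trans (le_max_left _ _)) hp'
  · have h3 : s ∈ (Set.Icc a b) ×ℂ (Set.Icc (-H) H) := by
      rw [Complex.mem_reProdIm]
      exact ⟨⟨h1, h2⟩, ⟨by linarith [neg_abs_le s.im], by linarith [le_abs_self s.im]⟩⟩
    have h4 := (hB s h3).trans (le_abs_self B)
    have h5 : 1 + s.im ^ 2 ≤ 1 + H ^ 2 := by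
      have : |s.im| ^ 2 ≤ H ^ 2 := pow_le_pow_left₀ (abs_nonneg _) h.le 2
      rw [sq_abs] at this
      linarith
    have h6 : 1 ≤ (1 + H ^ 2) * (1 + s.im ^ 2)⁻¹ := by
      rw [← div_eq_mul_inv, le_div_iff₀ hp]
      linarith
    calc ‖L s‖ ≤ |B| * 1 := by linarith
      _ ≤ |B| * ((1 + H ^ 2) * (1 + s.im ^ 2)⁻¹) := mul_le_mul_of_nonneg_left h6 (abs_nonneg _)
      _ = |B| * (1 + H ^ 2) * (1 + s.im ^ 2)⁻¹ := by ring
      _ ≤ _ := mul_le_mul_of_nonneg_right (le_max_right _ _) hp'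

theorem line_cont {L : ℂ → ℂ} {a b c : ℝ}
    (hL : ∀ s : ℂ, a ≤ s.re → s.re ≤ b → ContinuousAt L s) (h1 : a ≤ c) (h2 : c ≤ b) :
    Continuous (fun t : ℝ => L ((c : ℂ) + t * Complex.I)) := by
  rw [continuous_iff_continuousAt]
  intro t
  refine ContinuousAt.comp (f := fun t : ℝ => (c : ℂ) + t * Complex.I) (hL _ ?_ ?_) (by fun_prop)
  · rw [line_re]; exact h1
  · rw [line_re]; exact h2

/-- contour shift in a strip -/
theorem shift_on {L : ℂ → ℂ} {a b A H : ℝ} (hab : a ≤ b)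
    (hL : ∀ s : ℂ, a ≤ s.re → s.re ≤ b → DifferentiableAt ℂ L s)
    (hA0 : ∀ s : ℂ, a ≤ s.re → s.re ≤ b → H ≤ |s.im| → ‖L s‖ ≤ A * (1 + s.im ^ 2)⁻¹) :
    ∫ t : ℝ, L ((b : ℂ) + t * Complex.I) = ∫ t : ℝ, L ((a : ℂ) + t * Complex.I) := by
  have hLc : ∀ s : ℂ, a ≤ s.re → s.re ≤ b → ContinuousAt L s := fun s h1 h2 =>
    (hL s h1 h2).continuousAt
  obtain ⟨A', hA', hA⟩ := uniform_decay_on hLc hA0
  have hdec : Tendsto (fun T : ℝ => A' * (1 + T ^ 2)⁻¹ * |b - a|) atTop (𝓝 0) := by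
    have := (inv_one_add_sq_tendsto.const_mul A').mul_const |b - a|
    simpa using this
  have hup : Tendsto (fun T : ℝ => ∫ x : ℝ in a..b, L (x + (T : ℝ) * Complex.I)) atTop (𝓝 0) := by
    refine squeeze_zero_norm (fun T => ?_) hdec
    refine intervalIntegral.norm_integral_le_of_norm_le_const fun x hx => ?_
    rw [Set.uIoc_of_le hab] at hx
    have := hA (x + T * Complex.I) (by rw [line_re]; exact hx.1.le) (by rw [line_re]; exact hx.2)
    rwa [line_im] at this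
  have hdown : Tendsto (fun T : ℝ => ∫ x : ℝ in a..b, L (x + ((-T : ℝ) : ℂ) * Complex.I)) atTop
      (𝓝 0) := by
    refine squeeze_zero_norm (fun T => ?_) hdec
    refine intervalIntegral.norm_integral_le_of_norm_le_const fun x hx => ?_
    rw [Set.uIoc_of_le hab] at hx
    have := hA (x + ((-T : ℝ) : ℂ) * Complex.I) (by rw [line_re]; exact hx.1.le)
      (by rw [line_re]; exact hx.2)
    rwa [line_im, neg_sq] at this
  have hv2 := intervalIntegral_tendsto_integral (line_integrable (line_cont hLc hab le_rfl) hA hab le_rfl)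
    tendsto_neg_atTop_atBot tendsto_id
  have hv1 := intervalIntegral_tendsto_integral (line_integrable (line_cont hLc le_rfl hab) hA le_rfl hab)
    tendsto_neg_atTop_atBot tendsto_id
  have hrect : ∀ T : ℝ, (∫ x : ℝ in a..b, L (x + ((-T : ℝ) : ℂ) * Complex.I)) -
      (∫ x : ℝ in a..b, L (x + (T : ℂ) * Complex.I)) +
      Complex.I * (∫ y : ℝ in (-T)..T, L (b + y * Complex.I)) -
      Complex.I * (∫ y : ℝ in (-T)..T, L (a + y * Complex.I)) = 0 := by
    intro T
    have hd : DifferentiableOn ℂ L (Set.uIcc ((a : ℂ) + ((-T : ℝ) : ℂ) * Complex.I).re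
        ((b : ℂ) + (T : ℂ) * Complex.I).re ×ℂ Set.uIcc ((a : ℂ) + ((-T : ℝ) : ℂ) * Complex.I).im
        ((b : ℂ) + (T : ℂ) * Complex.I).im) := by
      intro s hs
      rw [Complex.mem_reProdIm, line_re, line_re, Set.uIcc_of_le hab] at hs
      exact (hL s hs.1.1 hs.1.2).differentiableWithinAt
    have := Complex.integral_boundary_rect_eq_zero_of_differentiableOn L
      (a + ((-T : ℝ) : ℂ) * Complex.I) (b + (T : ℂ) * Complex.I) hd
    simpa only [line_re, line_im, smul_eq_mul] using this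
  have hlim := ((hdown.sub hup).add (hv2.const_mul Complex.I)).sub (hv1.const_mul Complex.I)
  simp only [id_eq] at hlim
  have hz : Tendsto (fun T : ℝ => (0 : ℂ)) atTop (𝓝 (0 - 0 + Complex.I *
      (∫ t : ℝ, L (b + t * Complex.I)) - Complex.I * ∫ t : ℝ, L (a + t * Complex.I))) := by
    refine hlim.congr fun T => ?_
    exact hrect T
  have heq := tendsto_nhds_unique tendsto_const_nhds hz
  have hI := Complex.I_ne_zero
  have : Complex.I * (∫ t : ℝ, L (b + t * Complex.I)) =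
      Complex.I * ∫ t : ℝ, L (a + t * Complex.I) := by
    linear_combination -heq
  exact mul_left_cancel₀ hI this

theorem gd_neg (z : ℝ) : gd (-z) = gd z := by
  unfold gd; rw [neg_sq]

theorem Phi_zero : Phi 0 = 1 / 2 := by
  have h1 : 1 - Phi 0 = Phi 0 := by
    rw [one_sub_Phi]
    unfold Phi
    have h2 : ∫ y in Set.Iic (0 : ℝ), gd (0 - y) = ∫ y in Set.Ioi (-0 : ℝ), gd (0 - -y) := by
      rw [integral_comp_neg_Ioi (-0 : ℝ) (fun y => gd (0 - y)), neg_neg]
    rw [h2, neg_zero]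
    congr 1
    funext y
    rw [zero_sub, neg_neg, zero_sub, gd_neg]
  linarith

/-- the kernel `e^(w^2)/w` on a vertical line to the right -/
theorem ker_pos {c : ℝ} (hc : 0 < c) :
    ∫ t : ℝ, Complex.exp (((c : ℂ) + t * Complex.I) ^ 2) / ((c : ℂ) + t * Complex.I) = Real.pi := by
  have h := mellin_Phi hc 0
  rw [Phi_zero] at h
  have h2 : ∀ t : ℝ, Complex.exp (((c : ℂ) + t * Complex.I) * ((0 : ℝ) : ℂ) +
      ((c : ℂ) + t * Complex.I) ^ 2) / ((c : ℂ) + t * Complex.I) =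
      Complex.exp (((c : ℂ) + t * Complex.I) ^ 2) / ((c : ℂ) + t * Complex.I) := by
    intro t
    rw [Complex.ofReal_zero, mul_zero, zero_add]
  simp_rw [h2] at h
  rw [h]
  push_cast
  ring

theorem ker_neg {c : ℝ} (hc : c < 0) :
    ∫ t : ℝ, Complex.exp (((c : ℂ) + t * Complex.I) ^ 2) / ((c : ℂ) + t * Complex.I) = -Real.pi := by
  have h := ker_pos (c := -c) (by linarith)
  have h2 : ∀ t : ℝ, Complex.exp (((c : ℂ) + t * Complex.I) ^ 2) / ((c : ℂ) + t * Complex.I) =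
      -(Complex.exp ((((-c : ℝ) : ℂ) + ((-t : ℝ) : ℂ) * Complex.I) ^ 2) /
        (((-c : ℝ) : ℂ) + ((-t : ℝ) : ℂ) * Complex.I)) := by
    intro t
    have e : (((-c : ℝ) : ℂ) + ((-t : ℝ) : ℂ) * Complex.I) = -((c : ℂ) + t * Complex.I) := by
      push_cast; ring
    rw [e, neg_sq, div_neg, neg_neg]
  simp_rw [h2]
  rw [integral_neg, integral_neg_eq_self (fun t : ℝ =>
    Complex.exp ((((-c : ℝ) : ℂ) + (t : ℂ) * Complex.I) ^ 2) / (((-c : ℝ) : ℂ) + (t : ℂ) * Complex.I)), h]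

theorem norm_exp_sq (s : ℂ) : ‖Complex.exp (s ^ 2)‖ = Real.exp (s.re ^ 2) * Real.exp (-s.im ^ 2) := by
  rw [Complex.norm_exp, ← Real.exp_add]
  congr 1
  simp [pow_two]
  ring

theorem exp_neg_sq_le (y : ℝ) : Real.exp (-y ^ 2) ≤ (1 + y ^ 2)⁻¹ := by
  rw [Real.exp_neg]
  apply inv_anti₀ (by positivity)
  linarith [Real.add_one_le_exp (y ^ 2)]

/-- residue at zero -/
theorem residue_zero {F : ℂ → ℂ} (hF : Differentiable ℂ F) {a b A H : ℝ} (ha : a < 0) (hb : 0 < b)
    (hA0 : ∀ s : ℂ, a ≤ s.re → s.re ≤ b → H ≤ |s.im| → ‖F s‖ ≤ A * (1 + s.im ^ 2)⁻¹) :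
    (∫ t : ℝ, F ((b : ℂ) + t * Complex.I) / ((b : ℂ) + t * Complex.I)) -
      (∫ t : ℝ, F ((a : ℂ) + t * Complex.I) / ((a : ℂ) + t * Complex.I)) = 2 * Real.pi * F 0 := by
  obtain ⟨A', hA', hA⟩ := uniform_decay hF.continuous hA0
  set E : ℂ → ℂ := fun s => Complex.exp (s ^ 2) with hE
  have hEd : Differentiable ℂ E := by rw [hE]; fun_prop
  set R : ℝ := Real.exp ((|a| + |b|) ^ 2) with hR
  have hEA : ∀ s : ℂ, a ≤ s.re → s.re ≤ b → ‖E s‖ ≤ R * (1 + s.im ^ 2)⁻¹ := by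
    intro s h1 h2
    simp only [hE]
    rw [norm_exp_sq]
    apply mul_le_mul _ (exp_neg_sq_le _) (Real.exp_pos _).le (Real.exp_pos _).le
    apply Real.exp_le_exp.mpr
    have h3 : |s.re| ≤ |a| + |b| := by
      rw [abs_le]
      constructor
      · linarith [neg_abs_le a, abs_nonneg b]
      · linarith [le_abs_self b, abs_nonneg a]
    calc s.re ^ 2 = |s.re| ^ 2 := (sq_abs _).symm
      _ ≤ _ := pow_le_pow_left₀ (abs_nonneg _) h3 2
  set K : ℂ → ℂ := fun s => F s - F 0 * E s with hK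
  have hKd : Differentiable ℂ K := by
    rw [hK]
    exact hF.sub (hEd.const_mul _)
  have hK1 : K 0 = 0 := by simp [hK, hE]
  set L : ℂ → ℂ := dslope K 0 with hL
  have hLd : Differentiable ℂ L := by
    rw [hL, ← differentiableOn_univ, Complex.differentiableOn_dslope univ_mem, differentiableOn_univ]
    exact hKd
  have hLne : ∀ s : ℂ, s ≠ 0 → L s = F s / s - F 0 * (E s / s) := by
    intro s hs
    rw [hL, dslope_of_ne _ hs, slope_def_field, hK1]
    simp only [hK, sub_zero]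
    ring
  have hLb : ∀ s : ℂ, a ≤ s.re → s.re ≤ b → 1 ≤ |s.im| →
      ‖L s‖ ≤ (A' + ‖F 0‖ * R) * (1 + s.im ^ 2)⁻¹ := by
    intro s h1 h2 h3
    have h4 : 1 ≤ ‖s‖ := h3.trans (Complex.abs_im_le_norm s)
    have h5 : s ≠ 0 := by
      intro h
      rw [h, norm_zero] at h4
      linarith
    have h6 : L s = K s / s := by
      rw [hL, dslope_of_ne _ h5, slope_def_field, hK1, sub_zero, sub_zero]
    rw [h6, norm_div]
    have h7 : ‖K s‖ ≤ (A' + ‖F 0‖ * R) * (1 + s.im ^ 2)⁻¹ := by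
      simp only [hK]
      refine (norm_sub_le _ _).trans ?_
      rw [norm_mul]
      have h8 := hA s h1 h2
      have h9 := mul_le_mul_of_nonneg_left (hEA s h1 h2) (norm_nonneg (F 0))
      linarith
    exact (div_le_self (norm_nonneg _) h4).trans h7
  have hsh := shift hLd (by linarith : a ≤ b) hLb
  have hline : ∀ c : ℝ, a ≤ c → c ≤ b → c ≠ 0 →
      ∫ t : ℝ, L ((c : ℂ) + t * Complex.I) =
        (∫ t : ℝ, F ((c : ℂ) + t * Complex.I) / ((c : ℂ) + t * Complex.I)) -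
        F 0 * ∫ t : ℝ, E ((c : ℂ) + t * Complex.I) / ((c : ℂ) + t * Complex.I) := by
    intro c hc1 hc2 hc3
    have hdist : ∀ t : ℝ, |c| ≤ ‖(c : ℂ) + t * Complex.I‖ := by
      intro t
      have h5 := Complex.abs_re_le_norm ((c : ℂ) + t * Complex.I)
      rwa [line_re] at h5
    have hc0 : 0 < |c| := abs_pos.mpr hc3
    have hne : ∀ t : ℝ, (c : ℂ) + t * Complex.I ≠ 0 := by
      intro t h
      have := hdist t
      rw [h, norm_zero] at this
      linarith
    have hgen : ∀ (G : ℂ → ℂ) (B : ℝ), Continuous G →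
        (∀ s : ℂ, a ≤ s.re → s.re ≤ b → ‖G s‖ ≤ B * (1 + s.im ^ 2)⁻¹) →
        Integrable (fun t : ℝ => G ((c : ℂ) + t * Complex.I) / ((c : ℂ) + t * Complex.I)) := by
      intro G B hG hB
      refine (integrable_inv_one_add_sq.const_mul (B / |c|)).mono' ?_ (Eventually.of_forall fun t => ?_)
      · refine Continuous.aestronglyMeasurable ?_
        exact (hG.comp (by fun_prop)).div (by fun_prop) hne
      · have h1 := hB ((c : ℂ) + t * Complex.I) (by rw [line_re]; exact hc1)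
          (by rw [line_re]; exact hc2)
        rw [line_im] at h1
        rw [norm_div, div_mul_eq_mul_div]
        exact div_le_div₀ ((norm_nonneg _).trans h1) h1 hc0 (hdist t)
    have i1 := hgen F A' hF.continuous hA
    have i2 := hgen E R hEd.continuous hEA
    have h1 : ∀ t : ℝ, L ((c : ℂ) + t * Complex.I) =
        F ((c : ℂ) + t * Complex.I) / ((c : ℂ) + t * Complex.I) -
        F 0 * (E ((c : ℂ) + t * Complex.I) / ((c : ℂ) + t * Complex.I)) := fun t => hLne _ (hne t)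
    simp_rw [h1]
    rw [integral_sub i1 (i2.const_mul _), integral_const_mul]
  rw [hline b (by linarith) le_rfl hb.ne', hline a le_rfl (by linarith) ha.ne] at hsh
  simp only [hE] at hsh
  rw [ker_pos hb, ker_neg ha] at hsh
  linear_combination hsh

end Pool.Agent.Helper26.KC
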