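import Pool.Agent.Helper26.KC.F1

/-!
# KS, fourth moment, part 2: the identity between two vertical lines
-/

set_option autoImplicit false
open MeasureTheory Filter Topology Finset

namespace Pool.Agent.Helper26.KC

open Pool.Agent.Helper1.KSZ (FF)
open Pool.Agent.Helper69.QRH

theorem feq {z : ℂ} (h0 : 0 < z.re) (h1 : z ≠ 1) :
    riemannZeta (1 - z) = 2 * (2 * Real.pi : ℂ) ^ (-z) * FF z * riemannZeta z := by
  rw [riemannZeta_one_sub (fun n hn => ?_) h1]
  · unfold FF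
    ring
  · have := congrArg Complex.re hn
    simp at this
    have h2 : (0 : ℝ) ≤ n := Nat.cast_nonneg n
    linarith

theorem norm_two_pi_cpow {z : ℂ} (h0 : 0 ≤ z.re) : ‖(2 * Real.pi : ℂ) ^ (-z)‖ ≤ 1 := by
  have h1 : (2 * Real.pi : ℂ) = ((2 * Real.pi : ℝ) : ℂ) := by push_cast; ring
  rw [h1, Complex.norm_cpow_eq_rpow_re_of_pos (by positivity)]
  apply Real.rpow_le_one_of_one_le_of_nonpos
  · linarith [Real.pi_gt_three]
  · simpa using h0

/-- growth of `(s-1)ζ(s)` in `Re s ≥ -1/4` -/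
theorem growth4 (hff : FMff) : ∃ C : ℝ, 0 < C ∧ ∀ z : ℂ, -(1 / 4) ≤ z.re → 1 ≤ |z.im| →
    ‖EZ z‖ ≤ C * (1 + ‖z‖) ^ 4 := by
  obtain ⟨CE, hCE0, hCE⟩ := EZ_growth
  obtain ⟨CF, hCF0, hCF⟩ := hff
  refine ⟨CE + 8 * CF * CE, by positivity, fun z hz him => ?_⟩
  have hz0 := norm_nonneg z
  rcases le_or_gt (2 / 7) z.re with h | h
  · refine (hCE z h).trans ?_
    have h1 : (1 + ‖z‖) ^ 2 ≤ (1 + ‖z‖) ^ 4 := pow_le_pow_right₀ (by linarith) (by norm_num)
    have h2 : (0 : ℝ) ≤ (1 + ‖z‖) ^ 4 := by positivity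
    have h3 : 0 ≤ 8 * CF * CE * (1 + ‖z‖) ^ 4 := by positivity
    nlinarith
  · set z' : ℂ := 1 - z with hz'
    have hre : z'.re = 1 - z.re := by simp [hz']
    have himz : z'.im = -z.im := by simp [hz']
    have hzz : z = 1 - z' := by rw [hz']; ring
    have h1 : z' ≠ 1 := by
      intro h1
      have := congrArg Complex.im h1
      rw [himz, Complex.one_im] at this
      have h2 : z.im = 0 := by linarith
      rw [h2, abs_zero] at him
      linarith
    have hz1 : z ≠ 1 := by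
      intro h1
      rw [h1, Complex.one_im, abs_zero] at him
      linarith
    have e1 : ‖FF z'‖ ≤ CF * (1 + ‖z‖) := by
      have h2 := hCF z'.re z'.im (by rw [hre]; linarith) (by rw [hre]; linarith)
      rw [Complex.re_add_im] at h2
      refine h2.trans ?_
      apply mul_le_mul_of_nonneg_left _ hCF0.le
      have h3 : 1 + |z'.im| ≤ 1 + ‖z‖ := by
        rw [himz, abs_neg]
        linarith [Complex.abs_im_le_norm z]
      calc (1 + |z'.im|) ^ (z'.re - 1 / 2) ≤ (1 + |z'.im|) ^ (1 : ℝ) :=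
            Real.rpow_le_rpow_of_exponent_le (by linarith [abs_nonneg z'.im]) (by rw [hre]; linarith)
        _ = 1 + |z'.im| := Real.rpow_one _
        _ ≤ _ := h3
    have hn' : ‖z'‖ ≤ 1 + ‖z‖ := by
      rw [hz']
      exact (norm_sub_le _ _).trans (by rw [norm_one])
    have e2 : ‖riemannZeta z'‖ ≤ CE * (2 + ‖z‖) ^ 2 := by
      have h2 := hCE z' (by rw [hre]; linarith)
      rw [EZ_eq h1, norm_mul] at h2
      have h3 : 1 ≤ ‖z' - 1‖ := by
        have := Complex.abs_im_le_norm (z' - 1)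
        rw [Complex.sub_im, Complex.one_im, sub_zero, himz, abs_neg] at this
        linarith
      have h4 : ‖riemannZeta z'‖ ≤ ‖z' - 1‖ * ‖riemannZeta z'‖ :=
        le_mul_of_one_le_left (norm_nonneg _) h3
      have h5 : (1 + ‖z'‖) ^ 2 ≤ (2 + ‖z‖) ^ 2 := by
        apply pow_le_pow_left₀ (by positivity)
        linarith
      calc _ ≤ _ := h4
        _ ≤ _ := h2
        _ ≤ _ := by gcongr
    have e3 : ‖EZ z‖ = ‖z - 1‖ * (2 * ‖(2 * Real.pi : ℂ) ^ (-z')‖ * ‖FF z'‖ * ‖riemannZeta z'‖) := by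
      rw [EZ_eq hz1, norm_mul]
      congr 1
      rw [hzz, feq (by rw [hre]; linarith) h1]
      simp only [norm_mul, Complex.norm_ofNat]
    have e4 : ‖z - 1‖ ≤ 1 + ‖z‖ := (norm_sub_le _ _).trans (by rw [norm_one]; linarith)
    have e5 := norm_two_pi_cpow (z := z') (by rw [hre]; linarith)
    rw [e3]
    have h6 : (2 + ‖z‖) ^ 2 ≤ 4 * (1 + ‖z‖) ^ 2 := by nlinarith
    calc ‖z - 1‖ * (2 * ‖(2 * Real.pi : ℂ) ^ (-z')‖ * ‖FF z'‖ * ‖riemannZeta z'‖)
        ≤ (1 + ‖z‖) * (2 * 1 * (CF * (1 + ‖z‖)) * (CE * (2 + ‖z‖) ^ 2)) := by gcongr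
      _ ≤ (1 + ‖z‖) * (2 * 1 * (CF * (1 + ‖z‖)) * (CE * (4 * (1 + ‖z‖) ^ 2))) := by gcongr
      _ = 8 * CF * CE * (1 + ‖z‖) ^ 4 := by ring
      _ ≤ (CE + 8 * CF * CE) * (1 + ‖z‖) ^ 4 := by
          have : 0 ≤ CE * (1 + ‖z‖) ^ 4 := by positivity
          nlinarith

theorem exp_bound_four (R y : ℝ) :
    (R + |y|) ^ 4 * Real.exp (-(y ^ 2)) ≤ (64 * (R ^ 2 + 1)) ^ 2 * (1 + y ^ 2)⁻¹ := by
  have h1 := exp_bound_aux' R y
  have h2 : 0 ≤ (R + |y|) ^ 2 * Real.exp (-(y ^ 2 / 4)) := by positivity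
  have h3 := pow_le_pow_left₀ h2 h1 2
  have h4 : Real.exp (-(y ^ 2)) ≤ Real.exp (-(y ^ 2 / 4)) ^ 2 := by
    rw [← Real.exp_nat_mul]
    apply Real.exp_le_exp.mpr
    push_cast
    nlinarith [sq_nonneg y]
  have h5 : (1 + y ^ 2)⁻¹ ^ 2 ≤ (1 + y ^ 2)⁻¹ := by
    have h6 : (1 + y ^ 2)⁻¹ ≤ 1 := inv_le_one_of_one_le₀ (by nlinarith [sq_nonneg y])
    have h7 : 0 ≤ (1 + y ^ 2)⁻¹ := by positivity
    nlinarith
  calc (R + |y|) ^ 4 * Real.exp (-(y ^ 2)) ≤ (R + |y|) ^ 4 * Real.exp (-(y ^ 2 / 4)) ^ 2 := by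
        gcongr
    _ = ((R + |y|) ^ 2 * Real.exp (-(y ^ 2 / 4))) ^ 2 := by ring
    _ ≤ (64 * (R ^ 2 + 1) * (1 + y ^ 2)⁻¹) ^ 2 := h3
    _ = (64 * (R ^ 2 + 1)) ^ 2 * (1 + y ^ 2)⁻¹ ^ 2 := by ring
    _ ≤ _ := by gcongr

theorem norm_expVw (V : ℝ) (w : ℂ) : ‖Complex.exp (w * V + w ^ 2)‖ =
    Real.exp (w.re * V + w.re ^ 2) * Real.exp (-w.im ^ 2) := by
  rw [Complex.norm_exp, ← Real.exp_add]
  congr 1
  simp [pow_two]
  ring

/-- the integrand -/
noncomputable def Ig (s : ℂ) (V : ℝ) (w : ℂ) : ℂ :=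
  riemannZeta (s + w) * Complex.exp (w * V + w ^ 2) / w

/-- the identity, with a small error from the pole of zeta -/
theorem two_lines (hff : FMff) (t V : ℝ) (hV : 0 ≤ V) :
    2 * Real.pi * ‖riemannZeta (1 / 2 + (t : ℂ) * Complex.I)‖ ≤
      ‖∫ v : ℝ, Ig (1 / 2 + (t : ℂ) * Complex.I) V (((2 : ℝ) : ℂ) + v * Complex.I)‖ +
      ‖∫ v : ℝ, Ig (1 / 2 + (t : ℂ) * Complex.I) V (((-(3 / 4) : ℝ) : ℂ) + v * Complex.I)‖ +
      2400 * Real.exp (V / 2 - t ^ 2) := by
  obtain ⟨CG, hCG0, hCG⟩ := growth4 hff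
  set s : ℂ := 1 / 2 + (t : ℂ) * Complex.I with hs
  have hsre : s.re = 1 / 2 := by simp [hs]
  have hsim : s.im = t := by simp [hs]
  set s1 : ℂ := 1 - s with hs1
  have hs1re : s1.re = 1 / 2 := by rw [hs1, Complex.sub_re, hsre, Complex.one_re]; norm_num
  have hs1im : s1.im = -t := by rw [hs1, Complex.sub_im, hsim, Complex.one_im, zero_sub]
  have hs1n : 1 / 2 ≤ ‖s1‖ := by
    have := Complex.abs_re_le_norm s1
    rw [hs1re, abs_of_pos (by norm_num)] at this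
    exact this
  have hs1ne : s1 ≠ 0 := by
    intro h; rw [h, norm_zero] at hs1n; linarith
  set H : ℂ → ℂ := fun w => EZ (s + w) * Complex.exp (w * V + w ^ 2) with hH
  have hHd : Differentiable ℂ H := by
    rw [hH]
    refine Differentiable.mul ?_ (by fun_prop)
    exact EZ_differentiable.comp (by fun_prop)
  have hdecay : ∀ w : ℂ, (-(3 / 4) : ℝ) ≤ w.re → w.re ≤ 2 → |t| + 1 ≤ |w.im| →
      ‖H w‖ ≤ (CG * Real.exp (2 * V + 4) * (64 * ((4 + ‖s‖) ^ 2 + 1)) ^ 2) * (1 + w.im ^ 2)⁻¹ := by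
    intro w h1 h2 h3
    have e1 : ‖EZ (s + w)‖ ≤ CG * (4 + ‖s‖ + |w.im|) ^ 4 := by
      refine (hCG (s + w) ?_ ?_).trans ?_
      · rw [Complex.add_re, hsre]; linarith
      · rw [Complex.add_im, hsim]
        have := abs_sub_abs_le_abs_sub w.im (-t)
        rw [abs_neg, sub_neg_eq_add, add_comm w.im t] at this
        linarith
      · apply mul_le_mul_of_nonneg_left _ hCG0.le
        have h4 : ‖w‖ ≤ 2 + |w.im| := by
          refine (Complex.norm_le_abs_re_add_abs_im w).trans ?_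
          have : |w.re| ≤ 2 := by rw [abs_le]; constructor <;> linarith
          linarith
        have h5 := norm_add_le s w
        apply pow_le_pow_left₀ (by positivity)
        linarith
    have e3 : ‖Complex.exp (w * V + w ^ 2)‖ ≤ Real.exp (2 * V + 4) * Real.exp (-(w.im ^ 2)) := by
      rw [norm_expVw]
      apply mul_le_mul_of_nonneg_right _ (Real.exp_pos _).le
      apply Real.exp_le_exp.mpr
      have h5 : w.re * V ≤ 2 * V := mul_le_mul_of_nonneg_right h2 hV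
      have h4 : w.re ^ 2 ≤ 4 := by nlinarith
      linarith
    have e4 := exp_bound_four (4 + ‖s‖) w.im
    calc ‖H w‖ = ‖EZ (s + w)‖ * ‖Complex.exp (w * V + w ^ 2)‖ := by simp only [hH, norm_mul]
      _ ≤ (CG * (4 + ‖s‖ + |w.im|) ^ 4) * (Real.exp (2 * V + 4) * Real.exp (-(w.im ^ 2))) := by
          gcongr
      _ = CG * Real.exp (2 * V + 4) * ((4 + ‖s‖ + |w.im|) ^ 4 * Real.exp (-(w.im ^ 2))) := by ring
      _ ≤ CG * Real.exp (2 * V + 4) * ((64 * ((4 + ‖s‖) ^ 2 + 1)) ^ 2 * (1 + w.im ^ 2)⁻¹) := by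
          gcongr
      _ = _ := by ring
  have hpole := shift_pole hHd (a := -(3 / 4)) (b := 2) (s1 := s1) (by norm_num)
    (by rw [hs1re]; norm_num [abs_of_neg]) (by rw [hs1re]; norm_num)
    (by rw [hs1re]; norm_num [abs_of_neg]) (by rw [hs1re]; norm_num) hdecay
  have hres := residue_zero hHd (a := -(3 / 4)) (b := 2) (by norm_num) (by norm_num) hdecay
  obtain ⟨A', hA', hA⟩ := uniform_decay hHd.continuous hdecay
  have hline : ∀ c : ℝ, -(3 / 4) ≤ c → c ≤ 2 → 3 / 4 ≤ |c| → 1 ≤ |c - 1 / 2| →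
      ∫ v : ℝ, Ig s V ((c : ℂ) + v * Complex.I) =
        (1 / s1) * ((∫ v : ℝ, H ((c : ℂ) + v * Complex.I) / ((c : ℂ) + v * Complex.I - s1)) -
          ∫ v : ℝ, H ((c : ℂ) + v * Complex.I) / ((c : ℂ) + v * Complex.I)) := by
    intro c hc1 hc2 hc3 hc4
    have hgen : ∀ z0 : ℂ, (∀ v : ℝ, 3 / 4 ≤ ‖(c : ℂ) + v * Complex.I - z0‖) →
        Integrable (fun v : ℝ => H ((c : ℂ) + v * Complex.I) / ((c : ℂ) + v * Complex.I - z0)) := by
      intro z0 hz0
      refine (integrable_inv_one_add_sq.const_mul (A' / (3 / 4))).mono' ?_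
        (Eventually.of_forall fun v => ?_)
      · refine Continuous.aestronglyMeasurable ?_
        refine (hHd.continuous.comp (by fun_prop)).div (by fun_prop) fun v h => ?_
        have := hz0 v
        rw [h, norm_zero] at this
        linarith
      · have h1 := hA ((c : ℂ) + v * Complex.I) (by rw [line_re]; exact hc1)
          (by rw [line_re]; exact hc2)
        rw [line_im] at h1
        rw [norm_div, div_mul_eq_mul_div]
        exact div_le_div₀ ((norm_nonneg _).trans h1) h1 (by norm_num) (hz0 v)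
    have d1 : ∀ v : ℝ, 3 / 4 ≤ ‖(c : ℂ) + v * Complex.I - s1‖ := by
      intro v
      have h5 := Complex.abs_re_le_norm ((c : ℂ) + v * Complex.I - s1)
      rw [Complex.sub_re, line_re, hs1re] at h5
      linarith
    have d2 : ∀ v : ℝ, 3 / 4 ≤ ‖(c : ℂ) + v * Complex.I - 0‖ := by
      intro v
      have h5 := Complex.abs_re_le_norm ((c : ℂ) + v * Complex.I)
      rw [line_re] at h5
      rw [sub_zero]
      linarith
    have i1 := hgen s1 d1
    have i2 := hgen 0 d2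
    simp_rw [sub_zero] at i2 d2
    rw [← integral_sub i1 i2, ← integral_const_mul]
    apply integral_congr_ae
    refine Eventually.of_forall fun v => ?_
    have n1 : (c : ℂ) + v * Complex.I - s1 ≠ 0 := by
      intro h; have := d1 v; rw [h, norm_zero] at this; linarith
    have n2 : (c : ℂ) + v * Complex.I ≠ 0 := by
      intro h; have := d2 v; rw [h, norm_zero] at this; linarith
    have n3 : s + ((c : ℂ) + v * Complex.I) ≠ 1 := by
      intro h
      apply n1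
      rw [hs1, ← h]; ring
    have e5 : s + ((c : ℂ) + v * Complex.I) - 1 = (c : ℂ) + v * Complex.I - s1 := by rw [hs1]; ring
    simp only [Ig, hH]
    rw [EZ_eq n3, e5]
    field_simp
    ring
  have l2 := hline 2 (by norm_num) le_rfl (by norm_num) (by norm_num)
  have l3 := hline (-(3 / 4)) le_rfl (by norm_num) (by norm_num [abs_of_neg]) (by norm_num [abs_of_neg])
  have hH0 : H 0 = -s1 * riemannZeta s := by
    have hs_ne : s ≠ 1 := by
      intro h
      have := congrArg Complex.re h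
      rw [hsre, Complex.one_re] at this
      norm_num at this
    simp only [hH, add_zero, zero_mul, ne_eq, OfNat.ofNat_ne_zero, not_false_eq_true, zero_pow,
      Complex.exp_zero, mul_one]
    rw [EZ_eq hs_ne, hs1]
    ring
  have hHs1 : ‖H s1‖ ≤ 2 * Real.exp (V / 2 - t ^ 2) := by
    have h1 : s + s1 = 1 := by rw [hs1]; ring
    simp only [hH]
    rw [h1, EZ_one, one_mul, norm_expVw, hs1re, hs1im, neg_sq]
    have h2 : Real.exp (1 / 2 * V + (1 / 2) ^ 2) * Real.exp (-t ^ 2) =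
        Real.exp (1 / 4) * Real.exp (V / 2 - t ^ 2) := by
      rw [← Real.exp_add, ← Real.exp_add]
      congr 1
      ring
    rw [h2]
    have h3 : Real.exp (1 / 4) ≤ 2 := by
      have h4 := Real.exp_one_lt_d9
      have h5 : Real.exp (1 / 4) ≤ Real.exp (1 / 4) ^ 4 := by
        have h6 : 1 ≤ Real.exp (1 / 4) := Real.one_le_exp (by norm_num)
        calc Real.exp (1 / 4) = Real.exp (1 / 4) ^ 1 := (pow_one _).symm
          _ ≤ _ := pow_le_pow_right₀ h6 (by norm_num)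
      have h6 : Real.exp (1 / 4) ^ 4 = Real.exp 1 := by
        rw [← Real.exp_nat_mul]; norm_num
      by_contra hcon
      push Not at hcon
      have h7 : (2 : ℝ) ^ 4 ≤ Real.exp (1 / 4) ^ 4 := pow_le_pow_left₀ (by norm_num) hcon.le 4
      rw [h6] at h7
      linarith
    exact mul_le_mul_of_nonneg_right h3 (Real.exp_pos _).le
  set I2 := ∫ v : ℝ, Ig s V (((2 : ℝ) : ℂ) + v * Complex.I) with hI2
  set I3 := ∫ v : ℝ, Ig s V (((-(3 / 4) : ℝ) : ℂ) + v * Complex.I) with hI3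
  set P2 := ∫ v : ℝ, H (((2 : ℝ) : ℂ) + v * Complex.I) / (((2 : ℝ) : ℂ) + v * Complex.I - s1)
  set P3 := ∫ v : ℝ, H (((-(3 / 4) : ℝ) : ℂ) + v * Complex.I) / (((-(3 / 4) : ℝ) : ℂ) + v * Complex.I - s1)
  set Q2 := ∫ v : ℝ, H (((2 : ℝ) : ℂ) + v * Complex.I) / (((2 : ℝ) : ℂ) + v * Complex.I)
  set Q3 := ∫ v : ℝ, H (((-(3 / 4) : ℝ) : ℂ) + v * Complex.I) / (((-(3 / 4) : ℝ) : ℂ) + v * Complex.I)
  have hkey : 2 * (Real.pi : ℂ) * riemannZeta s = I2 - I3 - (P2 - P3) / s1 := by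
    have hq : (Q2 - Q3) / s1 = -(2 * Real.pi * riemannZeta s) := by
      rw [hres, hH0, div_eq_iff hs1ne]; ring
    calc 2 * (Real.pi : ℂ) * riemannZeta s = -((Q2 - Q3) / s1) := by rw [hq]; ring
      _ = 1 / s1 * (P2 - Q2) - 1 / s1 * (P3 - Q3) - (P2 - P3) / s1 := by ring
      _ = I2 - I3 - (P2 - P3) / s1 := by rw [l2, l3]
  have hn : 2 * Real.pi * ‖riemannZeta s‖ = ‖2 * (Real.pi : ℂ) * riemannZeta s‖ := by
    rw [norm_mul, norm_mul, Complex.norm_real, Complex.norm_ofNat, Real.norm_of_nonneg Real.pi_pos.le]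
  rw [hn, hkey]
  have h1 : ‖(P2 - P3) / s1‖ ≤ 2400 * Real.exp (V / 2 - t ^ 2) := by
    rw [norm_div, div_le_iff₀ (by linarith)]
    have h2 : ‖P2 - P3‖ ≤ 1200 * Real.exp (V / 2 - t ^ 2) := by linarith
    have h3 := Real.exp_pos (V / 2 - t ^ 2)
    nlinarith
  calc ‖I2 - I3 - (P2 - P3) / s1‖ ≤ ‖I2 - I3‖ + ‖(P2 - P3) / s1‖ := norm_sub_le _ _
    _ ≤ (‖I2‖ + ‖I3‖) + _ := add_le_add (norm_sub_le _ _) h1

end Pool.Agent.Helper26.KC
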