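import Pool.Agent.Helper26.KC.F1

/-!
# KS, fourth moment, part 4: mollified sum at a zero and zeta on the critical line
-/

set_option autoImplicit false
open MeasureTheory Filter Topology Finset

namespace Pool.Agent.Helper26.KC

open Pool.Agent.Helper69.QRH

/-- growth on the critical line -/
theorem zeta_half_le : ∃ C : ℝ, 0 < C ∧ ∀ u : ℝ, ‖riemannZeta (1 / 2 + (u : ℂ) * Complex.I)‖ ≤
    C * (2 + |u|) ^ 2 := by
  obtain ⟨CE, hCE0, hCE⟩ := EZ_growth
  refine ⟨2 * CE, by positivity, fun u => ?_⟩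
  set s : ℂ := 1 / 2 + (u : ℂ) * Complex.I with hs
  have hsre : s.re = 1 / 2 := by simp [hs]
  have hsim : s.im = u := by simp [hs]
  have hs1 : s ≠ 1 := by
    intro h
    have := congrArg Complex.re h
    rw [hsre, Complex.one_re] at this
    norm_num at this
  have h1 := hCE s (by rw [hsre]; norm_num)
  rw [EZ_eq hs1, norm_mul] at h1
  have h2 : 1 / 2 ≤ ‖s - 1‖ := by
    have := Complex.abs_re_le_norm (s - 1)
    rw [Complex.sub_re, hsre, Complex.one_re] at this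
    have h3 : |(1 / 2 : ℝ) - 1| = 1 / 2 := by norm_num [abs_of_neg]
    linarith
  have h3 : ‖s‖ ≤ 1 + |u| := by
    refine (Complex.norm_le_abs_re_add_abs_im s).trans ?_
    rw [hsre, hsim, abs_of_pos (by norm_num)]
    linarith
  have h4 : (1 + ‖s‖) ^ 2 ≤ (2 + |u|) ^ 2 := by
    apply pow_le_pow_left₀ (by positivity)
    linarith
  have h5 := norm_nonneg (riemannZeta s)
  have h6 : CE * (1 + ‖s‖) ^ 2 ≤ CE * (2 + |u|) ^ 2 := mul_le_mul_of_nonneg_left h4 hCE0.le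
  nlinarith

theorem zeta_half_cont : Continuous (fun u : ℝ => riemannZeta (1 / 2 + (u : ℂ) * Complex.I)) := by
  rw [continuous_iff_continuousAt]
  intro u
  have h1 : (1 / 2 + (u : ℂ) * Complex.I) ≠ 1 := by
    intro h
    have := congrArg Complex.re h
    simp at this
  exact ContinuousAt.comp (f := fun u : ℝ => 1 / 2 + (u : ℂ) * Complex.I)
    (differentiableAt_riemannZeta h1).continuousAt (by fun_prop)

/-- powers of zeta are integrable against a Gaussian -/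
theorem zeta_pow_int {a : ℝ} (ha : 0 < a) {k : ℕ} (hk : k ≤ 4) (γ : ℝ) :
    Integrable (fun u : ℝ => ‖riemannZeta (1 / 2 + ((γ + u : ℝ) : ℂ) * Complex.I)‖ ^ k *
      Real.exp (-a * u ^ 2)) := by
  obtain ⟨C, hC, hC1⟩ := zeta_half_le
  have h1 : Integrable (fun u : ℝ => u ^ (8 : ℝ) * Real.exp (-a * u ^ 2)) :=
    integrable_rpow_mul_exp_neg_mul_sq ha (by norm_num)
  have h2 : Integrable (fun u : ℝ => Real.exp (-a * u ^ 2)) := integrable_exp_neg_mul_sq ha
  refine (((h2.const_mul (2 ^ 7 * (2 + |γ|) ^ 8)).add (h1.const_mul (2 ^ 7))).const_mul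
    ((1 + C) ^ 4)).mono' ?_ (Eventually.of_forall fun u => ?_)
  · refine Continuous.aestronglyMeasurable ?_
    exact ((zeta_half_cont.comp (by fun_prop : Continuous fun u : ℝ => γ + u)).norm.pow k).mul (by fun_prop)
  · rw [Real.norm_of_nonneg (by positivity)]
    have e1 : u ^ (8 : ℝ) = u ^ 8 := by
      rw [show (8 : ℝ) = ((8 : ℕ) : ℝ) by norm_num, Real.rpow_natCast]
    have hu8 : u ^ 8 = |u| ^ 8 := by
      rw [show u ^ 8 = (u ^ 2) ^ 4 by ring, show |u| ^ 8 = (|u| ^ 2) ^ 4 by ring, sq_abs]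
    have hγ := abs_nonneg γ
    have hu := abs_nonneg u
    have h3 : ‖riemannZeta (1 / 2 + ((γ + u : ℝ) : ℂ) * Complex.I)‖ ≤ (1 + C) * (2 + |γ| + |u|) ^ 2 := by
      refine (hC1 (γ + u)).trans ?_
      have h4 : (2 + |γ + u|) ^ 2 ≤ (2 + |γ| + |u|) ^ 2 := by
        apply pow_le_pow_left₀ (by positivity)
        linarith [abs_add_le γ u]
      have h5 : (0 : ℝ) ≤ (2 + |γ| + |u|) ^ 2 := by positivity
      nlinarith
    have h4 : 1 ≤ (1 + C) * (2 + |γ| + |u|) ^ 2 := by nlinarith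
    have h5 : ‖riemannZeta (1 / 2 + ((γ + u : ℝ) : ℂ) * Complex.I)‖ ^ k ≤
        (1 + C) ^ 4 * (2 + |γ| + |u|) ^ 8 := by
      calc ‖riemannZeta (1 / 2 + ((γ + u : ℝ) : ℂ) * Complex.I)‖ ^ k
          ≤ ((1 + C) * (2 + |γ| + |u|) ^ 2) ^ k := pow_le_pow_left₀ (norm_nonneg _) h3 k
        _ ≤ ((1 + C) * (2 + |γ| + |u|) ^ 2) ^ 4 := pow_le_pow_right₀ h4 hk
        _ = _ := by ring
    have h6 : (2 + |γ| + |u|) ^ 8 ≤ 2 ^ 7 * ((2 + |γ|) ^ 8 + u ^ 8) := by
      rw [hu8]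
      exact add_pow_le (by positivity) hu 8
    show _ ≤ (1 + C) ^ 4 * ((2 ^ 7 * (2 + |γ|) ^ 8) * Real.exp (-a * u ^ 2) +
      2 ^ 7 * (u ^ (8 : ℝ) * Real.exp (-a * u ^ 2)))
    rw [e1]
    have h7 := Real.exp_pos (-a * u ^ 2)
    calc _ ≤ ((1 + C) ^ 4 * (2 + |γ| + |u|) ^ 8) * Real.exp (-a * u ^ 2) := by gcongr
      _ ≤ ((1 + C) ^ 4 * (2 ^ 7 * ((2 + |γ|) ^ 8 + u ^ 8))) * Real.exp (-a * u ^ 2) := by gcongr
      _ = _ := by ring

/-- the smoothed mollified sum at a zero, in terms of zeta on the critical line -/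
theorem mellin_int {ρ : ℂ} (hρ : riemannZeta ρ = 0) (hρ1 : 1 / 2 < ρ.re) (hρ2 : ρ.re ≤ 1)
    (hγ : 1 ≤ |ρ.im|) {V : ℝ} (hV : 0 ≤ V) (D : ℕ) :
    ‖∑ d ∈ Icc 1 D, (ArithmeticFunction.moebius d : ℂ) * (d : ℂ) ^ (-ρ) * In ρ V d‖ ≤
      D * Real.exp (1 - (ρ.re - 1 / 2) * V) / (ρ.re - 1 / 2) *
        (∫ t : ℝ, ‖riemannZeta (1 / 2 + ((ρ.im + t : ℝ) : ℂ) * Complex.I)‖ * Real.exp (-1 * t ^ 2)) +
        300 * (D * Real.exp (V - ρ.im ^ 2)) := by
  obtain ⟨s0, hs0def⟩ : ∃ s0 : ℝ, s0 = 1 / 2 := ⟨_, rfl⟩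
  rw [← hs0def] at hρ1 ⊢
  have hs0 : 2 / 7 ≤ s0 := by rw [hs0def]; norm_num
  have hs1 : s0 ≤ 1 / 2 := hs0def.le
  obtain ⟨CE, hCE0, hCE⟩ := EZ_growth
  have hρne : ρ ≠ 1 := by
    rintro rfl
    simp at hγ
    linarith
  have hEρ : EZ ρ = 0 := by rw [EZ_eq hρne, hρ, mul_zero]
  set s1 : ℂ := 1 - ρ with hs1def
  have hs1re : s1.re = 1 - ρ.re := by simp [hs1def]
  have hs1im : s1.im = -ρ.im := by simp [hs1def]
  set J0 : ℂ → ℂ := dslope EZ ρ with hJ0
  have hJ0d : Differentiable ℂ J0 := by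
    rw [hJ0, ← differentiableOn_univ, Complex.differentiableOn_dslope univ_mem, differentiableOn_univ]
    exact EZ_differentiable
  have hJ0ne : ∀ s : ℂ, s ≠ 0 → J0 (ρ + s) = EZ (ρ + s) / s := by
    intro s hs
    rw [hJ0, dslope_of_ne _ (by simpa using hs), slope_def_field, hEρ, sub_zero,
      add_sub_cancel_left]
  set J : ℂ → ℂ := fun s => J0 (ρ + s) * Mo D (ρ + s) * Complex.exp (s * V + s ^ 2) with hJ
  have hJd : Differentiable ℂ J := by
    rw [hJ]
    refine Differentiable.mul (Differentiable.mul ?_ ?_) (by fun_prop)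
    · exact hJ0d.comp (by fun_prop)
    · exact (Mo_diff D).comp (by fun_prop)
  -- real part of the left line
  set a : ℝ := s0 - ρ.re with ha
  have hexpn : ∀ s : ℂ, ‖Complex.exp (s * V + s ^ 2)‖ =
      Real.exp (s.re * V + s.re ^ 2) * Real.exp (-s.im ^ 2) := by
    intro s
    rw [Complex.norm_exp, ← Real.exp_add]
    congr 1
    simp [pow_two]
    ring
  -- decay of J
  have hdecay : ∀ s : ℂ, a ≤ s.re → s.re ≤ 2 → 1 ≤ |s.im| →
      ‖J s‖ ≤ (CE * D * Real.exp (2 * V + 4) * (64 * ((4 + ‖ρ‖) ^ 2 + 1))) * (1 + s.im ^ 2)⁻¹ := by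
    intro s h1 h2 h3
    have hs : 1 ≤ ‖s‖ := h3.trans (Complex.abs_im_le_norm s)
    have hsne : s ≠ 0 := by
      intro h; rw [h, norm_zero] at hs; linarith
    have hre : (ρ + s).re = ρ.re + s.re := Complex.add_re _ _
    have hre0 : 2 / 7 ≤ (ρ + s).re := by rw [hre]; linarith
    have e1 : ‖J0 (ρ + s)‖ ≤ CE * (4 + ‖ρ‖ + |s.im|) ^ 2 := by
      rw [hJ0ne s hsne, norm_div]
      refine (div_le_self (norm_nonneg _) hs).trans ((hCE _ hre0).trans ?_)
      have h4 : ‖s‖ ≤ 2 + |s.im| := by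
        refine (Complex.norm_le_abs_re_add_abs_im s).trans ?_
        have : |s.re| ≤ 2 := by rw [abs_le]; constructor <;> linarith
        linarith
      have h5 := norm_add_le ρ s
      have h6 := norm_nonneg (ρ + s)
      have h7 : 1 + ‖ρ + s‖ ≤ 4 + ‖ρ‖ + |s.im| := by linarith
      gcongr
    have e2 : ‖Mo D (ρ + s)‖ ≤ D := Mo_le D (by linarith)
    have e3 : ‖Complex.exp (s * V + s ^ 2)‖ ≤ Real.exp (2 * V + 4) * Real.exp (-(s.im ^ 2 / 4)) := by
      rw [hexpn]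
      apply mul_le_mul _ _ (Real.exp_pos _).le (Real.exp_pos _).le
      · apply Real.exp_le_exp.mpr
        have h4 : -1 ≤ s.re := by linarith
        nlinarith
      · apply Real.exp_le_exp.mpr
        nlinarith [sq_nonneg s.im]
    have e4 := exp_bound_aux' (4 + ‖ρ‖) s.im
    calc ‖J s‖ = ‖J0 (ρ + s)‖ * ‖Mo D (ρ + s)‖ * ‖Complex.exp (s * V + s ^ 2)‖ := by
          simp only [hJ, norm_mul]
      _ ≤ (CE * (4 + ‖ρ‖ + |s.im|) ^ 2) * D *
          (Real.exp (2 * V + 4) * Real.exp (-(s.im ^ 2 / 4))) := by gcongr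
      _ = CE * D * Real.exp (2 * V + 4) *
          ((4 + ‖ρ‖ + |s.im|) ^ 2 * Real.exp (-(s.im ^ 2 / 4))) := by ring
      _ ≤ CE * D * Real.exp (2 * V + 4) *
          (64 * ((4 + ‖ρ‖) ^ 2 + 1) * (1 + s.im ^ 2)⁻¹) := by gcongr
      _ = _ := by ring
  have hshift := shift_pole hJd (a := a) (b := 2) (s1 := s1) (by linarith)
    (by rw [hs1re]; rw [ha]; rw [show s0 - ρ.re - (1 - ρ.re) = -(1 - s0) by ring, abs_neg,
          abs_of_nonneg (by linarith)]; linarith)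
    (by rw [hs1re, show (2 : ℝ) - (1 - ρ.re) = 1 + ρ.re by ring, abs_of_nonneg (by linarith)]; linarith)
    (by rw [hs1re]; rw [ha]; rw [show s0 - ρ.re - (1 - ρ.re) = -(1 - s0) by ring, abs_neg,
          abs_of_nonneg (by linarith)]; linarith)
    (by rw [hs1re, show (2 : ℝ) - (1 - ρ.re) = 1 + ρ.re by ring, abs_of_nonneg (by linarith)]; linarith)
    hdecay
  -- the quotient away from the two special points
  have hquot : ∀ s : ℂ, s ≠ 0 → s ≠ s1 → J s / (s - s1) =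
      riemannZeta (ρ + s) * Mo D (ρ + s) * Complex.exp (s * V + s ^ 2) / s := by
    intro s h1 h2
    have h3 : ρ + s ≠ 1 := by
      intro h
      apply h2
      rw [hs1def, ← h]
      ring
    have h4 : s - s1 ≠ 0 := sub_ne_zero.mpr h2
    simp only [hJ]
    rw [hJ0ne s h1, EZ_eq h3]
    have h5 : ρ + s - 1 = s - s1 := by rw [hs1def]; ring
    rw [h5]
    field_simp
  -- right line
  have hright : ∫ t : ℝ, J (((2 : ℝ) : ℂ) + t * Complex.I) / (((2 : ℝ) : ℂ) + t * Complex.I - s1) =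
      2 * Real.pi * ∑ d ∈ Icc 1 D, (ArithmeticFunction.moebius d : ℂ) * (d : ℂ) ^ (-ρ) * In ρ V d := by
    have h1 : ∀ t : ℝ, J (((2 : ℝ) : ℂ) + t * Complex.I) / (((2 : ℝ) : ℂ) + t * Complex.I - s1) =
        ∑ d ∈ Icc 1 D, ((ArithmeticFunction.moebius d : ℂ) * (d : ℂ) ^ (-ρ)) *
        (riemannZeta (ρ + ((2 : ℝ) + t * Complex.I)) *
          (Complex.exp ((((2 : ℝ) : ℂ) + t * Complex.I) * ((V - Real.log d : ℝ) : ℂ) +
            (((2 : ℝ) : ℂ) + t * Complex.I) ^ 2) / (((2 : ℝ) : ℂ) + t * Complex.I))) := by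
      intro t
      rw [hquot _ (line_ne (by norm_num)) (by
        intro h
        have := congrArg Complex.re h
        rw [line_re, hs1re] at this
        linarith)]
      unfold Mo
      rw [Finset.mul_sum, Finset.sum_mul, Finset.sum_div]
      apply Finset.sum_congr rfl
      intro d hd
      have hd0 : (0 : ℝ) < d := by exact_mod_cast (Finset.mem_Icc.mp hd).1
      have e1 : (d : ℂ) ^ (-(ρ + (((2 : ℝ) : ℂ) + t * Complex.I))) =
          (d : ℂ) ^ (-ρ) * Complex.exp (-(((2 : ℝ) : ℂ) + t * Complex.I) * (Real.log d : ℝ)) := by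
        have h2 : (d : ℂ) = ((d : ℝ) : ℂ) := by push_cast; ring
        rw [h2, cpow_eq_exp_log hd0, cpow_eq_exp_log hd0, ← Complex.exp_add]
        congr 1
        push_cast
        ring
      have e2 : Complex.exp ((((2 : ℝ) : ℂ) + t * Complex.I) * ((V - Real.log d : ℝ) : ℂ) +
            (((2 : ℝ) : ℂ) + t * Complex.I) ^ 2) =
          Complex.exp (-(((2 : ℝ) : ℂ) + t * Complex.I) * (Real.log d : ℝ)) *
          Complex.exp ((((2 : ℝ) : ℂ) + t * Complex.I) * V + (((2 : ℝ) : ℂ) + t * Complex.I) ^ 2) := by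
        rw [← Complex.exp_add]
        congr 1
        push_cast
        ring
      rw [e1, e2]
      ring
    simp_rw [h1]
    rw [integral_finsetSum]
    · rw [Finset.mul_sum]
      apply Finset.sum_congr rfl
      intro d _
      rw [integral_const_mul, (inner_mellin (by linarith) (V - Real.log d)).2]
      unfold In
      ring
    · intro d _
      exact (inner_mellin (by linarith) (V - Real.log d)).1.const_mul _
  -- left line
  have hβ : 0 < ρ.re - s0 := by linarith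
  set Iz : ℝ := ∫ t : ℝ, ‖riemannZeta (1 / 2 + ((ρ.im + t : ℝ) : ℂ) * Complex.I)‖ *
    Real.exp (-1 * t ^ 2) with hIz
  have hIz0 : 0 ≤ Iz := integral_nonneg fun t => by positivity
  have hleft : ‖∫ t : ℝ, J ((a : ℂ) + t * Complex.I) / ((a : ℂ) + t * Complex.I - s1)‖ ≤
      (D * Real.exp (1 - (ρ.re - s0) * V) / (ρ.re - s0)) * Iz := by
    set B : ℝ := D * Real.exp (1 - (ρ.re - s0) * V) / (ρ.re - s0) with hB
    have hB0 : 0 ≤ B := by rw [hB]; positivity
    have h1 : ∀ t : ℝ, ‖J ((a : ℂ) + t * Complex.I) / ((a : ℂ) + t * Complex.I - s1)‖ ≤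
        B * (‖riemannZeta (1 / 2 + ((ρ.im + t : ℝ) : ℂ) * Complex.I)‖ * Real.exp (-1 * t ^ 2)) := by
      intro t
      have hne : (a : ℂ) + t * Complex.I ≠ 0 := by
        intro h
        have := congrArg Complex.re h
        rw [line_re, Complex.zero_re] at this
        linarith
      rw [hquot _ hne (by
        intro h
        have := congrArg Complex.re h
        rw [line_re, hs1re] at this
        linarith)]
      have e0 : ρ + ((a : ℂ) + t * Complex.I) = 1 / 2 + ((ρ.im + t : ℝ) : ℂ) * Complex.I := by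
        apply Complex.ext
        · simp [ha, hs0def]
        · simp
      rw [e0, norm_div, norm_mul, norm_mul, norm_exp_line]
      have e2 : ‖Mo D (1 / 2 + ((ρ.im + t : ℝ) : ℂ) * Complex.I)‖ ≤ D := by
        apply Mo_le
        simp
      have e3 : Real.exp (a * V + a ^ 2) ≤ Real.exp (1 - (ρ.re - s0) * V) := by
        apply Real.exp_le_exp.mpr
        have : a ^ 2 ≤ 1 := by nlinarith
        rw [ha] at *
        linarith
      have e4 : ρ.re - s0 ≤ ‖(a : ℂ) + t * Complex.I‖ := by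
        have h5 := Complex.abs_re_le_norm ((a : ℂ) + t * Complex.I)
        rw [line_re] at h5
        have h6 : |a| = ρ.re - s0 := by
          rw [ha, show s0 - ρ.re = -(ρ.re - s0) by ring, abs_neg, abs_of_pos hβ]
        linarith
      calc ‖riemannZeta (1 / 2 + ((ρ.im + t : ℝ) : ℂ) * Complex.I)‖ *
            ‖Mo D (1 / 2 + ((ρ.im + t : ℝ) : ℂ) * Complex.I)‖ *
            (Real.exp (a * V + a ^ 2) * Real.exp (-1 * t ^ 2)) / ‖(a : ℂ) + t * Complex.I‖
          ≤ ‖riemannZeta (1 / 2 + ((ρ.im + t : ℝ) : ℂ) * Complex.I)‖ * D *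
            (Real.exp (1 - (ρ.re - s0) * V) * Real.exp (-1 * t ^ 2)) / (ρ.re - s0) := by
            gcongr
        _ = _ := by rw [hB]; ring
    have hi := zeta_pow_int one_pos (show 1 ≤ 4 by norm_num) ρ.im
    simp only [pow_one] at hi
    refine (norm_integral_le_of_norm_le (hi.const_mul B) (Eventually.of_forall h1)).trans ?_
    rw [integral_const_mul]
  -- value at the pole
  have hJs1 : ‖J s1‖ ≤ D * Real.exp (V + 1 - ρ.im ^ 2) := by
    have hs1ne : s1 ≠ 0 := by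
      rw [hs1def]; exact sub_ne_zero.mpr hρne.symm
    have h1 : ρ + s1 = 1 := by rw [hs1def]; ring
    have h2 : 1 ≤ ‖s1‖ := by
      have := Complex.abs_im_le_norm s1
      rw [hs1im, abs_neg] at this
      linarith
    simp only [hJ]
    rw [norm_mul, norm_mul, hJ0ne s1 hs1ne, h1, EZ_one, norm_div, norm_one, hexpn, hs1re, hs1im]
    have h3 : ‖Mo D 1‖ ≤ D := Mo_le D (by simp)
    have h4 : (1 : ℝ) / ‖s1‖ ≤ 1 := by
      rw [div_le_one (by linarith)]; exact h2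
    have h5 : Real.exp ((1 - ρ.re) * V + (1 - ρ.re) ^ 2) * Real.exp (-(-ρ.im) ^ 2) ≤
        Real.exp (V + 1 - ρ.im ^ 2) := by
      rw [← Real.exp_add]
      apply Real.exp_le_exp.mpr
      have h6 : (1 - ρ.re) ^ 2 ≤ 1 := by nlinarith
      have h7 : (1 - ρ.re) * V ≤ V := by nlinarith
      nlinarith
    have h6 := norm_nonneg (Mo D 1)
    calc 1 / ‖s1‖ * ‖Mo D 1‖ * (Real.exp ((1 - ρ.re) * V + (1 - ρ.re) ^ 2) * Real.exp (-(-ρ.im) ^ 2))
        ≤ 1 * D * Real.exp (V + 1 - ρ.im ^ 2) := by gcongr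
      _ = _ := by ring
  rw [hright] at hshift
  have hpi := Real.pi_pos
  have hpi3 := Real.pi_gt_three
  set Sg : ℂ := ∑ d ∈ Icc 1 D, (ArithmeticFunction.moebius d : ℂ) * (d : ℂ) ^ (-ρ) * In ρ V d with hSg
  set B : ℝ := D * Real.exp (1 - (ρ.re - s0) * V) / (ρ.re - s0) with hB
  have hB0 : 0 ≤ B := by rw [hB]; positivity
  have h1 : ‖2 * (Real.pi : ℂ) * Sg‖ ≤ 600 * ‖J s1‖ + B * Iz := by
    have := norm_sub_norm_le (2 * (Real.pi : ℂ) * Sg)
      (∫ t : ℝ, J ((a : ℂ) + t * Complex.I) / ((a : ℂ) + t * Complex.I - s1))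
    linarith
  rw [norm_mul, norm_mul, Complex.norm_real, Complex.norm_ofNat, Real.norm_of_nonneg hpi.le] at h1
  have h2 : D * Real.exp (V + 1 - ρ.im ^ 2) ≤ 3 * (D * Real.exp (V - ρ.im ^ 2)) := by
    rw [show V + 1 - ρ.im ^ 2 = 1 + (V - ρ.im ^ 2) by ring, Real.exp_add]
    have h3 := Real.exp_one_lt_d9
    have h4 : 0 ≤ (D : ℝ) * Real.exp (V - ρ.im ^ 2) := by positivity
    nlinarith
  have h3 : 0 ≤ (D : ℝ) * Real.exp (V - ρ.im ^ 2) := by positivity
  have h4 : 0 ≤ B * Iz := mul_nonneg hB0 hIz0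
  have h5 : 2 * Real.pi * ‖Sg‖ ≤ 600 * (3 * (D * Real.exp (V - ρ.im ^ 2))) + B * Iz := by
    linarith
  have h6 : 2 * Real.pi * ‖Sg‖ ≤ 2 * Real.pi * (B * Iz + 300 * (D * Real.exp (V - ρ.im ^ 2))) := by
    nlinarith
  exact le_of_mul_le_mul_left h6 (by positivity)

end Pool.Agent.Helper26.KC
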