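import Pool.Agent.Helper26.KC.F4

/-!
# KS, fourth moment, part 5: few class II zeros
-/

set_option autoImplicit false
open MeasureTheory Filter Topology Finset

namespace Pool.Agent.Helper26.KC

open Pool.Agent.Helper60.KS (DP Spaced1)

/-- Gaussian sum over spaced points -/
theorem gsum {Z : Finset ℂ} (hZ : Spaced1 Z) (u : ℝ) :
    ∑ ρ ∈ Z, Real.exp (-(u - ρ.im) ^ 2 / 2) ≤ 6 := by
  have hint : Integrable (fun y : ℝ => Real.exp (-(1 / 4) * (y - u) ^ 2)) :=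
    (integrable_exp_neg_mul_sq (b := 1 / 4) (by norm_num)).comp_sub_right u
  have hterm : ∀ ρ ∈ Z, Real.exp (-(u - ρ.im) ^ 2 / 2) ≤
      (5 / 4) * ∫ y in Set.Ioo (ρ.im - 1 / 2) (ρ.im + 1 / 2), Real.exp (-(1 / 4) * (y - u) ^ 2) := by
    intro ρ _
    have h1 : ∀ y ∈ Set.Ioo (ρ.im - 1 / 2) (ρ.im + 1 / 2),
        (4 / 5) * Real.exp (-(u - ρ.im) ^ 2 / 2) ≤ Real.exp (-(1 / 4) * (y - u) ^ 2) := by
      intro y hy
      have h2 : (y - ρ.im) ^ 2 ≤ 1 / 4 := by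
        have h3 : |y - ρ.im| ≤ 1 / 2 := by
          rw [abs_le]; constructor <;> linarith [hy.1, hy.2]
        have := pow_le_pow_left₀ (abs_nonneg _) h3 2
        rw [sq_abs] at this
        linarith
      have h3 : -(u - ρ.im) ^ 2 / 2 - 1 / 8 ≤ -(1 / 4) * (y - u) ^ 2 := by
        nlinarith [sq_nonneg ((y - ρ.im) + (u - ρ.im))]
      have h4 : (4 / 5 : ℝ) ≤ Real.exp (-(1 / 8)) := by
        have := Real.add_one_le_exp (-(1 / 8) : ℝ)
        linarith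
      calc (4 / 5) * Real.exp (-(u - ρ.im) ^ 2 / 2)
          ≤ Real.exp (-(1 / 8)) * Real.exp (-(u - ρ.im) ^ 2 / 2) := by gcongr
        _ = Real.exp (-(u - ρ.im) ^ 2 / 2 - 1 / 8) := by
            rw [← Real.exp_add]; congr 1; ring
        _ ≤ _ := Real.exp_le_exp.mpr h3
    have h2 : ∫ _y in Set.Ioo (ρ.im - 1 / 2) (ρ.im + 1 / 2), (4 / 5) * Real.exp (-(u - ρ.im) ^ 2 / 2) ≤
        ∫ y in Set.Ioo (ρ.im - 1 / 2) (ρ.im + 1 / 2), Real.exp (-(1 / 4) * (y - u) ^ 2) := by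
      refine setIntegral_mono_on ?_ hint.integrableOn measurableSet_Ioo h1
      exact integrableOn_const (by simp) enorm_ne_top
    rw [setIntegral_const, measureReal_def, Real.volume_Ioo] at h2
    rw [show ρ.im + 1 / 2 - (ρ.im - 1 / 2) = 1 by ring, ENNReal.toReal_ofReal zero_le_one, one_smul] at h2
    linarith
  have hdisj : (Z : Set ℂ).Pairwise (Function.onFun Disjoint
      (fun ρ : ℂ => Set.Ioo (ρ.im - 1 / 2) (ρ.im + 1 / 2))) := by
    intro ρ hρ ρ' hρ' hne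
    have h1 := hZ ρ hρ ρ' hρ' hne
    rw [Function.onFun, Set.disjoint_left]
    intro y hy hy'
    have h2 : |ρ.im - ρ'.im| < 1 := by
      rw [abs_lt]; constructor <;> linarith [hy.1, hy.2, hy'.1, hy'.2]
    linarith
  have hsum : ∑ ρ ∈ Z, ∫ y in Set.Ioo (ρ.im - 1 / 2) (ρ.im + 1 / 2), Real.exp (-(1 / 4) * (y - u) ^ 2) =
      ∫ y in ⋃ ρ ∈ Z, Set.Ioo (ρ.im - 1 / 2) (ρ.im + 1 / 2), Real.exp (-(1 / 4) * (y - u) ^ 2) := by
    rw [integral_biUnion_finset Z (fun ρ _ => measurableSet_Ioo) hdisj (fun ρ _ => hint.integrableOn)]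
  have hle : ∫ y in ⋃ ρ ∈ Z, Set.Ioo (ρ.im - 1 / 2) (ρ.im + 1 / 2), Real.exp (-(1 / 4) * (y - u) ^ 2) ≤
      ∫ y, Real.exp (-(1 / 4) * (y - u) ^ 2) :=
    setIntegral_le_integral hint (Eventually.of_forall fun y => (Real.exp_pos _).le)
  have htot : ∫ y, Real.exp (-(1 / 4) * (y - u) ^ 2) ≤ 4 := by
    rw [integral_sub_right_eq_self (fun y : ℝ => Real.exp (-(1 / 4) * y ^ 2)) u, integral_gaussian,
      Real.sqrt_le_left (by norm_num)]
    have := Real.pi_lt_d2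
    rw [div_le_iff₀ (by norm_num)]
    linarith
  calc ∑ ρ ∈ Z, Real.exp (-(u - ρ.im) ^ 2 / 2)
      ≤ ∑ ρ ∈ Z, (5 / 4) * ∫ y in Set.Ioo (ρ.im - 1 / 2) (ρ.im + 1 / 2),
          Real.exp (-(1 / 4) * (y - u) ^ 2) := Finset.sum_le_sum hterm
    _ = (5 / 4) * ∑ ρ ∈ Z, ∫ y in Set.Ioo (ρ.im - 1 / 2) (ρ.im + 1 / 2),
          Real.exp (-(1 / 4) * (y - u) ^ 2) := by rw [Finset.mul_sum]
    _ ≤ (5 / 4) * 4 := by rw [hsum]; gcongr; exact hle.trans htot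
    _ ≤ 6 := by norm_num

/-- power mean without Hölder -/
theorem power_mean {z : ℝ → ℝ} (hz : ∀ t, 0 ≤ z t)
    (h1 : Integrable (fun t : ℝ => z t * Real.exp (-1 * t ^ 2)))
    (h4 : Integrable (fun t : ℝ => z t ^ 4 * Real.exp (-1 * t ^ 2))) {B : ℝ} (hB : 0 < B)
    (hI : B ≤ ∫ t : ℝ, z t * Real.exp (-1 * t ^ 2)) :
    B ^ 4 / 16 ≤ ∫ t : ℝ, z t ^ 4 * Real.exp (-1 * t ^ 2) := by
  have hg : Integrable (fun t : ℝ => Real.exp (-1 * t ^ 2)) := integrable_exp_neg_mul_sq one_pos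
  -- z ≤ z^4/(4 a^3) + 3a/4 with a = B/3
  have hpt : ∀ t : ℝ, z t * Real.exp (-1 * t ^ 2) ≤
      (27 / (4 * B ^ 3)) * (z t ^ 4 * Real.exp (-1 * t ^ 2)) + (B / 4) * Real.exp (-1 * t ^ 2) := by
    intro t
    have he := Real.exp_pos (-1 * t ^ 2)
    have h2 : z t ≤ (27 / (4 * B ^ 3)) * z t ^ 4 + B / 4 := by
      set y : ℝ := z t / B with hy
      have hzy : z t = y * B := by rw [hy]; field_simp
      have hy0 : 0 ≤ y := by rw [hy]; exact div_nonneg (hz t) hB.le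
      rw [hzy]
      have h3 : (27 / (4 * B ^ 3)) * (y * B) ^ 4 + B / 4 = B * (27 / 4 * y ^ 4 + 1 / 4) := by
        field_simp
      rw [h3]
      have h4 : y ≤ 27 / 4 * y ^ 4 + 1 / 4 := by
        nlinarith [sq_nonneg (9 * y ^ 2 - 1), sq_nonneg (3 * y - 1), sq_nonneg (y ^ 2), sq_nonneg (3 * y ^ 2 - y)]
      nlinarith
    nlinarith
  have h2 := integral_mono h1 ((h4.const_mul (27 / (4 * B ^ 3))).add (hg.const_mul (B / 4))) hpt
  have h3 : ∫ t : ℝ, ((27 / (4 * B ^ 3)) * (z t ^ 4 * Real.exp (-1 * t ^ 2)) +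
      (B / 4) * Real.exp (-1 * t ^ 2)) = (27 / (4 * B ^ 3)) * (∫ t : ℝ, z t ^ 4 * Real.exp (-1 * t ^ 2)) +
      (B / 4) * Real.sqrt Real.pi := by
    rw [integral_add (h4.const_mul _) (hg.const_mul _), integral_const_mul, integral_const_mul,
      integral_gaussian, div_one]
  have h5 : Real.sqrt Real.pi ≤ 1.8 := by
    rw [Real.sqrt_le_left (by norm_num)]
    have := Real.pi_lt_d2
    norm_num
    linarith
  change _ ≤ ∫ t : ℝ, ((27 / (4 * B ^ 3)) * (z t ^ 4 * Real.exp (-1 * t ^ 2)) +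
      (B / 4) * Real.exp (-1 * t ^ 2)) at h2
  rw [h3] at h2
  have h6 : B / 2 ≤ (27 / (4 * B ^ 3)) * ∫ t : ℝ, z t ^ 4 * Real.exp (-1 * t ^ 2) := by nlinarith
  have h7 : (27 / (4 * B ^ 3)) * (∫ t : ℝ, z t ^ 4 * Real.exp (-1 * t ^ 2)) =
      (27 * ∫ t : ℝ, z t ^ 4 * Real.exp (-1 * t ^ 2)) / (4 * B ^ 3) := by ring
  rw [h7, le_div_iff₀ (by positivity)] at h6
  have h8 : B / 2 * (4 * B ^ 3) = 2 * B ^ 4 := by ring
  rw [h8] at h6
  have h9 : 0 ≤ B ^ 4 := by positivity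
  linarith

/-- spaced points with a large local mean of zeta on the critical line are few -/
theorem few_large (hFM : FourthMoment) {ε : ℝ} (hε : 0 < ε) : ∃ C : ℝ, 0 < C ∧
    ∀ (Z : Finset ℂ) (T B : ℝ), 1 ≤ T → 0 < B → Spaced1 Z → (∀ ρ ∈ Z, |ρ.im| ≤ T) →
    (∀ ρ ∈ Z, B ≤ ∫ t : ℝ, ‖riemannZeta (1 / 2 + ((ρ.im + t : ℝ) : ℂ) * Complex.I)‖ *
      Real.exp (-1 * t ^ 2)) → (Z.card : ℝ) * B ^ 4 ≤ C * T ^ (1 + ε) := by
  obtain ⟨C, hC, hC1⟩ := hFM ε hε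
  refine ⟨16 * 12 * C * 2 ^ (1 + ε), by positivity, ?_⟩
  intro Z T B hT hB hZ hZT hZB
  set h : ℝ → ℝ := fun u => ‖riemannZeta (1 / 2 + (u : ℂ) * Complex.I)‖ ^ 4 with hh
  have hh0 : ∀ u, 0 ≤ h u := fun u => by simp only [hh]; positivity
  have hshift : ∀ ρ ∈ Z, B ^ 4 / 16 ≤ ∫ u : ℝ, h u * Real.exp (-1 * (u - ρ.im) ^ 2) := by
    intro ρ hρ
    have h1 := power_mean (z := fun t : ℝ => ‖riemannZeta (1 / 2 + ((ρ.im + t : ℝ) : ℂ) * Complex.I)‖)
      (fun t => norm_nonneg _)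
      (by have := zeta_pow_int one_pos (show 1 ≤ 4 by norm_num) ρ.im
          simpa only [pow_one] using this)
      (zeta_pow_int one_pos le_rfl ρ.im) hB (hZB ρ hρ)
    refine h1.trans (le_of_eq ?_)
    rw [← integral_add_left_eq_self (fun u : ℝ => h u * Real.exp (-1 * (u - ρ.im) ^ 2)) ρ.im]
    apply integral_congr_ae
    refine Eventually.of_forall fun t => ?_
    simp only [hh, add_sub_cancel_left]
  have hTpos : 0 < T := by linarith
  have hmaj : Integrable (fun u : ℝ => h u * Real.exp (-(u / (2 * T)) ^ 2)) := by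
    have h1 := zeta_pow_int (a := 1 / (2 * T) ^ 2) (by positivity) (le_refl 4) 0
    refine h1.congr (Eventually.of_forall fun u => ?_)
    simp only [hh, zero_add]
    congr 2
    field_simp
  have hpt : ∀ u : ℝ, ∑ ρ ∈ Z, h u * Real.exp (-1 * (u - ρ.im) ^ 2) ≤
      12 * (h u * Real.exp (-(u / (2 * T)) ^ 2)) := by
    intro u
    have h1 : ∀ ρ ∈ Z, h u * Real.exp (-1 * (u - ρ.im) ^ 2) ≤
        (2 * (h u * Real.exp (-(u / (2 * T)) ^ 2))) * Real.exp (-(u - ρ.im) ^ 2 / 2) := by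
      intro ρ hρ
      have h2 : -1 * (u - ρ.im) ^ 2 ≤ 1 / 2 + -(u / (2 * T)) ^ 2 + -(u - ρ.im) ^ 2 / 2 := by
        have h3 : (u / (2 * T)) ^ 2 = u ^ 2 / (4 * T ^ 2) := by ring
        have h4 : u ^ 2 ≤ 2 * T ^ 2 + 2 * (u - ρ.im) ^ 2 * T ^ 2 := by
          have h5 : ρ.im ^ 2 ≤ T ^ 2 := by
            have := pow_le_pow_left₀ (abs_nonneg _) (hZT ρ hρ) 2
            rwa [sq_abs] at this
          have h6 : u ^ 2 ≤ 2 * ρ.im ^ 2 + 2 * (u - ρ.im) ^ 2 := by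
            nlinarith [sq_nonneg (ρ.im - (u - ρ.im))]
          have h7 : (u - ρ.im) ^ 2 ≤ (u - ρ.im) ^ 2 * T ^ 2 := by
            have : 1 ≤ T ^ 2 := by nlinarith
            nlinarith [sq_nonneg (u - ρ.im)]
          nlinarith
        have h5 : u ^ 2 / (4 * T ^ 2) ≤ 1 / 2 + (u - ρ.im) ^ 2 / 2 := by
          rw [div_le_iff₀ (by positivity)]
          nlinarith
        rw [h3]
        linarith
      have h3 : Real.exp (-1 * (u - ρ.im) ^ 2) ≤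
          2 * Real.exp (-(u / (2 * T)) ^ 2) * Real.exp (-(u - ρ.im) ^ 2 / 2) := by
        calc Real.exp (-1 * (u - ρ.im) ^ 2)
            ≤ Real.exp (1 / 2 + -(u / (2 * T)) ^ 2 + -(u - ρ.im) ^ 2 / 2) := Real.exp_le_exp.mpr h2
          _ = Real.exp (1 / 2) * Real.exp (-(u / (2 * T)) ^ 2) * Real.exp (-(u - ρ.im) ^ 2 / 2) := by
              rw [Real.exp_add, Real.exp_add]
          _ ≤ 2 * Real.exp (-(u / (2 * T)) ^ 2) * Real.exp (-(u - ρ.im) ^ 2 / 2) := by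
              have h4 : Real.exp (1 / 2) ≤ 2 := by
                have h5 : (1 / 2 : ℝ) ≤ Real.log 2 := by linarith [Real.log_two_gt_d9]
                calc Real.exp (1 / 2) ≤ Real.exp (Real.log 2) := Real.exp_le_exp.mpr h5
                  _ = 2 := Real.exp_log (by norm_num)
              gcongr
      have h4 := hh0 u
      calc h u * Real.exp (-1 * (u - ρ.im) ^ 2)
          ≤ h u * (2 * Real.exp (-(u / (2 * T)) ^ 2) * Real.exp (-(u - ρ.im) ^ 2 / 2)) := by gcongr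
        _ = _ := by ring
    have h2 := hh0 u
    have h3 : 0 ≤ 2 * (h u * Real.exp (-(u / (2 * T)) ^ 2)) := by positivity
    calc ∑ ρ ∈ Z, h u * Real.exp (-1 * (u - ρ.im) ^ 2)
        ≤ ∑ ρ ∈ Z, (2 * (h u * Real.exp (-(u / (2 * T)) ^ 2))) * Real.exp (-(u - ρ.im) ^ 2 / 2) :=
          Finset.sum_le_sum h1
      _ = (2 * (h u * Real.exp (-(u / (2 * T)) ^ 2))) * ∑ ρ ∈ Z, Real.exp (-(u - ρ.im) ^ 2 / 2) := by
          rw [Finset.mul_sum]
      _ ≤ (2 * (h u * Real.exp (-(u / (2 * T)) ^ 2))) * 6 := by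
          gcongr
          exact gsum hZ u
      _ = _ := by ring
  have hiρ : ∀ ρ ∈ Z, Integrable (fun u : ℝ => h u * Real.exp (-1 * (u - ρ.im) ^ 2)) := by
    intro ρ _
    have h1 := (zeta_pow_int one_pos (le_refl 4) ρ.im).comp_sub_right ρ.im
    refine h1.congr (Eventually.of_forall fun u => ?_)
    simp only [hh, add_sub_cancel]
  have hsumI : ∑ ρ ∈ Z, ∫ u : ℝ, h u * Real.exp (-1 * (u - ρ.im) ^ 2) ≤
      12 * ∫ u : ℝ, h u * Real.exp (-(u / (2 * T)) ^ 2) := by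
    rw [← integral_finsetSum _ hiρ, ← integral_const_mul]
    exact integral_mono (integrable_finsetSum _ hiρ) (hmaj.const_mul _) hpt
  have hfm := hC1 (2 * T) (by linarith)
  have h1 : (Z.card : ℝ) * (B ^ 4 / 16) ≤ ∑ ρ ∈ Z, ∫ u : ℝ, h u * Real.exp (-1 * (u - ρ.im) ^ 2) := by
    have := Finset.card_nsmul_le_sum Z _ _ hshift
    rwa [nsmul_eq_mul] at this
  have h2 : ∫ u : ℝ, h u * Real.exp (-(u / (2 * T)) ^ 2) ≤ C * (2 * T) ^ (1 + ε) := by
    refine le_trans (le_of_eq ?_) hfm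
    apply integral_congr_ae
    refine Eventually.of_forall fun u => ?_
    simp only [hh]
    ring
  rw [Real.mul_rpow (by norm_num) hTpos.le] at h2
  have h3 : (Z.card : ℝ) * (B ^ 4 / 16) ≤ 12 * (C * (2 ^ (1 + ε) * T ^ (1 + ε))) := by
    linarith
  calc (Z.card : ℝ) * B ^ 4 = 16 * ((Z.card : ℝ) * (B ^ 4 / 16)) := by ring
    _ ≤ 16 * (12 * (C * (2 ^ (1 + ε) * T ^ (1 + ε)))) := by gcongr
    _ = _ := by ring

end Pool.Agent.Helper26.KC
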