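import Pool.Agent.Helper26.KC.F5

/-!
# KS, fourth moment, part 6: detection at the length `T^(1/2)` with few exceptions
-/

set_option autoImplicit false
open MeasureTheory Filter Topology Finset

namespace Pool.Agent.Helper26.KC

open Pool.Agent.Helper60.KS (DP Spaced1)

/-- a zero that is not detected has a large local mean of zeta on the critical line -/
theorem undetected {τ δ : ℝ} (hτ1 : 1 / 10 ≤ τ) (hτ2 : τ ≤ 1) (hδ : 0 < δ) (hδ' : δ ≤ 1 / 1000) :
    ∃ L0 : ℝ, ∀ L : ℝ, L0 ≤ L → ∀ x : ℝ, 0 < x → x ≤ 0.4 + δ →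
    ∃ g : ℕ → ℂ, (∀ n, ‖g n‖ ≤ (n.divisors.card : ℝ)) ∧
    ∀ ρ : ℂ, riemannZeta ρ = 0 → 1 - x ≤ ρ.re → L ^ 2 ≤ |ρ.im| →
    (¬ ∃ i : ℕ, Real.exp (δ * L) / 2 ≤ (2 : ℝ) ^ i ∧ (2 : ℝ) ^ i ≤ Real.exp ((τ / 2 + 45 * δ) * L) ∧
      1 / (16 * L) ≤ ‖DP g (2 ^ i) 2 ρ‖) →
    Real.exp ((1 / 2 - x) * ((τ / 2 + 40 * δ) * L) - δ * L) / 120 ≤
      ∫ t : ℝ, ‖riemannZeta (1 / 2 + ((ρ.im + t : ℝ) : ℂ) * Complex.I)‖ * Real.exp (-1 * t ^ 2) := by
  set K : ℝ := 2 + 4 / δ with hK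
  have hK2 : 2 ≤ K := by
    have : 0 < 4 / δ := by positivity
    linarith
  refine ⟨max 10 (max (2 * (K ^ 2 + 8)) (1 / δ)), ?_⟩
  intro L hL x hx hx'
  have hL1 : 10 ≤ L := (le_max_left _ _).trans hL
  have hL3 : 2 * (K ^ 2 + 8) ≤ L := (le_max_left _ _).trans ((le_max_right _ _).trans hL)
  have hL4 : 1 ≤ δ * L := by
    have : 1 / δ ≤ L := (le_max_right _ _).trans ((le_max_right _ _).trans hL)
    rw [div_le_iff₀ hδ] at this
    linarith
  set V : ℝ := (τ / 2 + 40 * δ) * L with hV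
  have hL0 : 0 ≤ L := by linarith
  have hV0 : 0 ≤ V := by rw [hV]; positivity
  have hV1 : 40 * (δ * L) ≤ V := by
    rw [hV]
    have : 0 ≤ τ / 2 * L := by positivity
    nlinarith
  have hVL : V ≤ 0.6 * L := by
    rw [hV]
    apply mul_le_mul_of_nonneg_right _ hL0
    linarith
  set D : ℕ := ⌊Real.exp (δ * L)⌋₊ with hD
  have hD1 : 1 ≤ D := by
    rw [hD, Nat.one_le_floor_iff]
    exact Real.one_le_exp (by positivity)
  have hDle : (D : ℝ) ≤ Real.exp (δ * L) := Nat.floor_le (Real.exp_pos _).le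
  set g : ℕ → ℂ := fun n => an D n * (Phi (V - Real.log n) : ℂ) with hg
  refine ⟨g, ?_, ?_⟩
  · intro n
    simp only [hg]
    rw [norm_mul, Complex.norm_real, Real.norm_of_nonneg (Phi_nonneg _)]
    have h1 := an_norm_le D n
    have h2 := Phi_le_one (V - Real.log n)
    have h3 := Phi_nonneg (V - Real.log n)
    have h4 := norm_nonneg (an D n)
    nlinarith
  intro ρ hρ hβ hγ1 hnot
  push Not at hnot
  have hβ1 : ρ.re ≤ 1 := by
    by_contra h
    push Not at h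
    exact riemannZeta_ne_zero_of_one_le_re h.le hρ
  have hρs0 : 1 / 2 < ρ.re := by linarith
  have hρ0 : 0 ≤ ρ.re := by linarith
  have hL100 : 100 ≤ L ^ 2 := by nlinarith
  have hγge : 1 ≤ |ρ.im| := by linarith
  have hmel := mellin_int hρ hρs0 hβ1 hγge hV0 D
  set Iz : ℝ := ∫ t : ℝ, ‖riemannZeta (1 / 2 + ((ρ.im + t : ℝ) : ℂ) * Complex.I)‖ *
    Real.exp (-1 * t ^ 2) with hIz
  have hIz0 : 0 ≤ Iz := integral_nonneg fun t => by positivity
  have hB2 : 300 * (D * Real.exp (V - ρ.im ^ 2)) ≤ 1 / 16 := by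
    have h1 : (L ^ 2) ^ 2 ≤ ρ.im ^ 2 := by
      have := pow_le_pow_left₀ (by positivity) hγ1 2
      rwa [sq_abs] at this
    have h2 : 100 * L ≤ (L ^ 2) ^ 2 := by nlinarith
    have h3 : (D : ℝ) * Real.exp (V - ρ.im ^ 2) ≤ Real.exp (-(98 * L)) := by
      calc (D : ℝ) * Real.exp (V - ρ.im ^ 2) ≤ Real.exp (δ * L) * Real.exp (V - ρ.im ^ 2) := by gcongr
        _ = Real.exp (δ * L + (V - ρ.im ^ 2)) := (Real.exp_add _ _).symm
        _ ≤ _ := Real.exp_le_exp.mpr (by nlinarith)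
    have h4 : Real.exp (-(98 * L)) ≤ 1 / 4800 := by
      rw [Real.exp_neg, ← one_div, div_le_div_iff_of_pos_left one_pos (Real.exp_pos _) (by norm_num)]
      have h5 := Real.quadratic_le_exp_of_nonneg (show (0 : ℝ) ≤ 98 * L by positivity)
      nlinarith
    linarith
  obtain ⟨n, hn1, hn2⟩ := exists_nat_pow_near (x := Real.exp (V + δ * L)) (y := 2)
    (Real.one_le_exp (by positivity)) (by norm_num)
  have hlogN : V + δ * L ≤ Real.log ((2 ^ (n + 1) : ℕ) : ℝ) := by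
    rw [Real.le_log_iff_exp_le (by positivity)]
    push_cast
    exact hn2.le
  have hfin := finite_sum (ρ := ρ) hρ0 (K := K) (V := V) (L1 := δ * L) hK2 (N0 := 2 ^ (n + 1)) D
    (by positivity) hlogN
  have hB3 : (D : ℝ) * (2 * Real.exp (K ^ 2 + 2 * V - (K - 2) * (δ * L))) ≤ 1 / 16 := by
    have h1 : (K - 2) * (δ * L) = 4 * L := by
      rw [hK]; field_simp; ring
    rw [h1]
    calc (D : ℝ) * (2 * Real.exp (K ^ 2 + 2 * V - 4 * L))
        ≤ Real.exp (δ * L) * (2 * Real.exp (K ^ 2 + 2 * V - 4 * L)) := by gcongr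
      _ = 2 * Real.exp (δ * L + (K ^ 2 + 2 * V - 4 * L)) := by rw [Real.exp_add]; ring
      _ ≤ 2 * Real.exp (-(L / 2 + 0)) := by
          gcongr
          nlinarith
      _ ≤ 1 / 16 := by
          rw [Real.exp_neg, ← div_eq_mul_inv, div_le_iff₀ (Real.exp_pos _)]
          have := exp_ge (L / 2 + 0) (by nlinarith [sq_nonneg K])
          linarith
  have hB4 : 1 - Phi V ≤ 1 / 16 := by
    refine (one_sub_Phi_le 1 le_rfl V).trans ?_
    have h1 : (1 : ℝ) ^ 2 - 1 * V = -(V - 1) := by ring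
    rw [h1, Real.exp_neg, ← one_div, div_le_div_iff_of_pos_left one_pos (Real.exp_pos _) (by norm_num)]
    have := exp_ge (V - 1) (by linarith)
    linarith
  have hdy := dyadic g ρ (n + 1)
  have hg1 : g 1 = (Phi V : ℂ) := by
    simp only [hg]
    rw [an_one hD1]
    simp
  have hlog2 := Real.log_two_gt_d9
  have hnL : ((n : ℝ) + 1) ≤ 8 * L := by
    have h1 : (n : ℝ) * Real.log 2 ≤ V + δ * L := by
      have h2 := Real.log_le_log (by positivity) hn1
      rwa [Real.log_pow, Real.log_exp] at h2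
    have h2 : (n : ℝ) * (1 / 2) ≤ (n : ℝ) * Real.log 2 :=
      mul_le_mul_of_nonneg_left (by linarith) (Nat.cast_nonneg _)
    nlinarith
  -- all blocks are small
  have hblock : ∀ i ∈ range (n + 1), ‖DP g (2 ^ i) 2 ρ‖ ≤ 1 / (16 * L) := by
    intro i hi
    rw [Finset.mem_range] at hi
    rcases le_or_gt (Real.exp (δ * L) / 2) ((2 : ℝ) ^ i) with hc | hc
    · refine (hnot i hc ?_).le
      calc (2 : ℝ) ^ i ≤ 2 ^ n := pow_le_pow_right₀ (by norm_num) (by omega)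
        _ ≤ Real.exp (V + δ * L) := hn1
        _ ≤ _ := by
            apply Real.exp_le_exp.mpr
            rw [hV]
            nlinarith
    · have h1 : 2 * 2 ^ i ≤ D := by
        rw [hD]
        apply Nat.le_floor
        push_cast
        linarith
      have h2 : DP g (2 ^ i) 2 ρ = 0 := by
        unfold DP
        apply Finset.sum_eq_zero
        intro m hm
        rw [Finset.mem_Ioc] at hm
        have h3 : 1 ≤ 2 ^ i := Nat.one_le_two_pow
        have h4 : an D m = 0 := an_zero (by omega) (by omega)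
        simp only [hg]
        rw [h4, zero_mul, zero_mul]
      rw [h2, norm_zero]
      positivity
  have hsmall : ‖∑ i ∈ range (n + 1), DP g (2 ^ i) 2 ρ‖ ≤ 1 / 2 := by
    have h1 : ‖∑ i ∈ range (n + 1), DP g (2 ^ i) 2 ρ‖ ≤ (n + 1 : ℕ) * (1 / (16 * L)) := by
      refine (norm_sum_le _ _).trans ?_
      refine (Finset.sum_le_card_nsmul _ _ _ hblock).trans ?_
      rw [Finset.card_range, nsmul_eq_mul]
    have h2 : ((n + 1 : ℕ) : ℝ) * (1 / (16 * L)) ≤ 1 / 2 := by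
      rw [mul_one_div, div_le_iff₀ (by positivity)]
      push_cast
      linarith
    linarith
  set S : ℂ := ∑ d ∈ Icc 1 D, (ArithmeticFunction.moebius d : ℂ) * (d : ℂ) ^ (-ρ) * In ρ V d with hS
  set T : ℂ := ∑ n ∈ Icc 1 (2 ^ (n + 1)), g n * (n : ℂ) ^ (-ρ) with hT
  have h2 : ‖S - T‖ ≤ 1 / 16 := hfin.trans hB3
  have h4 : ∑ i ∈ range (n + 1), DP g (2 ^ i) 2 ρ = T - (Phi V : ℂ) := by
    rw [hdy, hg1]; ring
  rw [h4] at hsmall
  have h5 : Phi V ≤ ‖T‖ + 1 / 2 := by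
    have h6 := norm_sub_norm_le (Phi V : ℂ) T
    rw [norm_sub_rev, Complex.norm_real, Real.norm_of_nonneg (Phi_nonneg _)] at h6
    linarith
  have h6 : 3 / 8 ≤ ‖S‖ := by
    have h7 := norm_sub_norm_le T S
    rw [norm_sub_rev] at h7
    linarith
  -- conclusion
  have hβ2 : 1 / 11 ≤ ρ.re - 1 / 2 := by
    linarith
  have h7 : D * Real.exp (1 - (ρ.re - 1 / 2) * V) / (ρ.re - 1 / 2) ≤
      33 * (Real.exp (δ * L) * Real.exp (-((1 / 2 - x) * V))) := by
    have h8 : Real.exp (1 - (ρ.re - 1 / 2) * V) ≤ 3 * Real.exp (-((1 / 2 - x) * V)) := by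
      rw [sub_eq_add_neg, Real.exp_add]
      have h9 := Real.exp_one_lt_d9
      have h10 : Real.exp (-((ρ.re - 1 / 2) * V)) ≤ Real.exp (-((1 / 2 - x) * V)) := by
        apply Real.exp_le_exp.mpr
        have : (1 / 2 - x) * V ≤ (ρ.re - 1 / 2) * V := mul_le_mul_of_nonneg_right (by linarith) hV0
        linarith
      have h11 : Real.exp 1 ≤ 3 := by linarith
      exact mul_le_mul h11 h10 (Real.exp_pos _).le (by norm_num)
    calc D * Real.exp (1 - (ρ.re - 1 / 2) * V) / (ρ.re - 1 / 2)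
        ≤ Real.exp (δ * L) * (3 * Real.exp (-((1 / 2 - x) * V))) / (1 / 11) := by gcongr
      _ = _ := by ring
  have h8 : 5 / 16 ≤ 33 * (Real.exp (δ * L) * Real.exp (-((1 / 2 - x) * V))) * Iz := by
    have h9 := mul_le_mul_of_nonneg_right h7 hIz0
    linarith
  have h9 : Real.exp (δ * L) * Real.exp (-((1 / 2 - x) * V)) * Real.exp ((1 / 2 - x) * V - δ * L) = 1 := by
    rw [← Real.exp_add, ← Real.exp_add]
    rw [show δ * L + -((1 / 2 - x) * V) + ((1 / 2 - x) * V - δ * L) = 0 by ring, Real.exp_zero]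
  set E : ℝ := Real.exp ((1 / 2 - x) * V - δ * L) with hE
  have hE0 : 0 < E := Real.exp_pos _
  have h10 : 5 / 16 * E ≤ 33 * Iz := by
    calc 5 / 16 * E ≤ (33 * (Real.exp (δ * L) * Real.exp (-((1 / 2 - x) * V))) * Iz) * E := by gcongr
      _ = 33 * Iz * (Real.exp (δ * L) * Real.exp (-((1 / 2 - x) * V)) * E) := by ring
      _ = 33 * Iz := by rw [h9, mul_one]
  linarith

theorem detectFM (hFM : FourthMoment) : DetectFM := by
  intro τ δ d hτ1 hτ2 hδ hδ' hd hd'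
  obtain ⟨C, hC, hfew⟩ := few_large hFM hδ
  obtain ⟨L0, hL0⟩ := undetected hτ1 hτ2 hδ hδ'
  refine ⟨Real.exp (max (max L0 1) (4 * C * 120 ^ 4 / (60 * δ))), ?_⟩
  intro X x hX hx hx'
  have hX0 : 0 < X := (Real.exp_pos _).trans_le hX
  set L : ℝ := Real.log X with hL
  have hLge : max (max L0 1) (4 * C * 120 ^ 4 / (60 * δ)) ≤ L := by
    rw [hL, Real.le_log_iff_exp_le hX0]; exact hX
  have hLa : L0 ≤ L := (le_max_left _ _).trans ((le_max_left _ _).trans hLge)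
  have hLb : 1 ≤ L := (le_max_right _ _).trans ((le_max_left _ _).trans hLge)
  have hLc : 4 * C * 120 ^ 4 / (60 * δ) ≤ L := (le_max_right _ _).trans hLge
  have hpow : ∀ a : ℝ, X ^ a = Real.exp (a * L) := by
    intro a
    rw [Real.rpow_def_of_pos hX0, mul_comm]
  obtain ⟨g, hg1, hg2⟩ := hL0 L hLa x hx hx'
  refine ⟨g, hg1, ?_⟩
  intro Z hZ hZp
  set V : ℝ := (τ / 2 + 40 * δ) * L with hV
  set B : ℝ := Real.exp ((1 / 2 - x) * V - δ * L) / 120 with hB
  have hB0 : 0 < B := by rw [hB]; positivity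
  set T : ℝ := 2 * Real.exp ((τ + 2 * d) * L) with hT
  have hexp1 : 1 ≤ Real.exp ((τ + 2 * d) * L) := Real.one_le_exp (by positivity)
  have hT1 : 1 ≤ T := by rw [hT]; linarith
  have key := hfew Z T B hT1 hB0 hZ
    (fun ρ hρ => by
      obtain ⟨_, _, _, h4, _⟩ := hZp ρ hρ
      rw [hpow] at h4
      rw [hT]; linarith)
    (fun ρ hρ => by
      obtain ⟨h1, h2, h3, h4, h5⟩ := hZp ρ hρ
      simp_rw [hpow] at h5
      exact hg2 ρ h1 h2 h3 h5)
  have hT2 : T ^ (1 + δ) ≤ 4 * Real.exp ((τ + 2 * d) * (1 + δ) * L) := by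
    rw [hT, Real.mul_rpow (by norm_num) (Real.exp_pos _).le, ← Real.exp_mul]
    have h1 : (2 : ℝ) ^ (1 + δ) ≤ 4 := by
      calc (2 : ℝ) ^ (1 + δ) ≤ 2 ^ (2 : ℝ) :=
            Real.rpow_le_rpow_of_exponent_le (by norm_num) (by linarith)
        _ = 4 := by norm_num
    have h2 : (τ + 2 * d) * L * (1 + δ) = (τ + 2 * d) * (1 + δ) * L := by ring
    rw [h2]
    gcongr
  have hB4 : B ^ 4 = Real.exp (4 * ((1 / 2 - x) * V - δ * L)) / 120 ^ 4 := by
    rw [hB, div_pow, ← Real.exp_nat_mul]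
    norm_num
  set E4 : ℝ := Real.exp (4 * ((1 / 2 - x) * V - δ * L)) with hE4
  have hE40 : 0 < E4 := Real.exp_pos _
  have h1 : (Z.card : ℝ) * E4 ≤ (4 * C * 120 ^ 4) * Real.exp ((τ + 2 * d) * (1 + δ) * L) := by
    rw [hB4] at key
    have h2 : (Z.card : ℝ) * E4 = 120 ^ 4 * ((Z.card : ℝ) * (E4 / 120 ^ 4)) := by
      field_simp
    rw [h2]
    calc 120 ^ 4 * ((Z.card : ℝ) * (E4 / 120 ^ 4)) ≤ 120 ^ 4 * (C * T ^ (1 + δ)) := by gcongr
      _ ≤ 120 ^ 4 * (C * (4 * Real.exp ((τ + 2 * d) * (1 + δ) * L))) := by gcongr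
      _ = _ := by ring
  have h2 : 4 * C * 120 ^ 4 ≤ Real.exp (60 * δ * L) := by
    have h3 : 4 * C * 120 ^ 4 ≤ 60 * δ * L := by
      rw [div_le_iff₀ (by positivity)] at hLc
      linarith
    linarith [Real.add_one_le_exp (60 * δ * L)]
  have h3 : (τ + 2 * d) * (1 + δ) * L ≤ 4 * ((1 / 2 - x) * V - δ * L) + 2 * x * τ * L := by
    rw [hV]
    have h4 : (τ + 2 * d) * (1 + δ) ≤
        4 * ((1 / 2 - x) * (τ / 2 + 40 * δ) - δ) + 2 * x * τ := by
      have h5 : τ * δ ≤ δ := by nlinarith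
      have h6 : d * δ ≤ δ * (1 / 1000) := by nlinarith
      have h7 : x * δ ≤ 0.401 * δ := by
        apply mul_le_mul_of_nonneg_right _ hδ.le
        linarith
      nlinarith
    calc (τ + 2 * d) * (1 + δ) * L ≤ (4 * ((1 / 2 - x) * (τ / 2 + 40 * δ) - δ) + 2 * x * τ) * L := by
          gcongr
      _ = _ := by ring
  have h4 : (Z.card : ℝ) * E4 ≤ Real.exp ((2 * x * τ + 60 * δ) * L) * E4 := by
    calc (Z.card : ℝ) * E4 ≤ (4 * C * 120 ^ 4) * Real.exp ((τ + 2 * d) * (1 + δ) * L) := h1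
      _ ≤ Real.exp (60 * δ * L) * Real.exp (4 * ((1 / 2 - x) * V - δ * L) + 2 * x * τ * L) := by
          gcongr
      _ = Real.exp ((2 * x * τ + 60 * δ) * L) * E4 := by
          rw [hE4, ← Real.exp_add, ← Real.exp_add]
          congr 1
          ring
  rw [hpow]
  exact le_of_mul_le_mul_right h4 hE40

end Pool.Agent.Helper26.KC
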