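import Pool.Agent.Helper26.KC.F6
import Pool.Agent.Helper52.KC.FMall

/-! KS, fourth moment: unconditional form of FM-6 -/

set_option autoImplicit false

namespace Pool.Agent.Helper26.KC

/-- class II zeros are few -/
theorem detect_fm : DetectFM := detectFM Pool.Agent.Helper52.KC.fourth_moment

end Pool.Agent.Helper26.KC
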