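import Pool.Agent.Helper26.KC.StFM

/-!
# Project KS: Huxley's density theorem (statements)
-/

set_option autoImplicit false
open MeasureTheory Filter Topology Finset

namespace Pool.Agent.Helper26.KC

open Pool.Agent.Helper60.KS (DP Spaced1 mz)

/-- detection at the length `T^(1/2)` with few exceptions, for `x ≤ 0.45` -/
def DetectFM45 : Prop := ∀ τ δ d : ℝ, 1 / 10 ≤ τ → τ ≤ 1 → 0 < δ → δ ≤ 1 / 1000 → 0 < d → d ≤ δ →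
  ∃ X0 : ℝ, ∀ X x : ℝ, X0 ≤ X → 0 < x → x ≤ 0.45 → ∃ g : ℕ → ℂ, (∀ n, ‖g n‖ ≤ (n.divisors.card : ℝ)) ∧
  ∀ Z : Finset ℂ, Spaced1 Z → (∀ ρ ∈ Z, riemannZeta ρ = 0 ∧ 1 - x ≤ ρ.re ∧ Real.log X ^ 2 ≤ |ρ.im| ∧
    |ρ.im| ≤ X ^ (τ + 2 * d) + 1 ∧ ¬ ∃ i : ℕ, X ^ δ / 2 ≤ (2 : ℝ) ^ i ∧ (2 : ℝ) ^ i ≤ X ^ (τ / 2 + 45 * δ) ∧
      1 / (16 * Real.log X) ≤ ‖DP g (2 ^ i) 2 ρ‖) →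
  (Z.card : ℝ) ≤ X ^ (2 * x * τ + 60 * δ)

/-- Huxley's density theorem for spaced zeros, `0.55 ≤ σ = 1 - x` -/
def DensS : Prop := ∀ ε : ℝ, 0 < ε → ∃ T0 : ℝ, ∀ T x : ℝ, T0 ≤ T → 0 < x → x ≤ 0.45 →
  ∀ Z : Finset ℂ, Spaced1 Z →
  (∀ ρ ∈ Z, riemannZeta ρ = 0 ∧ 1 - x ≤ ρ.re ∧ Real.log T ^ 2 ≤ |ρ.im| ∧ |ρ.im| ≤ T) →
  (Z.card : ℝ) ≤ T ^ (2.4 * x + ε)

/-- Huxley's density theorem `N(σ,T) ≤ C T^(12/5 (1-σ) + ε)`, `0.55 ≤ σ ≤ 1`, with multiplicities -/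
def Dens : Prop := ∀ ε : ℝ, 0 < ε → ∃ C : ℝ, 0 < C ∧ ∀ T x : ℝ, 2 ≤ T → 0 < x → x ≤ 0.45 → ∀ F : Finset ℂ,
  (∀ ρ ∈ F, riemannZeta ρ = 0 ∧ 1 - x ≤ ρ.re ∧ |ρ.im| ≤ T) →
  ∑ ρ ∈ F, (mz ρ : ℝ) ≤ C * T ^ (2.4 * x + ε)

end Pool.Agent.Helper26.KC
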