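import Pool.Agent.Helper26.KC.StDens
import Pool.Agent.Helper60.KC.ClassBound

/-!
# KS, Huxley's density theorem for spaced zeros
-/

set_option autoImplicit false
set_option maxHeartbeats 4000000
open Filter Topology
open scoped Classical

namespace Pool.Agent.Helper26.KC

open Pool.Agent.Helper60.KS
open Pool.Agent.Helper60.KC (small log_add_le)

/-- zeros detected by one polynomial -/
structure ClsD (δ T x : ℝ) (Z : Finset ℂ) (g : ℕ → ℂ) (N : ℕ) : Prop where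
  hx0 : 0 < x
  hx1 : x ≤ 0.45
  hs : InStrip Z (1 - x) 1 T
  hsp : Spaced1 Z
  hg : ∀ n, ‖g n‖ ≤ (n.divisors.card : ℝ)
  hN0 : T ^ δ / 2 ≤ N
  hN1 : (N : ℝ) ≤ T ^ (1 / 2 + 45 * δ)
  hD : ∀ ρ ∈ Z, 1 / (16 * Real.log T) ≤ ‖DP g N 2 ρ‖

lemma baseD {δ : ℝ} (hδ : 0 < δ) (hδ' : δ ≤ 1 / 1000) : ∀ᶠ T : ℝ in atTop, ∀ (x : ℝ) (Z : Finset ℂ)
    (g : ℕ → ℂ) (N : ℕ), ClsD δ T x Z g N →
    8 ≤ T ∧ 10 ≤ Real.log T ∧ 1 ≤ N ∧ δ / 2 * Real.log T ≤ Real.log N ∧
      Real.log N ≤ (1 / 2 + 45 * δ) * Real.log T ∧ Real.log N ≤ Real.log T := by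
  filter_upwards [small 1 0 (δ/2) (by linarith), eventually_ge_atTop (Real.exp 10), eventually_ge_atTop 8]
    with T h1 h2 h8 x Z g N h
  have hX : (0:ℝ) < T := by linarith
  have hl : 10 ≤ Real.log T := by
    rw [Real.le_log_iff_exp_le hX]; exact h2
  have hl0 : 0 < Real.log T := by linarith
  have hN0 := h.hN0
  have hXd : (0:ℝ) < T ^ δ := Real.rpow_pos_of_pos hX _
  have hNpos : (0:ℝ) < N := by linarith
  have hN1 : 1 ≤ N := by
    have : 0 < N := by exact_mod_cast hNpos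
    omega
  have h3 : Real.log (T ^ δ / 2) ≤ Real.log N := Real.log_le_log (by positivity) hN0
  rw [Real.log_div (by positivity) (by norm_num), Real.log_rpow hX] at h3
  have h4 : Real.log 2 ≤ 1 := by have := Real.log_two_lt_d9; linarith
  have h5 : Real.log N ≤ (1 / 2 + 45 * δ) * Real.log T := by
    rw [← Real.log_rpow hX]; exact Real.log_le_log hNpos h.hN1
  refine ⟨h8, hl, hN1, ?_, h5, ?_⟩
  · nlinarith
  · refine le_trans h5 ?_
    have : (1 / 2 + 45 * δ) ≤ 1 := by linarith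
    nlinarith

lemma pow_classD (hP : PowDP) {δ : ℝ} (hδ : 0 < δ) (hδ' : δ ≤ 1 / 1000) (k : ℕ) (hk : 1 ≤ k) (ε1 : ℝ)
    (hε1 : 0 < ε1) :
    ∃ C1 : ℝ, 0 < C1 ∧ ∀ᶠ T : ℝ in atTop, ∀ (x : ℝ) (Z : Finset ℂ)
    (g : ℕ → ℂ) (N : ℕ), ClsD δ T x Z g N →
    ∃ b : ℕ → ℂ, (∀ n, ‖b n‖ ≤ C1 * (N : ℝ) ^ ε1) ∧
      ∀ ρ ∈ Z, (1 / (16 * Real.log T)) ^ k ≤ ‖DP b (N ^ k) (2 ^ k) ρ‖ := by
  obtain ⟨C1, hC1, h⟩ := hP k ε1 hk hε1
  refine ⟨C1, hC1, ?_⟩
  filter_upwards [baseD hδ hδ'] with T hb x Z g N hcl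
  obtain ⟨h8, hl, hN, -⟩ := hb x Z g N hcl
  obtain ⟨b, hb1, hb2⟩ := h g N hN hcl.hg
  refine ⟨b, hb1, fun ρ hρ => ?_⟩
  rw [← hb2, norm_pow]
  exact pow_le_pow_left₀ (by positivity) (hcl.hD ρ hρ) k

/-- first bound: mean values -/
lemma P1D (hMV : MVCount) (hP : PowDP) {δ : ℝ} (hδ : 0 < δ) (hδ' : δ ≤ 1 / 1000) (k : ℕ) (hk : 1 ≤ k) :
    ∀ᶠ T : ℝ in atTop, ∀ (x : ℝ) (Z : Finset ℂ) (g : ℕ → ℂ) (N : ℕ),
    ClsD δ T x Z g N → Z.Nonempty → (k : ℝ) * Real.log N ≤ 2 * Real.log T →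
    Real.log Z.card ≤ max (2 * x * (k * Real.log N))
      (Real.log T - k * Real.log N * (1 - 2 * x)) + 40 * δ * Real.log T := by
  obtain ⟨C1, hC1, hpc⟩ := pow_classD hP hδ hδ' k hk (δ / 10) (by positivity)
  obtain ⟨C, hC, hmv⟩ := hMV (2 ^ k) (Nat.one_le_two_pow)
  filter_upwards [baseD hδ hδ', hpc, small (2 * k * Real.log 16 + Real.log C + 2 * Real.log C1 + 5 + Real.log 2)
    (2 * k + 2) δ hδ] with T hb hpc hsm x Z g N h hZ hkq
  obtain ⟨h8, hl, hN, hq0, hq1, hq2⟩ := hb x Z g N h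
  obtain ⟨b, hb1, hb2⟩ := hpc x Z g N h
  have hx0 := h.hx0
  have hx1 := h.hx1
  have hN' : (1:ℝ) ≤ N := by exact_mod_cast hN
  have hQ : 1 ≤ N ^ k := Nat.one_le_pow _ _ (by omega)
  have hl0 : 0 < Real.log T := by linarith
  have hkk : (1:ℝ) ≤ k := by exact_mod_cast hk
  have hZc : (0:ℝ) < Z.card := by exact_mod_cast hZ.card_pos
  set l := Real.log T with hldef
  set q := Real.log N with hqdef
  have hq00 : 0 ≤ q := Real.log_nonneg hN'
  have hVpos : 0 < (1 / (16 * l)) ^ k := by positivity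
  have hB : 0 < C1 * (N:ℝ) ^ (δ / 10) := by positivity
  have hmain := hmv Z b (N ^ k) (C1 * (N:ℝ) ^ (δ/10)) ((1 / (16 * l)) ^ k) (1 - x) 1 T (1 / l) hQ
    (by linarith) (by positivity) (by rw [div_le_div_iff₀ hl0 (by norm_num)]; linarith) (by linarith)
    (by linarith) (by linarith) le_rfl hVpos hB.le hb1 h.hs h.hsp hb2
  have hQpos : (0:ℝ) < ((N ^ k : ℕ) : ℝ) := by exact_mod_cast hQ
  have hlogQ : Real.log ((N ^ k : ℕ) : ℝ) = k * q := by push_cast; rw [Real.log_pow]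
  have hlg := Real.log_le_log (by positivity) hmain
  have hTQ : (0:ℝ) < T + ((N ^ k : ℕ) : ℝ) := by linarith
  rw [Real.log_mul hZc.ne' (by positivity), Real.log_pow, Real.log_pow, Real.log_div (by norm_num) (by positivity),
    Real.log_one, Real.log_mul (by norm_num) hl0.ne', Real.log_mul (by positivity) (by positivity),
    Real.log_mul (by positivity) hTQ.ne', Real.log_div (by positivity) (by positivity), Real.log_mul hC.ne' (by positivity),
    Real.log_pow, Real.log_mul hC1.ne' (by positivity), Real.log_rpow (by linarith), Real.log_rpow hQpos,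
    Real.log_pow, Real.log_div (by norm_num) hl0.ne', Real.log_one, hlogQ] at hlg
  have hqq : (2 * (1 / l)) * (k * q) ≤ 4 := by
    have : (2 * (1 / l)) * (k * q) = 2 * (k * q) / l := by ring
    rw [this, div_le_iff₀ hl0]; linarith
  have hexp : (1 - 2 * (1 - x) + 2 * (1 / l)) * (k * q) = -(k * q * (1 - 2 * x)) + (2 * (1 / l)) * (k * q) := by ring
  rw [hexp] at hlg
  have hdq : δ / 10 * q ≤ δ / 10 * l := mul_le_mul_of_nonneg_left hq2 (by positivity)
  simp only [Nat.cast_ofNat] at hlg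
  rw [← hqdef] at hlg
  have hdl0 : 0 ≤ δ * l := by positivity
  rcases log_add_le (show 0 < T by linarith) hQpos with hc | hc
  · refine le_trans ?_ (add_le_add_left (le_max_right _ _) _)
    linarith
  · refine le_trans ?_ (add_le_add_left (le_max_left _ _) _)
    rw [hlogQ] at hc
    linarith

/-- second bound: Huxley -/
lemma P2D (hMV : HuxleyCount) (hP : PowDP) {δ : ℝ} (hδ : 0 < δ) (hδ' : δ ≤ 1 / 1000) (k : ℕ) (hk : 1 ≤ k) :
    ∀ᶠ T : ℝ in atTop, ∀ (x : ℝ) (Z : Finset ℂ) (g : ℕ → ℂ) (N : ℕ),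
    ClsD δ T x Z g N → Z.Nonempty → (k : ℝ) * Real.log N ≤ 2 * Real.log T →
    Real.log Z.card ≤ max (2 * x * (k * Real.log N))
      (Real.log T - k * Real.log N * (2 - 6 * x)) + 40 * δ * Real.log T := by
  obtain ⟨C1, hC1, hpc⟩ := pow_classD hP hδ hδ' k hk (δ / 10) (by positivity)
  obtain ⟨C, hC, hmv⟩ := hMV (2 ^ k) (Nat.one_le_two_pow)
  filter_upwards [baseD hδ hδ', hpc, small (2 * k * Real.log 16 + Real.log C + 2 * Real.log C1 + 2 * Real.log 2)
    (2 * k + 1) δ hδ, small (6 * k * Real.log 16 + Real.log C + 6 * Real.log C1 + 1 + 2 * Real.log 2)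
    (6 * k + 1) δ hδ] with T hb hpc hsm1 hsm2 x Z g N h hZ hkq
  obtain ⟨h8, hl, hN, hq0, hq1, hq2⟩ := hb x Z g N h
  obtain ⟨b, hb1, hb2⟩ := hpc x Z g N h
  have hx0 := h.hx0
  have hx1 := h.hx1
  have hN' : (1:ℝ) ≤ N := by exact_mod_cast hN
  have hQ : 1 ≤ N ^ k := Nat.one_le_pow _ _ (by omega)
  have hl0 : 0 < Real.log T := by linarith
  have hkk : (1:ℝ) ≤ k := by exact_mod_cast hk
  have hZc : (0:ℝ) < Z.card := by exact_mod_cast hZ.card_pos
  have hT4 : Real.log (T + 2) ≤ 2 * Real.log T := by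
    rw [← Real.log_rpow (by linarith : (0:ℝ) < T)]
    apply Real.log_le_log (by linarith)
    have e2 : T ^ (2:ℝ) = T * T := by rw [show (2:ℝ) = ((2:ℕ):ℝ) by norm_num, Real.rpow_natCast]; ring
    rw [e2]; nlinarith
  set l := Real.log T with hldef
  set q := Real.log N with hqdef
  have hq00 : 0 ≤ q := Real.log_nonneg hN'
  have hVpos : 0 < (1 / (16 * l)) ^ k := by positivity
  have hB : 0 < C1 * (N:ℝ) ^ (δ / 10) := by positivity
  have hmain := hmv Z b (N ^ k) (C1 * (N:ℝ) ^ (δ/10)) ((1 / (16 * l)) ^ k) (1 - x) 1 T hQ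
    (by linarith) (by linarith)
    (by linarith) (by linarith) le_rfl hVpos hB hb1 h.hs h.hsp hb2
  have hQpos : (0:ℝ) < ((N ^ k : ℕ) : ℝ) := by exact_mod_cast hQ
  have hlogQ : Real.log ((N ^ k : ℕ) : ℝ) = k * q := by push_cast; rw [Real.log_pow]
  have hlT : 0 < Real.log (T + 2) := Real.log_pos (by linarith)
  have hllT : Real.log (Real.log (T + 2)) ≤ Real.log 2 + Real.log l := by
    rw [← Real.log_mul (by norm_num) hl0.ne']
    exact Real.log_le_log hlT hT4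
  have hlg := Real.log_le_log (by positivity) hmain
  have hTp : 0 < T := by linarith
  have hin : (0:ℝ) < T * ((C1 * (N:ℝ) ^ (δ / 10)) ^ 4 * ((N ^ k : ℕ) : ℝ) ^ (2 - 4 * (1 - x)) / ((1 / (16 * l)) ^ k) ^ 4) := by
    positivity
  have hlogin : Real.log (T * ((C1 * (N:ℝ) ^ (δ / 10)) ^ 4 * ((N ^ k : ℕ) : ℝ) ^ (2 - 4 * (1 - x)) / ((1 / (16 * l)) ^ k) ^ 4)) =
      Real.log T + (4 * (Real.log C1 + δ / 10 * q) + (2 - 4 * (1 - x)) * (k * q) + 4 * (k * (Real.log 16 + Real.log l))) := by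
    rw [Real.log_mul hTp.ne' (by positivity), Real.log_div (by positivity) (by positivity),
      Real.log_mul (by positivity) (by positivity), Real.log_pow, Real.log_pow, Real.log_pow,
      Real.log_mul hC1.ne' (by positivity), Real.log_rpow (by linarith), Real.log_rpow hQpos,
      Real.log_div (by norm_num) (by positivity), Real.log_one, Real.log_mul (by norm_num) hl0.ne', hlogQ]
    simp only [Nat.cast_ofNat]
    rw [← hqdef]
    ring
  rw [Real.log_mul (by positivity) (by positivity), Real.log_mul (by positivity) hlT.ne', Real.log_mul hC.ne' (by positivity),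
    Real.log_div (by positivity) (by positivity), Real.log_mul (by positivity) (by positivity),
    Real.log_pow, Real.log_mul hC1.ne' (by positivity), Real.log_rpow (by linarith), Real.log_rpow hQpos,
    Real.log_pow, Real.log_pow, Real.log_div (by norm_num) (by positivity), Real.log_one,
    Real.log_mul (by norm_num) hl0.ne', hlogQ] at hlg
  have hdq : δ / 10 * q ≤ δ / 10 * l := mul_le_mul_of_nonneg_left hq2 (by positivity)
  simp only [Nat.cast_ofNat] at hlg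
  rw [← hqdef] at hlg
  have hdl0 : 0 ≤ δ * l := by positivity
  rcases log_add_le one_pos hin with hc | hc
  · refine le_trans ?_ (add_le_add_left (le_max_left _ _) _)
    rw [Real.log_one] at hc
    linarith
  · refine le_trans ?_ (add_le_add_left (le_max_right _ _) _)
    rw [hlogin] at hc
    linarith

/-- one class has at most `T^(2.4 x + 40 δ)` elements -/
lemma class_card (hMV : MVCount) (hHC : HuxleyCount) (hP : PowDP) {δ : ℝ} (hδ : 0 < δ) (hδ' : δ ≤ 1 / 1000) :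
    ∀ᶠ T : ℝ in atTop, ∀ (x : ℝ) (Z : Finset ℂ) (g : ℕ → ℂ) (N : ℕ),
    ClsD δ T x Z g N → (Z.card : ℝ) ≤ T ^ (2.4 * x + 40 * δ) := by
  set K : ℕ := ⌈1.6 / δ + 1⌉₊ with hK
  have e1 : ∀ᶠ T : ℝ in atTop, ∀ k ∈ Finset.Icc 1 K, ∀ (x : ℝ) (Z : Finset ℂ) (g : ℕ → ℂ) (N : ℕ),
      ClsD δ T x Z g N → Z.Nonempty → (k : ℝ) * Real.log N ≤ 2 * Real.log T →
      Real.log Z.card ≤ max (2 * x * (k * Real.log N))
        (Real.log T - k * Real.log N * (1 - 2 * x)) + 40 * δ * Real.log T := by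
    rw [Filter.eventually_all_finset]
    intro k hk
    exact P1D hMV hP hδ hδ' k (Finset.mem_Icc.mp hk).1
  have e2 : ∀ᶠ T : ℝ in atTop, ∀ k ∈ Finset.Icc 1 K, ∀ (x : ℝ) (Z : Finset ℂ) (g : ℕ → ℂ) (N : ℕ),
      ClsD δ T x Z g N → Z.Nonempty → (k : ℝ) * Real.log N ≤ 2 * Real.log T →
      Real.log Z.card ≤ max (2 * x * (k * Real.log N))
        (Real.log T - k * Real.log N * (2 - 6 * x)) + 40 * δ * Real.log T := by
    rw [Filter.eventually_all_finset]
    intro k hk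
    exact P2D hHC hP hδ hδ' k (Finset.mem_Icc.mp hk).1
  filter_upwards [baseD hδ hδ', e1, e2] with T hb h1 h2 x Z g N h
  obtain ⟨h8, hl, hN, hq0, hq1, hq2⟩ := hb x Z g N h
  have hx0 := h.hx0
  have hx1 := h.hx1
  have hT0 : (0 : ℝ) < T := by linarith
  rcases Z.eq_empty_or_nonempty with hZ | hZ
  · rw [hZ]; simp; positivity
  have hZc : (0:ℝ) < Z.card := by exact_mod_cast hZ.card_pos
  have hl0 : 0 < Real.log T := by linarith
  set l := Real.log T with hldef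
  set q := Real.log N with hqdef
  have hqpos : 0 < q := lt_of_lt_of_le (by positivity) hq0
  set a : ℝ := 0.8 * l / q with ha
  have ha0 : 0 < a := by rw [ha]; positivity
  set k : ℕ := ⌈a⌉₊ with hk
  have hk1 : 1 ≤ k := by
    rw [hk]; exact Nat.one_le_ceil_iff.mpr ha0
  have hka : a ≤ k := Nat.le_ceil a
  have hka2 : (k : ℝ) < a + 1 := Nat.ceil_lt_add_one ha0.le
  have haq : a * q = 0.8 * l := by rw [ha]; field_simp
  have hkq1 : 0.8 * l ≤ k * q := by
    rw [← haq]; exact mul_le_mul_of_nonneg_right hka hqpos.le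
  have hkq2 : k * q ≤ 1.2 * l := by
    rcases le_or_gt q (0.4 * l) with hc | hc
    · have : (k : ℝ) * q ≤ (a + 1) * q := mul_le_mul_of_nonneg_right hka2.le hqpos.le
      nlinarith
    · have ha2 : a ≤ 2 := by
        rw [ha, div_le_iff₀ hqpos]; linarith
      have hk2 : k ≤ 2 := by
        rw [hk]; exact Nat.ceil_le.mpr (by exact_mod_cast ha2)
      have hk2' : (k : ℝ) ≤ 2 := by exact_mod_cast hk2
      have h3 : (k : ℝ) * q ≤ 2 * q := mul_le_mul_of_nonneg_right hk2' hqpos.le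
      have h4 : 2 * q ≤ (1 + 90 * δ) * l := by linarith
      have h5 : (1 + 90 * δ) * l ≤ 1.2 * l := mul_le_mul_of_nonneg_right (by linarith) hl0.le
      linarith
  have hkK : k ∈ Finset.Icc 1 K := by
    rw [Finset.mem_Icc]
    refine ⟨hk1, ?_⟩
    rw [hk, hK]
    apply Nat.ceil_le_ceil
    have : a ≤ 1.6 / δ := by
      rw [ha, div_le_div_iff₀ hqpos hδ]
      nlinarith
    linarith
  have hkq3 : (k : ℝ) * q ≤ 2 * l := by linarith
  have hfin : Real.log Z.card ≤ (2.4 * x + 40 * δ) * l := by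
    have m1 : 2 * x * (k * q) ≤ 2.4 * x * l := by nlinarith
    rcases le_total x (1 / 4) with hc | hc
    · have h3 := h2 k hkK x Z g N h hZ hkq3
      have m2 : l - k * q * (2 - 6 * x) ≤ 2.4 * x * l := by
        have : 0.8 * l * (2 - 6 * x) ≤ k * q * (2 - 6 * x) :=
          mul_le_mul_of_nonneg_right hkq1 (by linarith)
        nlinarith
      have m3 := max_le m1 m2
      linarith
    · have h3 := h1 k hkK x Z g N h hZ hkq3
      have m2 : l - k * q * (1 - 2 * x) ≤ 2.4 * x * l := by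
        have : 0.8 * l * (1 - 2 * x) ≤ k * q * (1 - 2 * x) :=
          mul_le_mul_of_nonneg_right hkq1 (by linarith)
        nlinarith
      have m3 := max_le m1 m2
      linarith
  rw [Real.rpow_def_of_pos hT0, ← Real.log_le_iff_le_exp hZc, ← hldef]
  linarith

theorem densS (hMV : MVCount) (hHC : HuxleyCount) (hP : PowDP) (hDF : DetectFM45) : DensS := by
  intro ε hε
  set δ : ℝ := min ε 1 / 1000 with hδdef
  have hmin : 0 < min ε 1 := lt_min hε one_pos
  have hδ : 0 < δ := by rw [hδdef]; positivity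
  have hδ' : δ ≤ 1 / 1000 := by
    rw [hδdef]
    have := min_le_right ε 1
    linarith
  have hδε : 1000 * δ ≤ ε := by
    rw [hδdef]
    have := min_le_left ε 1
    linarith
  obtain ⟨X0, hX0⟩ := hDF 1 δ δ (by norm_num) le_rfl hδ hδ' hδ le_rfl
  have ev := (class_card hMV hHC hP hδ hδ').and ((small (Real.log 4 + 1) 1 δ hδ).and
    ((eventually_ge_atTop X0).and (eventually_ge_atTop (Real.exp 10))))
  obtain ⟨T0, hT0⟩ := Filter.eventually_atTop.mp ev
  refine ⟨T0, ?_⟩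
  intro T x hT hx hx' Z hZ hZp
  obtain ⟨hcc, hsm, hXT, hT10⟩ := hT0 T hT
  have hTpos : 0 < T := (Real.exp_pos _).trans_le hT10
  have hl10 : 10 ≤ Real.log T := by rw [Real.le_log_iff_exp_le hTpos]; exact hT10
  have hT1 : 1 ≤ T := by
    have := Real.add_one_le_exp (10 : ℝ)
    linarith
  obtain ⟨g, hg1, hg2⟩ := hX0 T x hXT hx hx'
  have hl0 : 0 < Real.log T := by linarith
  -- detected at i
  set det : ℂ → ℕ → Prop := fun ρ i => T ^ δ / 2 ≤ (2 : ℝ) ^ i ∧ (2 : ℝ) ^ i ≤ T ^ ((1:ℝ) / 2 + 45 * δ) ∧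
      1 / (16 * Real.log T) ≤ ‖DP g (2 ^ i) 2 ρ‖ with hdet
  set I : ℕ := ⌈2 * Real.log T⌉₊ with hI
  have hspf : ∀ Z' : Finset ℂ, Z' ⊆ Z → Spaced1 Z' := by
    intro Z' hZ' ρ hρ ρ' hρ' hne
    exact hZ ρ (hZ' hρ) ρ' (hZ' hρ') hne
  have hZ2 : ((Z.filter (fun ρ => ¬ ∃ i, det ρ i)).card : ℝ) ≤ T ^ (2 * x * 1 + 60 * δ) := by
    apply hg2 _ (hspf _ (Finset.filter_subset _ _))
    intro ρ hρ
    rw [Finset.mem_filter] at hρ
    obtain ⟨h1, h2, h3, h4⟩ := hZp ρ hρ.1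
    refine ⟨h1, h2, h3, ?_, hρ.2⟩
    have h5 : T ≤ T ^ ((1:ℝ) + 2 * δ) := by
      calc T = T ^ (1:ℝ) := (Real.rpow_one _).symm
        _ ≤ _ := Real.rpow_le_rpow_of_exponent_le hT1 (by linarith)
    linarith
  have hZi : ∀ i : ℕ, ((Z.filter (fun ρ => det ρ i)).card : ℝ) ≤ T ^ (2.4 * x + 40 * δ) := by
    intro i
    rcases (Z.filter (fun ρ => det ρ i)).eq_empty_or_nonempty with he | he
    · rw [he]; simp; positivity
    obtain ⟨ρ0, hρ0⟩ := he
    rw [Finset.mem_filter] at hρ0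
    apply hcc x _ g (2 ^ i)
    refine ⟨hx, hx', ?_, hspf _ (Finset.filter_subset _ _), hg1, ?_, ?_, ?_⟩
    · intro ρ hρ
      rw [Finset.mem_filter] at hρ
      obtain ⟨h1, h2, h3, h4⟩ := hZp ρ hρ.1
      refine ⟨h2, ?_, h4⟩
      by_contra hcon
      exact riemannZeta_ne_zero_of_one_le_re (not_le.mp hcon).le h1
    · push_cast; exact hρ0.2.1
    · push_cast; exact hρ0.2.2.1
    · intro ρ hρ
      rw [Finset.mem_filter] at hρ
      exact hρ.2.2.2
  have hcover : Z ⊆ (Z.filter (fun ρ => ¬ ∃ i, det ρ i)) ∪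
      (Finset.range (I + 1)).biUnion (fun i => Z.filter (fun ρ => det ρ i)) := by
    intro ρ hρ
    rw [Finset.mem_union, Finset.mem_filter, Finset.mem_biUnion]
    by_cases h : ∃ i, det ρ i
    · right
      obtain ⟨i, hi⟩ := h
      refine ⟨i, ?_, Finset.mem_filter.mpr ⟨hρ, hi⟩⟩
      rw [Finset.mem_range]
      have h1 : (i : ℝ) * Real.log 2 ≤ (1 / 2 + 45 * δ) * Real.log T := by
        rw [← Real.log_pow, ← Real.log_rpow hTpos]
        exact Real.log_le_log (by positivity) hi.2.1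
      have h2 : (i : ℝ) * (1 / 2) ≤ (i : ℝ) * Real.log 2 :=
        mul_le_mul_of_nonneg_left (by linarith [Real.log_two_gt_d9]) (Nat.cast_nonneg _)
      have h3 : (i : ℝ) ≤ 2 * Real.log T := by nlinarith
      have h4 : (i : ℝ) ≤ I := h3.trans (Nat.le_ceil _)
      have h5 : i ≤ I := by exact_mod_cast h4
      omega
    · left
      exact ⟨hρ, h⟩
  have hcard : (Z.card : ℝ) ≤ T ^ (2 * x * 1 + 60 * δ) + (I + 1 : ℕ) * T ^ (2.4 * x + 40 * δ) := by
    have h1 := Finset.card_le_card hcover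
    have h2 := (h1.trans (Finset.card_union_le _ _))
    have h3 : (Z.card : ℝ) ≤ ((Z.filter (fun ρ => ¬ ∃ i, det ρ i)).card : ℝ) +
        (((Finset.range (I + 1)).biUnion (fun i => Z.filter (fun ρ => det ρ i))).card : ℝ) := by
      exact_mod_cast h2
    have h4 : (((Finset.range (I + 1)).biUnion (fun i => Z.filter (fun ρ => det ρ i))).card : ℝ) ≤
        ∑ i ∈ Finset.range (I + 1), ((Z.filter (fun ρ => det ρ i)).card : ℝ) := by
      have := Finset.card_biUnion_le (s := Finset.range (I + 1)) (t := fun i => Z.filter (fun ρ => det ρ i))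
      exact_mod_cast this
    have h5 : ∑ i ∈ Finset.range (I + 1), ((Z.filter (fun ρ => det ρ i)).card : ℝ) ≤
        (I + 1 : ℕ) * T ^ (2.4 * x + 40 * δ) := by
      have := Finset.sum_le_card_nsmul (Finset.range (I + 1)) _ _ (fun i _ => hZi i)
      rwa [Finset.card_range, nsmul_eq_mul] at this
    linarith
  have hA : T ^ (2 * x * 1 + 60 * δ) ≤ T ^ (2.4 * x + 60 * δ) :=
    Real.rpow_le_rpow_of_exponent_le hT1 (by linarith)
  have hB : T ^ (2.4 * x + 40 * δ) ≤ T ^ (2.4 * x + 60 * δ) :=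
    Real.rpow_le_rpow_of_exponent_le hT1 (by linarith)
  have hI1 : ((I + 1 : ℕ) : ℝ) + 1 ≤ 4 * Real.log T := by
    have := Nat.ceil_lt_add_one (show 0 ≤ 2 * Real.log T by linarith)
    push_cast
    rw [← hI] at this
    linarith
  have hlogT : 4 * Real.log T ≤ T ^ δ := by
    rw [Real.rpow_def_of_pos hTpos, ← Real.log_le_iff_le_exp (by positivity),
      Real.log_mul (by norm_num) hl0.ne']
    linarith
  calc (Z.card : ℝ) ≤ T ^ (2 * x * 1 + 60 * δ) + (I + 1 : ℕ) * T ^ (2.4 * x + 40 * δ) := hcard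
    _ ≤ T ^ (2.4 * x + 60 * δ) + (I + 1 : ℕ) * T ^ (2.4 * x + 60 * δ) := by gcongr
    _ = (((I + 1 : ℕ) : ℝ) + 1) * T ^ (2.4 * x + 60 * δ) := by ring
    _ ≤ (4 * Real.log T) * T ^ (2.4 * x + 60 * δ) := by gcongr
    _ ≤ T ^ δ * T ^ (2.4 * x + 60 * δ) := by gcongr
    _ = T ^ (δ + (2.4 * x + 60 * δ)) := (Real.rpow_add hTpos _ _).symm
    _ ≤ _ := Real.rpow_le_rpow_of_exponent_le hT1 (by linarith)

end Pool.Agent.Helper26.KC
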